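import Mathlib

/-! Metric hypotheses for subexponential decay of groups acting on non-positively curved spaces. -/

namespace Pool.Agent.Lib.SD

/-- Any two points have a midpoint satisfying the Bruhat-Tits inequality. -/
def HasCNMidpoints (X : Type) [MetricSpace X] : Prop :=
  ∀ a b : X, ∃ m : X, ∀ p : X,
    dist p m ^ 2 ≤ (dist p a ^ 2 + dist p b ^ 2) / 2 - dist a b ^ 2 / 4

/-- At every large scale `r` there is a cover by sets of diameter at most `C r` such that each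
ball of radius `r` meets only subexponentially many of them. -/
def HasThinCovers (X : Type) [MetricSpace X] : Prop :=
  ∃ C : ℝ, ∀ ε : ℝ, 0 < ε → ∃ r₀ : ℝ, ∀ r : ℝ, r₀ ≤ r → ∃ 𝒰 : Set (Set X),
    (∀ x, ∃ U ∈ 𝒰, x ∈ U) ∧ (∀ U ∈ 𝒰, ∀ x ∈ U, ∀ y ∈ U, dist x y ≤ C * r) ∧
    ∀ x, {U ∈ 𝒰 | ∃ y ∈ U, dist x y ≤ r}.Finite ∧
      ({U ∈ 𝒰 | ∃ y ∈ U, dist x y ≤ r}.ncard : ℝ) ≤ Real.exp (ε * r)

end Pool.Agent.Lib.SD
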