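import Pool.Agent.Lib.SD.Blue

/-! Cocompact lattices satisfy the two algebraic conditions. -/

noncomputable section

open Filter Topology

namespace Pool.Agent.Lib.SD

namespace TOP

variable {K : Type} [NontriviallyNormedField K] {n : ℕ}

lemma isCompact_kc [LocallyCompactSpace K] (C : ℝ) : IsCompact {g : GL (Fin n) K | Kc C g} := by
  have : ProperSpace K := .of_nontriviallyNormedField_of_weaklyLocallyCompactSpace K
  have h : IsCompact {m : Matrix (Fin n) (Fin n) K | ∀ i j, ‖m i j‖ ≤ C} := by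
    have h := isCompact_univ_pi fun _ : Fin n => isCompact_univ_pi fun _ : Fin n =>
      isCompact_closedBall (0 : K) C
    simp only [Set.pi, Set.mem_univ, Set.mem_ofPred_eq, mem_closedBall_zero_iff, forall_const] at h
    exact h
  exact Units.isClosedEmbedding_embedProduct.isCompact_preimage
    (h.prod (MulOpposite.opHomeomorph.symm.isCompact_preimage.2 h))

lemma exists_kc (g : GL (Fin n) K) :
    ∃ m : ℕ, (∀ i j, ‖g.val i j‖ < m) ∧ ∀ i j, ‖(g⁻¹).val i j‖ < m := by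
  obtain ⟨a, ha⟩ := (Set.finite_range fun l : Fin n × Fin n => ‖g.val l.1 l.2‖).bddAbove
  obtain ⟨b, hb⟩ := (Set.finite_range fun l : Fin n × Fin n => ‖(g⁻¹).val l.1 l.2‖).bddAbove
  obtain ⟨m, hm⟩ := exists_nat_gt (max a b)
  exact ⟨m, fun i j => (ha ⟨(i, j), rfl⟩).trans_lt ((le_max_left _ _).trans_lt hm),
    fun i j => (hb ⟨(i, j), rfl⟩).trans_lt ((le_max_right _ _).trans_lt hm)⟩

lemma isOpen_lt (C : ℝ) :
    IsOpen {g : GL (Fin n) K | (∀ i j, ‖g.val i j‖ < C) ∧ ∀ i j, ‖(g⁻¹).val i j‖ < C} := by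
  simp only [Set.ofPred_and, Set.ofPred_forall]
  refine IsOpen.inter ?_ ?_ <;>
    refine isOpen_iInter_of_finite fun i => isOpen_iInter_of_finite fun j =>
      _root_.isOpen_lt ?_ continuous_const
  · exact (Units.continuous_val.matrix_elem i j).norm
  · exact (Units.continuous_coe_inv.matrix_elem i j).norm

lemma lat [LocallyCompactSpace K] {H : Type} [Group H] [TopologicalSpace H] [IsTopologicalGroup H]
    {φ : H →* GL (Fin n) K} (hφ : IsEmbedding φ) (Γ : Subgroup H) [DiscreteTopology Γ]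
    [CompactSpace (H ⧸ Γ)] :
    Fn (φ.comp Γ.subtype) ∧ ∃ C : ℝ, ∀ h : H, ∃ γ : Γ, Kc C ((φ γ)⁻¹ * φ h) := by
  constructor
  · intro C
    have h1 : IsEmbedding (φ.comp Γ.subtype) := hφ.comp IsEmbedding.subtypeVal
    have h2 := MonoidHom.tendsto_coe_cofinite_of_discrete h1.injective
      (by rw [MonoidHom.coe_range]; exact h1.isDiscrete_range)
    exact tendsto_cofinite_cocompact_iff.1 h2 _ (isCompact_kc C)
  · let U : ℕ → Set (H ⧸ Γ) := fun m => QuotientGroup.mk '' (φ ⁻¹'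
      {g | (∀ i j, ‖g.val i j‖ < m) ∧ ∀ i j, ‖(g⁻¹).val i j‖ < m})
    obtain ⟨T, hT⟩ := isCompact_univ.elim_finite_subcover U
      (fun m => QuotientGroup.isOpenMap_coe _ ((isOpen_lt _).preimage hφ.continuous))
      fun x _ => by
        obtain ⟨h, rfl⟩ := QuotientGroup.mk_surjective x
        obtain ⟨m, hm⟩ := exists_kc (φ h)
        exact Set.mem_iUnion.2 ⟨m, h, hm, rfl⟩
    refine ⟨(T.sup id : ℕ), fun h => ?_⟩
    obtain ⟨m, hm, w, hw, e⟩ := Set.mem_iUnion₂.1 (hT (Set.mem_univ (QuotientGroup.mk h⁻¹)))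
    refine ⟨⟨_, Γ.inv_mem (QuotientGroup.eq.1 e)⟩, Kc.mono (C := m) ?_
      (Nat.cast_le.2 (Finset.le_sup (f := id) hm))⟩
    have : (φ (w⁻¹ * h⁻¹)⁻¹)⁻¹ * φ h = (φ w)⁻¹ := by simp
    rw [this]
    exact Kc.inv ⟨fun i j => (hw.1 i j).le, fun i j => (hw.2 i j).le⟩

lemma gen [LocallyCompactSpace K] {G Γ : Subgroup (GL (Fin n) K)} (hG : HasCartan G) (h : Γ ≤ G)
    [DiscreteTopology Γ] [CompactSpace (G ⧸ Γ.subgroupOf G)] : Fn Γ.subtype ∧ Mid Γ.subtype := by
  have : DiscreteTopology (Γ.subgroupOf G) :=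
    DiscreteTopology.of_continuous_injective (f := Subgroup.subgroupOfEquivOfLe h)
      (by exact (continuous_subtype_val.comp continuous_subtype_val).subtype_mk _)
      (Subgroup.subgroupOfEquivOfLe h).injective
  obtain ⟨h1, C, h2⟩ := lat (φ := G.subtype) IsEmbedding.subtypeVal (Γ.subgroupOf G)
  obtain ⟨C', h3⟩ := hG
  refine ⟨fun A => ((h1 A).image (Subgroup.subgroupOfEquivOfLe h)).subset fun γ hγ =>
    ⟨(Subgroup.subgroupOfEquivOfLe h).symm γ, hγ, by simp⟩, max C C', fun γ => ?_⟩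
  obtain ⟨k₁, h4, b, h5, k₂, -, h6, h7, h8, h9⟩ := h3 γ (h γ.2)
  obtain ⟨γ', h10⟩ := h2 ⟨k₁ * b, mul_mem h4 h5⟩
  exact ⟨k₁, b, k₂, Subgroup.subgroupOfEquivOfLe h γ', h6.mono (le_max_right _ _),
    h7.mono (le_max_right _ _), h8, h9, h10.mono (le_max_left _ _)⟩

lemma word {Γ : Type} [Group Γ] (ρ : Γ →* GL (Fin n) K)
    (h : SubexpDecay fun r => {γ | Kc (Real.exp r) (ρ γ)}) (S : Finset Γ) :
    SubexpDecay (wordBall S) := by
  choose m hm using fun γ => exists_kc (ρ γ)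
  let A : ℕ := S.sup m
  have h1 : ∀ s, s ∈ S ∨ s⁻¹ ∈ S → Kc A (ρ s) := by
    have h2 : ∀ s ∈ S, Kc A (ρ s) := fun s hs => Kc.mono (C := m s)
      ⟨fun i j => ((hm s).1 i j).le, fun i j => ((hm s).2 i j).le⟩ (Nat.cast_le.2 (Finset.le_sup hs))
    rintro s (hs | hs)
    · exact h2 s hs
    · simpa using (h2 _ hs).inv
  let c : ℝ := n * A + 1
  have hc : 0 < c := by positivity
  have h2 : ∀ l : List Γ, (∀ s ∈ l, s ∈ S ∨ s⁻¹ ∈ S) → Kc (Real.exp (c * l.length)) (ρ l.prod) := by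
    intro l hl
    induction l with
    | nil => simpa using kc_one
    | cons s l ih =>
      rw [List.prod_cons, map_mul]
      refine ((h1 s (hl s (by simp))).mul (ih fun t ht => hl t (by simp [ht]))).mono ?_
      rw [List.length_cons, Nat.cast_succ, mul_add, mul_one, add_comm, Real.exp_add, ← mul_assoc]
      gcongr
      linarith [Real.add_one_le_exp c]
  intro ε hε
  obtain ⟨C, hC⟩ := h (ε / c) (by positivity)
  refine ⟨C, fun r hr f g hf => ?_⟩
  have := hC (c * r) (by positivity) f g fun x hx => by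
    obtain ⟨l, h3, h4, rfl⟩ := hf x hx
    exact (h2 l h4).mono (by gcongr)
  rwa [← mul_assoc, div_mul_cancel₀ _ hc.ne'] at this

end TOP

theorem stTOP : St_TOP where
  lat := fun _ _ _ _ _ _ _ _ _ hφ Γ _ _ => TOP.lat hφ Γ
  gen := fun _ _ _ _ _ _ hG h _ _ => TOP.gen hG h
  word := fun _ _ _ _ _ ρ h S => TOP.word ρ h S

end Pool.Agent.Lib.SD
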