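import Pool.Agent.Lib.SD.Defs
import Pool.Agent.Lib.U4.E1
import Pool.Agent.Lib.U4.E2

/-! Block statements. Proofs: `b169_SD_PAPER.md` and `sd_PLAN.md` in the team store. -/

noncomputable section

open Finset

namespace Pool.Agent.Lib.SD

open Pool.Agent.Lib.U4

/-! ### Entropy -/

/-- The entropy excess of the random triangle `1, X, Y`. -/
def Dx {Γ Ω : Type} [Group Γ] [Fintype Ω] (P : FP Ω) (X Y : Ω → Γ) : ℝ :=
  2 * P.H (fun a => (X a, Y a)) - P.H X - P.H Y - P.H fun a => (X a)⁻¹ * Y a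

/-- The first `N + 1` terms. -/
def tup {Ω α : Type} (p : ℕ → Ω → α) (N : ℕ) (a : Ω) : Fin (N + 1) → α := fun j => p j a

/-- Equality in law. -/
def Law {Ω Ω' α : Type} [Fintype Ω] [Fintype Ω'] (Q : FP Ω') (U : Ω' → α) (P : FP Ω)
    (V : Ω → α) : Prop := ∀ φ : α → ℝ, (Q.E fun a => φ (U a)) = P.E fun a => φ (V a)

/-- Laws, Gibbs inequality, chain submodularity. -/
structure St_ENT : Prop where
  lawH : ∀ {Ω Ω' α β : Type} [Fintype Ω] [Fintype Ω'] (Q : FP Ω') (U : Ω' → α) (P : FP Ω)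
    (V : Ω → α), Law Q U P V → ∀ ψ : α → β, (Q.H fun a => ψ (U a)) = P.H fun a => ψ (V a)
  lawS : ∀ {Ω Ω' α : Type} [Fintype Ω] [Fintype Ω'] (Q : FP Ω') (U : Ω' → α) (P : FP Ω)
    (V : Ω → α), Law Q U P V → ∀ R : α → Prop, (∀ a, 0 < P.w a → R (V a)) →
      ∀ a, 0 < Q.w a → R (U a)
  gib : ∀ {Ω α : Type} [Fintype Ω] (P : FP Ω) (X : Ω → α) (q : α → ℝ), (∀ x, 0 ≤ q x) →
    (∀ a, 0 < P.w a → 0 < q (X a)) → (∀ F : Finset α, ∑ x ∈ F, q x ≤ 1) →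
      P.H X ≤ P.E fun a => -Real.log (q (X a))
  cond : ∀ {Ω α β : Type} [Fintype Ω] (P : FP Ω) (X : Ω → α) (U : Ω → β) (S : α → Finset β)
    (M : ℝ), (∀ x, ((S x).card : ℝ) ≤ Real.exp M) → (∀ a, 0 < P.w a → U a ∈ S (X a)) →
      (P.H fun a => (X a, U a)) ≤ P.H X + M
  sub : ∀ {Ω α : Type} [Fintype Ω] (P : FP Ω) (q : ℕ → Ω → α) (N : ℕ),
    P.H (tup q N) ≤ P.H (q 0) +
      ∑ j ∈ range N, ((P.H fun a => (q j a, q (j + 1) a)) - P.H (q j))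
  cs : ∀ {Ω : Type} [Fintype Ω] (P : FP Ω) (f : Ω → ℝ), P.E f ^ 2 ≤ P.E fun a => f a ^ 2

/-- A Markov chain with prescribed laws of consecutive pairs. -/
def St_CHAIN : Prop := ∀ {Ω α : Type} [Fintype Ω] (P : FP Ω) (V : ℕ → Ω → α) (N : ℕ),
  ∃ (Ω' : Type) (_ : Fintype Ω') (Q : FP Ω') (p : ℕ → Ω' → α), Law Q (p 0) P (V 0) ∧
    Law Q (p N) P (V N) ∧
    (∀ j < N, Law Q (fun a => (p j a, p (j + 1) a)) P fun a => (V j a, V (j + 1) a)) ∧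
    P.H (V 0) + ∑ j ∈ range N, ((P.H fun a => (V j a, V (j + 1) a)) - P.H (V j)) ≤ Q.H (tup p N)

/-- The geometric input: growth, midpoints, reduction of long triangles. -/
structure Geo {Γ : Type} [Group Γ] (ℓ : Γ → ℝ) (B : ℝ → Set Γ) : Prop where
  nn : ∀ g, 0 ≤ ℓ g
  symm : ∀ r g, g ∈ B r → g⁻¹ ∈ B r
  grow : ∃ C₁ C₂ : ℝ, 0 < C₁ ∧ 0 ≤ C₂ ∧
    ∀ F : Finset Γ, ∑ g ∈ F, Real.exp (-(C₁ * ℓ g)) ≤ Real.exp C₂
  cn : ∃ κ : ℝ, 0 ≤ κ ∧ ∀ g, ∃ m, ∀ p,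
    2 * ℓ (m⁻¹ * p) ^ 2 + ℓ g ^ 2 / 4 ≤ (ℓ p + κ) ^ 2 + (ℓ (g⁻¹ * p) + κ) ^ 2
  red : ∃ L : ℝ, 0 < L ∧ ∀ ε : ℝ, 0 < ε → ∃ r₀ : ℝ, ∀ r, r₀ ≤ r → ∃ S : Γ → Finset Γ,
    (∀ x, ((S x).card : ℝ) ≤ Real.exp (ε * r)) ∧ ∀ x y, x⁻¹ * y ∈ B r →
      ∃ u ∈ S x, u ∈ S y ∧ ℓ (u⁻¹ * x) ≤ L * r ∧ ℓ (u⁻¹ * y) ≤ L * r

/-- All random triangles with short side in `B` have excess at most `Δ`. -/
def Exc {Γ : Type} [Group Γ] (B : Set Γ) (Δ : ℝ) : Prop :=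
  ∀ (Ω : Type) [Fintype Ω] (P : FP Ω) (X Y : Ω → Γ), (∀ a, 0 < P.w a → (X a)⁻¹ * Y a ∈ B) →
    Dx P X Y ≤ Δ

/-- Theorem A. -/
def St_A : Prop := ∀ {Γ : Type} [Group Γ] (ℓ : Γ → ℝ) (B : ℝ → Set Γ), Geo ℓ B →
  ∀ δ : ℝ, 0 < δ → ∃ r₀ : ℝ, ∀ r, r₀ ≤ r → Exc (B r) (δ * r)

/-- From entropy to norms. -/
structure St_N : Prop where
  norm : ∀ {Γ : Type} [Group Γ] (B : Set Γ) (Δ : ℝ), Exc B Δ → ∀ f g : MonoidAlgebra ℂ Γ,
    (∀ x ∈ f.coeff.support, x ∈ B) → l2 (f * g) ≤ Real.exp (Δ / 2) * l2 f * l2 g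
  sd : ∀ {Γ : Type} [Group Γ] (B : ℝ → Set Γ), (∀ r r', r ≤ r' → B r ⊆ B r') →
    (∀ δ : ℝ, 0 < δ → ∃ r₀ : ℝ, ∀ r, r₀ ≤ r → Exc (B r) (δ * r)) → SubexpDecay B

/-! ### Matrices -/

section Mat

variable {K : Type} [NontriviallyNormedField K] {n : ℕ}

/-- The logarithms of the norms of the diagonal entries. -/
def dv (b : GL (Fin n) K) : EuclideanSpace ℝ (Fin n) :=
  WithLp.toLp 2 fun i => Real.log ‖b.val i i‖

@[simp] lemma dv_apply (b : GL (Fin n) K) (i : Fin n) : dv b i = Real.log ‖b.val i i‖ := rfl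

lemma Kc.inv {C : ℝ} {g : GL (Fin n) K} (h : Kc C g) : Kc C g⁻¹ :=
  ⟨h.2, by rw [inv_inv]; exact h.1⟩

lemma Kc.mono {C C' : ℝ} {g : GL (Fin n) K} (h : Kc C g) (hC : C ≤ C') : Kc C' g :=
  ⟨fun i j => (h.1 i j).trans hC, fun i j => (h.2 i j).trans hC⟩

lemma ent_mul {A B : ℝ} {g h : Matrix (Fin n) (Fin n) K} (hg : ∀ i j, ‖g i j‖ ≤ A)
    (hh : ∀ i j, ‖h i j‖ ≤ B) (i j : Fin n) : ‖(g * h) i j‖ ≤ n * (A * B) := by
  rw [Matrix.mul_apply]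
  refine (norm_sum_le _ _).trans ((sum_le_card_nsmul _ _ (A * B) fun l _ => ?_).trans (by simp))
  rw [norm_mul]
  exact mul_le_mul (hg i l) (hh l j) (norm_nonneg _) ((norm_nonneg _).trans (hg i l))

lemma Kc.mul {A B : ℝ} {g h : GL (Fin n) K} (hg : Kc A g) (hh : Kc B h) :
    Kc (n * (A * B)) (g * h) := by
  refine ⟨ent_mul hg.1 hh.1, fun i j => ?_⟩
  rw [mul_inv_rev, mul_comm A]
  exact ent_mul hh.2 hg.2 i j

lemma kc_one : Kc 1 (1 : GL (Fin n) K) := by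
  have h : ∀ i j, ‖(1 : GL (Fin n) K).val i j‖ ≤ 1 := fun i j => by
    rw [Units.val_one, Matrix.one_apply]
    split_ifs <;> simp
  exact ⟨h, by rw [inv_one]; exact h⟩

/-- The invertible diagonal matrix with the given non-zero entries. -/
def dg (d : Fin n → K) (hd : ∀ i, d i ≠ 0) : GL (Fin n) K where
  val := Matrix.diagonal d
  inv := Matrix.diagonal fun i => (d i)⁻¹
  val_inv := by simp [Matrix.diagonal_mul_diagonal, hd]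
  inv_val := by simp [Matrix.diagonal_mul_diagonal, hd]

lemma dg_isDiag (d : Fin n → K) (hd : ∀ i, d i ≠ 0) : (dg d hd).val.IsDiag :=
  Matrix.isDiag_diagonal d

/-- Every invertible diagonal matrix is of the form `dg`. -/
lemma exists_dg {b : GL (Fin n) K} (hb : b.val.IsDiag) : ∃ d hd, b = dg d hd := by
  have h1 : b.val = Matrix.diagonal b.val.diag := hb.diagonal_diag.symm
  have h2 : ∀ i, b.val.diag i ≠ 0 := fun i h => by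
    have h3 := congrFun (congrFun b.val_inv i) i
    rw [h1, Matrix.diagonal_mul, h, zero_mul, Matrix.one_apply_eq] at h3
    exact zero_ne_one h3
  exact ⟨_, h2, Units.ext h1⟩

lemma dg_mul_apply (d : Fin n → K) (hd : ∀ i, d i ≠ 0) (g : GL (Fin n) K) (i j : Fin n) :
    (dg d hd * g).val i j = d i * g.val i j := Matrix.diagonal_mul d _ i j

lemma mul_dg_apply (d : Fin n → K) (hd : ∀ i, d i ≠ 0) (g : GL (Fin n) K) (i j : Fin n) :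
    (g * dg d hd).val i j = g.val i j * d j := Matrix.mul_diagonal d _ i j

lemma dg_inv (d : Fin n → K) (hd : ∀ i, d i ≠ 0) :
    (dg d hd)⁻¹ = dg (fun i => (d i)⁻¹) fun i => inv_ne_zero (hd i) := Units.ext rfl

lemma dg_mul (d e : Fin n → K) (hd : ∀ i, d i ≠ 0) (he : ∀ i, e i ≠ 0) :
    dg d hd * dg e he = dg (fun i => d i * e i) fun i => mul_ne_zero (hd i) (he i) :=
  Units.ext (Matrix.diagonal_mul_diagonal d e)

lemma dg_apply (d : Fin n → K) (hd : ∀ i, d i ≠ 0) (i : Fin n) : (dg d hd).val i i = d i :=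
  Matrix.diagonal_apply_eq d i

lemma kc_dg {C : ℝ} (d : Fin n → K) (hd : ∀ i, d i ≠ 0) (h1 : ∀ i, ‖d i‖ ≤ C)
    (h2 : ∀ i, ‖d i‖⁻¹ ≤ C) : Kc C (dg d hd) := by
  refine ⟨fun i j => ?_, fun i j => ?_⟩
  · change ‖Matrix.diagonal d i j‖ ≤ C
    rw [Matrix.diagonal_apply]
    split_ifs
    exacts [h1 i, by rw [norm_zero]; exact (norm_nonneg _).trans (h1 i)]
  · change ‖Matrix.diagonal (fun i => (d i)⁻¹) i j‖ ≤ C
    rw [Matrix.diagonal_apply]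
    split_ifs
    exacts [by rw [norm_inv]; exact h2 i, by rw [norm_zero]; exact (norm_nonneg _).trans (h1 i)]

/-- The permutation matrix with `(pm σ * g) i j = g (σ i) j`. -/
def pm (σ : Equiv.Perm (Fin n)) : GL (Fin n) K where
  val := Matrix.of fun i j => if σ i = j then 1 else 0
  inv := Matrix.of fun i j => if i = σ j then 1 else 0
  val_inv := by
    ext i j
    simp [Matrix.mul_apply, Matrix.one_apply]
  inv_val := by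
    ext i j
    rw [Matrix.mul_apply, sum_eq_single (σ.symm i)]
    · simp [Matrix.one_apply]
    · intro b _ hb
      rw [Matrix.of_apply, if_neg fun h => hb (by simp [h]), zero_mul]
    · simp

lemma pm_mul_apply (σ : Equiv.Perm (Fin n)) (g : GL (Fin n) K) (i j : Fin n) :
    (pm σ * g).val i j = g.val (σ i) j := by
  simp [pm, Matrix.mul_apply]

lemma mul_pm_inv_apply (σ : Equiv.Perm (Fin n)) (g : GL (Fin n) K) (i j : Fin n) :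
    (g * (pm σ)⁻¹).val i j = g.val i (σ j) := by
  have h : (g * (pm σ)⁻¹).val = g.val * (pm σ : GL (Fin n) K).inv := rfl
  rw [h]
  simp [pm, Matrix.mul_apply]

lemma kc_pm (σ : Equiv.Perm (Fin n)) : Kc 1 (pm σ : GL (Fin n) K) := by
  refine ⟨fun i j => ?_, fun i j => ?_⟩
  · change ‖if σ i = j then (1 : K) else 0‖ ≤ 1
    split_ifs <;> simp
  · change ‖if i = σ j then (1 : K) else 0‖ ≤ 1
    split_ifs <;> simp

/-- A coarse distance to the origin of the symmetric space or building. -/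
structure IsDD (dd : GL (Fin n) K → ℝ) : Prop where
  nn : ∀ g, 0 ≤ dd g
  val : ∀ C : ℝ, ∃ c : ℝ, 0 ≤ c ∧ ∀ k₁ a k₂ : GL (Fin n) K, Kc C k₁ → Kc C k₂ → a.val.IsDiag →
    |dd (k₁ * a * k₂) - ‖dv a‖| ≤ c
  inv : ∀ C : ℝ, ∃ c : ℝ, 0 ≤ c ∧ ∀ k₁ g k₂ : GL (Fin n) K, Kc C k₁ → Kc C k₂ →
    |dd (k₁ * g * k₂) - dd g| ≤ c
  low : ∃ c : ℝ, 0 ≤ c ∧ ∀ h : GL (Fin n) K, (∀ i j, i < j → h.val i j = 0) → ‖dv h‖ ≤ dd h + c
  up : ∃ c : ℝ, 0 < c ∧ ∀ (g : GL (Fin n) K) (t : ℝ), 0 ≤ t → Kc (Real.exp t) g →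
    dd g ≤ c * (t + 1)
  down : ∃ c : ℝ, 0 ≤ c ∧ ∀ g : GL (Fin n) K, Kc (Real.exp (dd g + c)) g

variable {Γ : Type} [Group Γ]

/-- Bounded sets are finite. -/
def Fn (ρ : Γ →* GL (Fin n) K) : Prop := ∀ C : ℝ, {γ | Kc C (ρ γ)}.Finite

/-- Coarse midpoints exist in the group. -/
def Mid (ρ : Γ →* GL (Fin n) K) : Prop :=
  ∃ C : ℝ, ∀ γ, ∃ (k₁ b k₂ : GL (Fin n) K) (γ' : Γ), Kc C k₁ ∧ Kc C k₂ ∧ b.val.IsDiag ∧
    ρ γ = k₁ * b * b * k₂ ∧ Kc C ((ρ γ')⁻¹ * (k₁ * b))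

end Mat

/-- Coarse Cartan decomposition of the general linear group. -/
def St_CAR : Prop := ∀ (K : Type) [NontriviallyNormedField K] (n : ℕ), ∃ C : ℝ,
  ∀ g : GL (Fin n) K, ∃ k₁ a k₂ : GL (Fin n) K, Kc C k₁ ∧ Kc C k₂ ∧ a.val.IsDiag ∧
    (∀ i j, i ≤ j → ‖a.val j j‖ ≤ ‖a.val i i‖) ∧ g = k₁ * a * k₂

/-- Gaussian elimination with pivoting. -/
def St_PLU : Prop := ∀ (K : Type) [NontriviallyNormedField K] (n : ℕ) (C : ℝ), ∃ C' : ℝ,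
  ∀ k : GL (Fin n) K, Kc C k → ∃ (σ : Equiv.Perm (Fin n)) (U : GL (Fin n) K), Kc C' U ∧
    (∀ i j, j < i → U.val i j = 0) ∧ (∀ i j, j < i → (U⁻¹).val i j = 0) ∧
    ∀ i j, i < j → (k * U).val (σ i) j = 0

/-- Majorisation. -/
def St_MAJ : Prop := ∀ (n : ℕ) (c : ℝ), 0 ≤ c → ∀ x y : EuclideanSpace ℝ (Fin n),
  (∀ J : Finset (Fin n), ∃ I : Finset (Fin n), I.card = J.card ∧
    ∑ j ∈ J, y j ≤ ∑ i ∈ I, x i + c) → ∑ i, x i ≤ ∑ i, y i + c → ‖y‖ ≤ ‖x‖ + 3 * c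

/-- The diagonal of a triangular matrix is majorised by the Cartan vector. -/
def St_TRI : Prop := ∀ (K : Type) [NontriviallyNormedField K] (n : ℕ) (C : ℝ), ∃ c : ℝ, 0 ≤ c ∧
  ∀ k₁ a k₂ : GL (Fin n) K, Kc C k₁ → Kc C k₂ → a.val.IsDiag →
    (∀ i j, i < j → (k₁ * a * k₂).val i j = 0) → ‖dv (k₁ * a * k₂)‖ ≤ ‖dv a‖ + c

/-- The coarse distance exists. -/
def St_DD : Prop := ∀ (K : Type) [NontriviallyNormedField K] (n : ℕ),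
  ∃ dd : GL (Fin n) K → ℝ, IsDD dd

/-- The midpoint inequality. -/
structure St_CN : Prop where
  mat : ∀ (K : Type) [NontriviallyNormedField K] (n : ℕ) (dd : GL (Fin n) K → ℝ), IsDD dd →
    ∃ c : ℝ, 0 ≤ c ∧ ∀ g b : GL (Fin n) K, b.val.IsDiag → ∃ v : EuclideanSpace ℝ (Fin n),
      dd g ≤ ‖v‖ + c ∧ ‖v + dv b‖ ≤ dd (b * g) + c ∧ ‖v - dv b‖ ≤ dd (b⁻¹ * g) + c
  grp : ∀ (K : Type) [NontriviallyNormedField K] (n : ℕ) (dd : GL (Fin n) K → ℝ), IsDD dd →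
    ∀ (Γ : Type) [Group Γ] (ρ : Γ →* GL (Fin n) K), Mid ρ → ∃ κ : ℝ, 0 ≤ κ ∧ ∀ γ, ∃ m,
      ∀ p : GL (Fin n) K, 2 * dd ((ρ m)⁻¹ * p) ^ 2 + dd (ρ γ) ^ 2 / 4 ≤
        (dd p + κ) ^ 2 + (dd ((ρ γ)⁻¹ * p) + κ) ^ 2

/-- Exponential growth. -/
structure St_GROW : Prop where
  card : ∀ (K : Type) [NontriviallyNormedField K] (n : ℕ) (Γ : Type) [Group Γ]
    (ρ : Γ →* GL (Fin n) K), Fn ρ → Mid ρ → ∃ C₁ : ℝ, 0 < C₁ ∧ ∀ R : ℝ, 0 ≤ R → ∃ F : Finset Γ,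
      (F.card : ℝ) ≤ Real.exp (C₁ * (R + 1)) ∧ ∀ γ, Kc (Real.exp R) (ρ γ) → γ ∈ F
  sum : ∀ (K : Type) [NontriviallyNormedField K] (n : ℕ) (dd : GL (Fin n) K → ℝ), IsDD dd →
    ∀ (Γ : Type) [Group Γ] (ρ : Γ →* GL (Fin n) K), Fn ρ → Mid ρ → ∃ C₁ C₂ : ℝ, 0 < C₁ ∧ 0 ≤ C₂ ∧
      ∀ F : Finset Γ, ∑ g ∈ F, Real.exp (-(C₁ * dd (ρ g))) ≤ Real.exp C₂

/-- Reduction of long triangles in the general linear group. -/
def St_REDM : Prop := ∀ (K : Type) [NontriviallyNormedField K] (n : ℕ), ∃ C M : ℝ, 0 < M ∧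
  ∀ r : ℝ, 0 ≤ r → ∃ S : GL (Fin n) K → Finset (GL (Fin n) K),
    (∀ x, ((S x).card : ℝ) ≤ (M * (r + 1)) ^ n) ∧ ∀ x y, Kc (Real.exp r) (x⁻¹ * y) →
      ∃ u ∈ S x, ∃ u' ∈ S y, Kc C (u⁻¹ * u') ∧ Kc (Real.exp (M * (r + 1))) (u⁻¹ * x)

/-- Reduction of long triangles in the discrete group. -/
def St_REDG : Prop := ∀ (K : Type) [NontriviallyNormedField K] (n : ℕ) (dd : GL (Fin n) K → ℝ),
  IsDD dd → ∀ (Γ : Type) [Group Γ] (ρ : Γ →* GL (Fin n) K), Fn ρ → Mid ρ →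
    ∃ L : ℝ, 0 < L ∧ ∀ ε : ℝ, 0 < ε → ∃ r₀ : ℝ, ∀ r, r₀ ≤ r → ∃ S : Γ → Finset Γ,
      (∀ x, ((S x).card : ℝ) ≤ Real.exp (ε * r)) ∧ ∀ x y, Kc (Real.exp r) (ρ (x⁻¹ * y)) →
        ∃ u ∈ S x, u ∈ S y ∧ dd (ρ (u⁻¹ * x)) ≤ L * r ∧ dd (ρ (u⁻¹ * y)) ≤ L * r

/-- Cocompact lattices satisfy the two algebraic conditions. -/
structure St_TOP : Prop where
  lat : ∀ (K : Type) [NontriviallyNormedField K] [LocallyCompactSpace K] (n : ℕ) (H : Type)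
    [Group H] [TopologicalSpace H] [IsTopologicalGroup H] (φ : H →* GL (Fin n) K),
      Topology.IsEmbedding φ → ∀ Γ : Subgroup H, DiscreteTopology Γ → CompactSpace (H ⧸ Γ) →
        Fn (φ.comp Γ.subtype) ∧ ∃ C : ℝ, ∀ h : H, ∃ γ : Γ, Kc C ((φ γ)⁻¹ * φ h)
  gen : ∀ (K : Type) [NontriviallyNormedField K] [LocallyCompactSpace K] (n : ℕ)
    (G Γ : Subgroup (GL (Fin n) K)), HasCartan G → Γ ≤ G → DiscreteTopology Γ →
      CompactSpace (G ⧸ Γ.subgroupOf G) → Fn Γ.subtype ∧ Mid Γ.subtype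
  word : ∀ (K : Type) [NontriviallyNormedField K] (n : ℕ) (Γ : Type) [Group Γ]
    (ρ : Γ →* GL (Fin n) K), SubexpDecay (fun r => {γ | Kc (Real.exp r) (ρ γ)}) →
      ∀ S : Finset Γ, SubexpDecay (wordBall S)

/-- The special linear group. -/
def St_SL : Prop := ∀ (K : Type) [NontriviallyNormedField K] [LocallyCompactSpace K] (n : ℕ)
  (Γ : Subgroup (Matrix.SpecialLinearGroup (Fin n) K)), DiscreteTopology Γ →
    CompactSpace (Matrix.SpecialLinearGroup (Fin n) K ⧸ Γ) →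
      Fn (Matrix.SpecialLinearGroup.toGL.comp Γ.subtype) ∧
      Mid (Matrix.SpecialLinearGroup.toGL.comp Γ.subtype)

/-- Assembly. -/
theorem main_of (hA : St_A) (hN : St_N) (hD : St_DD) (hC : St_CN) (hG : St_GROW) (hR : St_REDG)
    {K : Type} [NontriviallyNormedField K] {n : ℕ} {Γ : Type} [Group Γ]
    (ρ : Γ →* GL (Fin n) K) (h1 : Fn ρ) (h2 : Mid ρ) :
    SubexpDecay fun r => {γ | Kc (Real.exp r) (ρ γ)} := by
  obtain ⟨dd, hd⟩ := hD K n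
  refine hN.sd _ (fun r r' h γ hγ => Kc.mono hγ (Real.exp_le_exp.2 h))
    (hA (fun γ => dd (ρ γ)) _ ⟨fun _ => hd.nn _, fun r g hg => ?_, hG.sum K n dd hd Γ ρ h1 h2, ?_,
      hR K n dd hd Γ ρ h1 h2⟩)
  · change Kc _ (ρ g⁻¹)
    rw [map_inv]
    exact Kc.inv hg
  · obtain ⟨κ, h3, h4⟩ := hC.grp K n dd hd Γ ρ h2
    refine ⟨κ, h3, fun g => ?_⟩
    obtain ⟨m, hm⟩ := h4 g
    exact ⟨m, fun p => by simpa only [map_mul, map_inv] using hm (ρ p)⟩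

end Pool.Agent.Lib.SD
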