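import Pool.Agent.Lib.SD.Blue

/-! Majorisation up to an additive error. -/

noncomputable section

open Finset

namespace Pool.Agent.Lib.SD

namespace MAJ

lemma top {n : ℕ} {b : Fin n → ℝ} (hb : Antitone b) (m : Fin n) (I : Finset (Fin n))
    (hI : I.card = (Iic m).card) : ∑ i ∈ I, b i ≤ ∑ i ∈ Iic m, b i := by
  have h1 : ∑ i ∈ I, (b i - b m) ≤ ∑ i ∈ Iic m, (b i - b m) := by
    rw [← sum_filter_add_sum_filter_not I (· ≤ m)]
    refine (add_le_of_nonpos_right (sum_nonpos fun i hi => ?_)).trans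
      (sum_le_sum_of_subset_of_nonneg (fun i hi => mem_Iic.2 (mem_filter.1 hi).2)
        fun i hi _ => sub_nonneg.2 (hb (mem_Iic.1 hi)))
    exact sub_nonpos.2 (hb (not_le.1 (mem_filter.1 hi).2).le)
  rw [sum_sub_distrib, sum_sub_distrib, sum_const, sum_const, hI] at h1
  linarith

lemma abel {n : ℕ} {a d : Fin (n + 1) → ℝ} {c : ℝ} (ha : Antitone a)
    (hd : ∀ m, ∑ j ∈ Iic m, d j ≤ c) (m : Fin (n + 1)) :
    ∑ j ∈ Iic m, a j * d j ≤ (a 0 - a m) * c + a m * ∑ j ∈ Iic m, d j := by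
  induction m using Fin.induction with
  | zero =>
    have h : Iic (0 : Fin (n + 1)) = {0} := by ext j; simp
    simp [h]
  | succ i ih =>
    have h : Iic i.succ = insert i.succ (Iic i.castSucc) := by
      ext j
      simp only [mem_Iic, mem_insert, Fin.le_def, Fin.ext_iff, Fin.val_succ, Fin.val_castSucc]
      omega
    have h1 : i.succ ∉ Iic i.castSucc := by
      simp only [mem_Iic, not_le]
      exact Fin.castSucc_lt_succ
    have h2 := mul_le_mul_of_nonneg_left (hd i.castSucc)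
      (sub_nonneg.2 (ha (Fin.castSucc_lt_succ (i := i)).le))
    rw [h, sum_insert h1, sum_insert h1]
    linarith

lemma sort {n : ℕ} (x : Fin n → ℝ) : ∃ σ : Equiv.Perm (Fin n), Antitone fun i => x (σ i) :=
  ⟨Tuple.sort fun i => -x i, fun _ _ h =>
    neg_le_neg_iff.1 (Tuple.monotone_sort (fun i => -x i) h)⟩

lemma sq_eq {n : ℕ} (x : EuclideanSpace ℝ (Fin n)) (σ : Equiv.Perm (Fin n)) :
    ∑ i, x (σ i) ^ 2 = ‖x‖ ^ 2 := by
  rw [EuclideanSpace.norm_sq_eq, Equiv.sum_comp σ fun i => x i ^ 2]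
  simp

end MAJ

open MAJ

theorem stMAJ : St_MAJ := by
  intro n c hc x y h1 h2
  rcases (norm_nonneg y).eq_or_lt with h0 | h0
  · rw [← h0]
    positivity
  cases n with
  | zero =>
    rw [Subsingleton.elim y 0, norm_zero] at h0
    exact absurd h0 (lt_irrefl _)
  | succ n =>
    obtain ⟨σ, hσ⟩ := sort (fun i => y i)
    obtain ⟨τ, hτ⟩ := sort (fun i => x i)
    have h3 : ∀ m, ∑ j ∈ Iic m, (y (σ j) - x (τ j)) ≤ c := fun m => by
      obtain ⟨I, e1, e2⟩ := h1 ((Iic m).map σ.toEmbedding)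
      have e3 := top hτ m (I.map τ.symm.toEmbedding) (by rw [card_map, e1, card_map])
      rw [sum_map] at e2 e3
      simp only [Equiv.coe_toEmbedding, Equiv.apply_symm_apply] at e2 e3
      rw [sum_sub_distrib]
      linarith
    have h4 := abel hσ h3 (Fin.last n)
    have h5 := h3 (Fin.last n)
    have h6 : Iic (Fin.last n) = univ := by ext j; simp [Fin.le_last]
    rw [h6] at h4 h5
    have h7 : -c ≤ ∑ j, (y (σ j) - x (τ j)) := by
      rw [sum_sub_distrib, Equiv.sum_comp σ fun i => y i, Equiv.sum_comp τ fun i => x i]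
      linarith
    have h8 : ∀ i, |y i| ≤ ‖y‖ := fun i => PiLp.norm_apply_le y i
    have h9 : y (σ (Fin.last n)) * ∑ j, (y (σ j) - x (τ j)) ≤ ‖y‖ * c := by
      refine (le_abs_self _).trans ?_
      rw [abs_mul]
      exact mul_le_mul (h8 _) (abs_le.2 ⟨h7, h5⟩) (abs_nonneg _) h0.le
    have h10 : (y (σ 0) - y (σ (Fin.last n))) * c ≤ (‖y‖ + ‖y‖) * c :=
      mul_le_mul_of_nonneg_right
        (by linarith [abs_le.1 (h8 (σ 0)), abs_le.1 (h8 (σ (Fin.last n)))]) hc
    have h11 := Real.sum_mul_le_sqrt_mul_sqrt univ (fun j => y (σ j)) fun j => x (τ j)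
    rw [sq_eq, sq_eq, Real.sqrt_sq h0.le, Real.sqrt_sq (norm_nonneg _)] at h11
    simp only [mul_sub, ← sq, sum_sub_distrib (f := fun j => y (σ j) ^ 2), sq_eq] at h4
    refine le_of_mul_le_mul_left ?_ h0
    linarith

end Pool.Agent.Lib.SD
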