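import Pool.Agent.Lib.SD.Blue

/-! The diagonal of a triangular matrix is majorised by the Cartan vector. -/

noncomputable section

open Finset

namespace Pool.Agent.Lib.SD

namespace TRI

variable {K : Type} [NontriviallyNormedField K]

lemma norm_det_le {ι : Type} [Fintype ι] [DecidableEq ι] (M : Matrix ι ι K) {C : ℝ}
    (hM : ∀ i j, ‖M i j‖ ≤ C) :
    ‖M.det‖ ≤ (Fintype.card ι).factorial * C ^ Fintype.card ι := by
  rw [Matrix.det_apply']
  refine (norm_sum_le _ _).trans ((sum_le_card_nsmul _ _ (C ^ Fintype.card ι)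
    fun σ _ => ?_).trans (by simp [Fintype.card_perm]))
  have h1 : ‖((Equiv.Perm.sign σ : ℤ) : K)‖ = 1 := by
    rcases Int.units_eq_one_or (Equiv.Perm.sign σ) with h | h <;> simp [h]
  rw [norm_mul, h1, one_mul, norm_prod]
  calc ∏ i, ‖M (σ i) i‖ ≤ ∏ _i : ι, C := prod_le_prod (fun _ _ => norm_nonneg _) fun i _ => hM _ _
    _ = C ^ Fintype.card ι := by simp

/-- Expansion of the determinant of a product through a diagonal matrix. -/
lemma det_expand {ι κ : Type} [Fintype ι] [DecidableEq ι] [Fintype κ] [DecidableEq κ]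
    (A : Matrix ι κ K) (d : κ → K) (B : Matrix κ ι K) :
    (Matrix.of fun i j => ∑ l, A i l * d l * B l j).det =
      ∑ φ : ι → κ, (∏ i, d (φ i) * B (φ i) i) * (A.submatrix id φ).det := by
  simp only [Matrix.det_apply', Matrix.of_apply, prod_univ_sum, Fintype.piFinset_univ, mul_sum,
    Matrix.submatrix_apply, id]
  rw [sum_comm]
  refine sum_congr rfl fun φ _ => sum_congr rfl fun σ _ => ?_
  rw [mul_left_comm, ← prod_mul_distrib]
  congr 1
  exact prod_congr rfl fun i _ => by ring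

lemma minor_le {n : ℕ} {C : ℝ} (hC : 1 ≤ C) (A B : Matrix (Fin n) (Fin n) K) (d : Fin n → K)
    (hA : ∀ i j, ‖A i j‖ ≤ C) (hB : ∀ i j, ‖B i j‖ ≤ C) (J : Finset (Fin n)) :
    ∃ I : Finset (Fin n), I.card = J.card ∧
      ‖(Matrix.of fun i j : J => ∑ l, A i l * d l * B l j).det‖ ≤
        ((n + 1 : ℝ) ^ n * n.factorial * C ^ (2 * n)) * ∏ i ∈ I, ‖d i‖ := by
  classical
  obtain ⟨I, hI, hmax⟩ := exists_max_image (powersetCard J.card (univ : Finset (Fin n)))
    (fun I => ∏ i ∈ I, ‖d i‖) ⟨J, by simp⟩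
  refine ⟨I, (mem_powersetCard.1 hI).2, ?_⟩
  have hJ : J.card ≤ n := by simpa using card_le_univ J
  have hP : 0 ≤ ∏ i ∈ I, ‖d i‖ := prod_nonneg fun _ _ => norm_nonneg _
  have hC0 : 0 ≤ C := zero_le_one.trans hC
  have he := det_expand (ι := J) (κ := Fin n) (Matrix.of fun i l => A i l) d
    (Matrix.of fun l j => B l j)
  simp only [Matrix.of_apply] at he
  rw [he]
  refine (norm_sum_le _ _).trans ((sum_le_card_nsmul _ _
    (n.factorial * C ^ (2 * n) * ∏ i ∈ I, ‖d i‖) fun φ _ => ?_).trans ?_)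
  · by_cases hφ : Function.Injective φ
    · have h1 : ∏ i : J, ‖d (φ i)‖ ≤ ∏ i ∈ I, ‖d i‖ := by
        have h2 := hmax (univ.image φ) (by
          rw [mem_powersetCard, card_image_of_injective _ hφ]
          simp)
        rwa [prod_image fun a _ b _ h => hφ h] at h2
      have h2 : ∏ i : J, ‖B (φ i) i‖ ≤ C ^ n := by
        calc ∏ i : J, ‖B (φ i) i‖ ≤ ∏ _i : J, C :=
              prod_le_prod (fun _ _ => norm_nonneg _) fun i _ => hB _ _
          _ = C ^ J.card := by simp
          _ ≤ C ^ n := pow_le_pow_right₀ hC hJ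
      have h3 := norm_det_le (C := C)
        ((Matrix.of fun (i : J) l => A i l).submatrix id φ) fun i j => hA _ _
      rw [Fintype.card_coe] at h3
      have h4 : (J.card.factorial : ℝ) * C ^ J.card ≤ n.factorial * C ^ n :=
        mul_le_mul (by exact_mod_cast Nat.factorial_le hJ) (pow_le_pow_right₀ hC hJ)
          (by positivity) (by positivity)
      rw [norm_mul, norm_prod]
      simp only [norm_mul]
      rw [prod_mul_distrib]
      calc _ ≤ ((∏ i ∈ I, ‖d i‖) * C ^ n) * (n.factorial * C ^ n) :=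
            mul_le_mul (mul_le_mul h1 h2 (prod_nonneg fun _ _ => norm_nonneg _) hP) (h3.trans h4)
              (norm_nonneg _) (by positivity)
        _ = _ := by ring
    · rw [Function.Injective] at hφ
      push Not at hφ
      obtain ⟨a, b, h1, h2⟩ := hφ
      rw [Matrix.det_zero_of_column_eq h2 fun k => by simp [h1], mul_zero, norm_zero]
      positivity
  · rw [nsmul_eq_mul, card_univ, Fintype.card_fun, Fintype.card_fin, Fintype.card_coe]
    have h5 : ((n ^ J.card : ℕ) : ℝ) ≤ (n + 1 : ℝ) ^ n := by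
      have : n ^ J.card ≤ (n + 1) ^ n :=
        (Nat.pow_le_pow_left (Nat.le_succ n) _).trans (Nat.pow_le_pow_right (Nat.succ_pos n) hJ)
      exact_mod_cast this
    calc _ ≤ (n + 1 : ℝ) ^ n * (n.factorial * C ^ (2 * n) * ∏ i ∈ I, ‖d i‖) :=
          mul_le_mul_of_nonneg_right h5 (by positivity)
      _ = _ := by ring

lemma log_le {ι : Type} {M : ℝ} (hM : 0 < M) (J I : Finset ι) (u v : ι → K)
    (hu : ∀ i, u i ≠ 0) (hv : ∀ i, v i ≠ 0) (h : ∏ j ∈ J, ‖u j‖ ≤ M * ∏ i ∈ I, ‖v i‖) :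
    ∑ j ∈ J, Real.log ‖u j‖ ≤ ∑ i ∈ I, Real.log ‖v i‖ + Real.log M := by
  have h1 : 0 < ∏ j ∈ J, ‖u j‖ := prod_pos fun i _ => norm_pos_iff.2 (hu i)
  have h2 : 0 < ∏ j ∈ I, ‖v j‖ := prod_pos fun i _ => norm_pos_iff.2 (hv i)
  rw [← Real.log_prod fun i _ => norm_ne_zero_iff.2 (hu i),
    ← Real.log_prod fun i _ => norm_ne_zero_iff.2 (hv i), ← Real.log_mul h2.ne' hM.ne', mul_comm]
  exact Real.log_le_log h1 h

end TRI

open TRI in
theorem stTRI (hM : St_MAJ) : St_TRI := by
  intro K _ n C₀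
  obtain ⟨C, hC, hC₀⟩ : ∃ C : ℝ, 1 ≤ C ∧ C₀ ≤ C := ⟨max 1 C₀, le_max_left _ _, le_max_right _ _⟩
  have hF : (1 : ℝ) ≤ n.factorial := by exact_mod_cast n.factorial_pos
  have hN : (1 : ℝ) ≤ (n + 1 : ℝ) ^ n := one_le_pow₀ (by linarith [n.cast_nonneg (α := ℝ)])
  have hP : (1 : ℝ) ≤ C ^ (2 * n) := one_le_pow₀ hC
  set M : ℝ := (n + 1 : ℝ) ^ n * n.factorial * n.factorial * C ^ (2 * n) with hMdef
  have hM1 : 1 ≤ M := one_le_mul_of_one_le_of_one_le
    (one_le_mul_of_one_le_of_one_le (one_le_mul_of_one_le_of_one_le hN hF) hF) hP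
  have hM0 : 0 < M := zero_lt_one.trans_le hM1
  refine ⟨3 * Real.log M, by linarith [Real.log_nonneg hM1], fun k₁ a k₂ h1 h2 ha ht => ?_⟩
  replace h1 := h1.mono hC₀
  replace h2 := h2.mono hC₀
  obtain ⟨d, hd, rfl⟩ := exists_dg ha
  set h := k₁ * dg d hd * k₂ with hh
  have hdet : h.val.det = ∏ i, h.val i i :=
    Matrix.det_of_isLowerTriangular _ fun i j hij => ht i j hij
  have hne : ∀ i, h.val i i ≠ 0 := fun i hi => by
    have h3 : h.val.det ≠ 0 := (Matrix.isUnits_det_units h).ne_zero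
    exact h3 (hdet.trans (prod_eq_zero (mem_univ i) hi))
  refine hM n _ (Real.log_nonneg hM1) _ _ (fun J => ?_) ?_
  · obtain ⟨I, hI, h3⟩ := minor_le hC k₁.val k₂.val d h1.1 h2.1 J
    refine ⟨I, hI, ?_⟩
    simp only [dv_apply, dg_apply]
    refine log_le hM0 J I (fun i => h.val i i) d hne hd ?_
    have h4 : (Matrix.of fun i j : J => ∑ l, k₁.val i l * d l * k₂.val l j) =
        Matrix.of fun i j : J => h.val i j := by
      ext i j
      simp only [Matrix.of_apply, hh]
      rw [Units.val_mul, Matrix.mul_apply]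
      exact sum_congr rfl fun l _ => by rw [mul_dg_apply]
    have h5 : (Matrix.of fun i j : J => h.val i j).det =
        ∏ i : J, (Matrix.of fun i j : J => h.val i j) i i :=
      Matrix.det_of_isLowerTriangular _ fun i j hij => ht i j hij
    rw [h4, h5, norm_prod] at h3
    simp only [Matrix.of_apply] at h3
    rw [prod_coe_sort J fun i => ‖h.val i i‖] at h3
    refine h3.trans (mul_le_mul_of_nonneg_right ?_ (prod_nonneg fun _ _ => norm_nonneg _))
    rw [hMdef]
    refine mul_le_mul_of_nonneg_right ?_ (by positivity)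
    exact le_mul_of_one_le_right (by positivity) hF
  · simp only [dv_apply, dg_apply]
    refine log_le hM0 univ univ d (fun i => h.val i i) hd hne ?_
    have h3 : dg d hd = k₁⁻¹ * h * k₂⁻¹ := by rw [hh]; group
    have h4 : ∏ i, d i = (k₁⁻¹).val.det * h.val.det * (k₂⁻¹).val.det := by
      rw [← Matrix.det_mul, ← Matrix.det_mul, ← Units.val_mul, ← Units.val_mul, ← h3]
      exact (Matrix.det_diagonal (d := d)).symm
    have h5 := norm_det_le _ h1.2
    have h6 := norm_det_le _ h2.2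
    rw [Fintype.card_fin] at h5 h6
    rw [← norm_prod, h4, ← norm_prod, ← hdet, norm_mul, norm_mul]
    calc _ ≤ (n.factorial * C ^ n) * ‖h.val.det‖ * (n.factorial * C ^ n) :=
          mul_le_mul (mul_le_mul_of_nonneg_right h5 (norm_nonneg _)) h6 (norm_nonneg _)
            (by positivity)
      _ = (1 * n.factorial * n.factorial * C ^ (2 * n)) * ‖h.val.det‖ := by ring
      _ ≤ _ := by
          rw [hMdef]
          gcongr

end Pool.Agent.Lib.SD
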