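import Pool.Agent.Lib.SD.Blue

/-! Coarse Cartan decomposition by complete pivoting. -/

noncomputable section

open Finset Matrix

namespace Pool.Agent.Lib.SD

namespace CAR

variable {K : Type} [NontriviallyNormedField K] {n : ℕ}

/-- A transvection. -/
def el (u v : Fin n → K) (h : v ⬝ᵥ u = 0) : GL (Fin n) K where
  val := 1 - vecMulVec u v
  inv := 1 + vecMulVec u v
  val_inv := by
    rw [sub_mul, mul_add, mul_add, vecMulVec_mul_vecMulVec, h]
    simp
  inv_val := by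
    rw [add_mul, mul_sub, mul_sub, vecMulVec_mul_vecMulVec, h]
    simp

lemma kc_el (u v : Fin n → K) (h : v ⬝ᵥ u = 0) (hu : ∀ i, ‖u i‖ ≤ 1) (hv : ∀ i, ‖v i‖ ≤ 1) :
    Kc 2 (el u v h) := by
  have h1 : ∀ i j, ‖(1 : Matrix (Fin n) (Fin n) K) i j‖ ≤ 1 := kc_one.1
  have h2 : ∀ i j, ‖u i * v j‖ ≤ 1 := fun i j => by
    rw [norm_mul]
    exact mul_le_one₀ (hu i) (norm_nonneg _) (hv j)
  refine ⟨fun i j => ?_, fun i j => ?_⟩
  · change ‖(1 : Matrix (Fin n) (Fin n) K) i j - u i * v j‖ ≤ 2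
    exact (norm_sub_le _ _).trans (by linarith [h1 i j, h2 i j])
  · change ‖(1 : Matrix (Fin n) (Fin n) K) i j + u i * v j‖ ≤ 2
    exact (norm_add_le _ _).trans (by linarith [h1 i j, h2 i j])

lemma mul_el (T : Fin n) (c : Fin n → K) (h : c ⬝ᵥ Pi.single T 1 = 0) (g : GL (Fin n) K)
    (i j : Fin n) : (g * el (Pi.single T 1) c h).val i j = g.val i j - g.val i T * c j := by
  change (g.val * (1 - vecMulVec (Pi.single T 1) c)) i j = _
  rw [mul_sub, mul_one, mul_vecMulVec]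
  simp [vecMulVec_apply]

lemma el_mul (T : Fin n) (d : Fin n → K) (h : Pi.single T 1 ⬝ᵥ d = 0) (g : GL (Fin n) K)
    (i j : Fin n) : (el d (Pi.single T 1) h * g).val i j = g.val i j - d i * g.val T j := by
  change ((1 - vecMulVec d (Pi.single T 1)) * g.val) i j = _
  rw [sub_mul, one_mul, vecMulVec_mul]
  simp [vecMulVec_apply]

/-- The first `t` rows and columns are cleared. -/
def Z (t : ℕ) (h : GL (Fin n) K) : Prop :=
  ∀ i j : Fin n, i ≠ j → (i.val < t ∨ j.val < t) → h.val i j = 0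

lemma clear (T : Fin n) (h : GL (Fin n) K) (hZ : Z T.val h) (h0 : h.val T T ≠ 0)
    (hm : ∀ i j : Fin n, T.val ≤ i.val → T.val ≤ j.val → ‖h.val i j‖ ≤ ‖h.val T T‖) :
    ∃ k₁ k₂ : GL (Fin n) K, Kc 2 k₁ ∧ Kc 2 k₂ ∧ Z (T.val + 1) (k₁ * h * k₂) := by
  have hs : ∀ i, ‖(Pi.single T 1 : Fin n → K) i‖ ≤ 1 := fun i => by
    rw [Pi.single_apply]
    split_ifs <;> simp
  have hp : 0 < ‖h.val T T‖ := norm_pos_iff.2 h0
  refine ⟨el (fun i => if i = T then 0 else h.val i T / h.val T T) (Pi.single T 1) (by simp),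
    el (Pi.single T 1) (fun j => if j = T then 0 else h.val T j / h.val T T) (by simp),
    kc_el _ _ _ (fun i => ?_) hs, kc_el _ _ _ hs fun j => ?_, fun i j hij ht => ?_⟩
  · split_ifs with e
    · simp
    · rw [norm_div, div_le_one hp]
      rcases lt_or_ge i.val T.val with h1 | h1
      · rw [hZ i T e (Or.inl h1), norm_zero]
        exact hp.le
      · exact hm i T h1 le_rfl
  · split_ifs with e
    · simp
    · rw [norm_div, div_le_one hp]
      rcases lt_or_ge j.val T.val with h1 | h1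
      · rw [hZ T j (Ne.symm e) (Or.inr h1), norm_zero]
        exact hp.le
      · exact hm T j le_rfl h1
  · rw [mul_assoc, el_mul, mul_el, mul_el]
    by_cases e : i = T
    · subst e
      simp [hij.symm, mul_div_cancel₀ _ h0]
    by_cases e' : j = T
    · subst e'
      simp [e, h0]
    have e1 : i.val ≠ T.val := fun a => e (Fin.ext a)
    have e2 : j.val ≠ T.val := fun a => e' (Fin.ext a)
    simp only [if_neg e, if_neg e', mul_div_cancel₀ _ h0, sub_self, mul_zero, sub_zero]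
    rcases ht with ht | ht
    · rw [hZ i j hij (Or.inl (by omega)), hZ i T e (Or.inl (by omega))]
      simp
    · rw [hZ i j hij (Or.inr (by omega)), hZ T j (Ne.symm e') (Or.inr (by omega))]
      simp

lemma swap_lt {T r i : Fin n} (hr : T.val ≤ r.val) (hi : i.val < T.val) :
    Equiv.swap T r i = i :=
  Equiv.swap_apply_of_ne_of_ne (fun e => by omega) fun e => by omega

lemma swap_ge {T r i : Fin n} (hr : T.val ≤ r.val) (hi : T.val ≤ i.val) :
    T.val ≤ (Equiv.swap T r i).val := by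
  rw [Equiv.swap_apply_def]
  split_ifs <;> omega

lemma step (T : Fin n) (h : GL (Fin n) K) (hZ : Z T.val h) :
    ∃ k₁ k₂ : GL (Fin n) K, Kc (n * (2 * 1)) k₁ ∧ Kc (n * (1 * 2)) k₂ ∧
      Z (T.val + 1) (k₁ * h * k₂) := by
  obtain ⟨⟨r, s⟩, h1, h2⟩ := exists_max_image
    (univ.filter fun p : Fin n × Fin n => T.val ≤ p.1.val ∧ T.val ≤ p.2.val)
    (fun p => ‖h.val p.1 p.2‖) ⟨(T, T), by simp⟩
  obtain ⟨hr, hs⟩ : T.val ≤ r.val ∧ T.val ≤ s.val := by simpa using h1
  have h3 : ∀ i j : Fin n, T.val ≤ i.val → T.val ≤ j.val → ‖h.val i j‖ ≤ ‖h.val r s‖ :=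
    fun i j hi hj => h2 (i, j) (mem_filter.2 ⟨mem_univ _, hi, hj⟩)
  have h0 : h.val r s ≠ 0 := fun e => by
    have h4 : ∀ j, h.val T j = 0 := fun j => by
      rcases lt_or_ge j.val T.val with h5 | h5
      · exact hZ T j (fun a => by omega) (Or.inr h5)
      · simpa [e] using h3 T j le_rfl h5
    have h5 := congrFun (congrFun h.val_inv T) T
    simp [Matrix.mul_apply, h4] at h5
  have h4 : ∀ i j, (pm (Equiv.swap T r) * h * (pm (Equiv.swap T s))⁻¹).val i j =
      h.val (Equiv.swap T r i) (Equiv.swap T s j) := fun i j => by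
    rw [mul_pm_inv_apply, pm_mul_apply]
  obtain ⟨k₁, k₂, h5, h6, h7⟩ := clear T (pm (Equiv.swap T r) * h * (pm (Equiv.swap T s))⁻¹)
    (fun i j hij ht => by
      rw [h4]
      rcases lt_or_ge i.val T.val with hi | hi <;> rcases lt_or_ge j.val T.val with hj | hj
      · rw [swap_lt hr hi, swap_lt hs hj]
        exact hZ i j hij ht
      · have := swap_ge hs hj
        rw [swap_lt hr hi]
        exact hZ _ _ (fun a => by omega) (Or.inl hi)
      · have := swap_ge hr hi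
        rw [swap_lt hs hj]
        exact hZ _ _ (fun a => by omega) (Or.inr hj)
      · omega)
    (by rwa [h4, Equiv.swap_apply_left, Equiv.swap_apply_left])
    (fun i j hi hj => by
      rw [h4, h4, Equiv.swap_apply_left, Equiv.swap_apply_left]
      exact h3 _ _ (swap_ge hr hi) (swap_ge hs hj))
  refine ⟨k₁ * pm (Equiv.swap T r), (pm (Equiv.swap T s))⁻¹ * k₂, h5.mul (kc_pm _),
    (kc_pm _).inv.mul h6, ?_⟩
  simpa only [mul_assoc] using h7

lemma upto (t : ℕ) (ht : t ≤ n) : ∃ C : ℝ, ∀ g : GL (Fin n) K, ∃ k₁ k₂ : GL (Fin n) K,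
    Kc C k₁ ∧ Kc C k₂ ∧ Z t (k₁ * g * k₂) := by
  induction t with
  | zero => exact ⟨1, fun g => ⟨1, 1, kc_one, kc_one, fun i j _ h => by omega⟩⟩
  | succ t ih =>
    obtain ⟨C, hC⟩ := ih (by omega)
    refine ⟨n * (n * (2 * 1) * C), fun g => ?_⟩
    obtain ⟨k₁, k₂, h1, h2, h3⟩ := hC g
    obtain ⟨l₁, l₂, h4, h5, h6⟩ := step ⟨t, ht⟩ _ h3
    refine ⟨l₁ * k₁, k₂ * l₂, h4.mul h1, (h2.mul h5).mono (le_of_eq (by ring)), ?_⟩
    simpa only [mul_assoc] using h6

end CAR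

open CAR in
theorem stCAR : St_CAR := by
  intro K _ n
  obtain ⟨C, hC⟩ := upto (K := K) n le_rfl
  refine ⟨n * (C * 1), fun g => ?_⟩
  obtain ⟨k₁, k₂, h1, h2, h3⟩ := hC g
  let σ := Tuple.sort fun i => -‖(k₁ * g * k₂).val i i‖
  have h4 : ∀ i j, (pm σ * (k₁ * g * k₂) * (pm σ)⁻¹).val i j = (k₁ * g * k₂).val (σ i) (σ j) :=
    fun i j => by rw [mul_pm_inv_apply, pm_mul_apply]
  refine ⟨k₁⁻¹ * (pm σ)⁻¹, pm σ * (k₁ * g * k₂) * (pm σ)⁻¹, pm σ * k₂⁻¹, h1.inv.mul (kc_pm σ).inv,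
    ((kc_pm σ).mul h2.inv).mono (le_of_eq (by ring)), fun i j hij => ?_, fun i j hij => ?_,
    by group⟩
  · exact (h4 i j).trans (h3 _ _ (σ.injective.ne hij) (Or.inl (σ i).2))
  · rw [h4, h4]
    exact neg_le_neg_iff.1 (Tuple.monotone_sort (fun i => -‖(k₁ * g * k₂).val i i‖) hij)

end Pool.Agent.Lib.SD
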