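import Pool.Agent.Lib.SD.Blue

/-! Markov chains with prescribed laws of consecutive pairs. -/

noncomputable section

open Finset
open scoped Classical

namespace Pool.Agent.Lib.SD.CHb

open Pool.Agent.Lib.U4

variable {Ω Ω' α : Type} [Fintype Ω] [Fintype Ω']

lemma pr_law {Q : FP Ω'} {U : Ω' → α} {P : FP Ω} {V : Ω → α} (h : Law Q U P V) (x : α) :
    Q.pr U x = P.pr V x := by
  rw [E2.pr_eq_E, E2.pr_eq_E]
  exact h fun y => if y = x then 1 else 0

lemma fib (P : FP Ω) (V : Ω → α) (x : α) (h : P.pr V x ≠ 0) :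
    ∑ b, (if V b = x then P.w b / P.pr V x else 0) = 1 := by
  rw [← div_self h]
  conv_rhs => enter [1]; unfold FP.pr
  rw [sum_div]
  refine sum_congr rfl fun b _ => ?_
  split_ifs <;> simp

/-- The weight of the glued law. -/
def gw (Q : FP Ω') (U : Ω' → α) (P : FP Ω) (V : Ω → α) (z : Ω' × Ω) : ℝ :=
  if V z.2 = U z.1 then Q.w z.1 * P.w z.2 / P.pr V (U z.1) else 0

lemma sum_snd {Q : FP Ω'} {U : Ω' → α} {P : FP Ω} {V : Ω → α} (h : Law Q U P V) (a : Ω') :
    ∑ b, gw Q U P V (a, b) = Q.w a := by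
  rcases (Q.nn a).eq_or_lt with e | e
  · simp [gw, ← e]
  · have h1 := fib P V (U a) (by rw [← pr_law h]; exact (E2.pr_pos Q U a e).ne')
    rw [← mul_one (Q.w a), ← h1, mul_sum]
    refine sum_congr rfl fun b _ => ?_
    unfold gw
    split_ifs <;> simp [mul_div_assoc]

lemma sum_fst {Q : FP Ω'} {U : Ω' → α} {P : FP Ω} {V : Ω → α} (h : Law Q U P V) (b : Ω) :
    ∑ a, gw Q U P V (a, b) = P.w b := by
  rcases (P.nn b).eq_or_lt with e | e
  · simp [gw, ← e]
  · have h1 := fib Q U (V b) (by rw [pr_law h]; exact (E2.pr_pos P V b e).ne')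
    rw [← mul_one (P.w b), ← h1, mul_sum]
    refine sum_congr rfl fun a _ => ?_
    unfold gw
    by_cases e' : V b = U a
    · rw [if_pos e', if_pos e'.symm, pr_law h, e']; ring
    · rw [if_neg e', if_neg (Ne.symm e'), mul_zero]

/-- Gluing two laws along a common marginal. -/
def glue {Q : FP Ω'} {U : Ω' → α} {P : FP Ω} {V : Ω → α} (h : Law Q U P V) : FP (Ω' × Ω) where
  w := gw Q U P V
  nn z := by
    have := Q.nn z.1; have := P.nn z.2; have := P.pr_nonneg V (U z.1)
    unfold gw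
    split_ifs <;> positivity
  tot := by
    rw [Fintype.sum_prod_type]
    simp only [sum_snd h, Q.tot]

variable {Q : FP Ω'} {U : Ω' → α} {P : FP Ω} {V : Ω → α}

lemma E_fst (h : Law Q U P V) (f : Ω' → ℝ) : ((glue h).E fun z => f z.1) = Q.E f := by
  unfold FP.E
  rw [Fintype.sum_prod_type]
  refine sum_congr rfl fun a _ => ?_
  rw [← sum_snd h a, sum_mul]
  rfl

lemma E_snd (h : Law Q U P V) (f : Ω → ℝ) : ((glue h).E fun z => f z.2) = P.E f := by
  unfold FP.E
  rw [Fintype.sum_prod_type, sum_comm]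
  refine sum_congr rfl fun b _ => ?_
  rw [← sum_fst h b, sum_mul]
  rfl

lemma supp (h : Law Q U P V) {z : Ω' × Ω} (hz : 0 < (glue h).w z) :
    V z.2 = U z.1 ∧ 0 < Q.w z.1 ∧ 0 < P.w z.2 := by
  have h1 : 0 < gw Q U P V z := hz
  unfold gw at h1
  split_ifs at h1 with e
  · refine ⟨e, (Q.nn _).lt_of_ne fun e' => ?_, (P.nn _).lt_of_ne fun e' => ?_⟩ <;>
      simp [← e'] at h1
  · exact absurd h1 (lt_irrefl _)

lemma H_glue {β γ : Type} (h : Law Q U P V) (T : Ω' → β) (W : Ω → γ)
    (hT : ∀ a a', T a = T a' → U a = U a') :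
    Q.H T + ((P.H fun b => (V b, W b)) - P.H V) ≤ (glue h).H fun z => (T z.1, W z.2) := by
  unfold FP.H
  rw [← E2.E_sub, ← E_fst h, ← E_snd h]
  have e0 : ∀ f g : Ω' × Ω → ℝ, (glue h).E f + (glue h).E g = (glue h).E fun z => f z + g z :=
    fun f g => by simp only [FP.E, mul_add, sum_add_distrib]
  rw [e0]
  refine E2.E_mono _ _ _ fun z hz => ?_
  obtain ⟨e1, e2, e3⟩ := supp h hz
  have p1 := E2.pr_pos Q T _ e2
  have p2 := E2.pr_pos P (fun b => (V b, W b)) _ e3
  have p3 := E2.pr_pos P V _ e3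
  have p4 := E2.pr_pos (glue h) (fun z => (T z.1, W z.2)) z hz
  have key : (glue h).pr (fun z => (T z.1, W z.2)) (T z.1, W z.2) ≤
      Q.pr T (T z.1) * P.pr (fun b => (V b, W b)) (V z.2, W z.2) / P.pr V (V z.2) := by
    conv_rhs => enter [1]; unfold FP.pr
    unfold FP.pr
    rw [Fintype.sum_prod_type, sum_mul_sum, sum_div]
    refine sum_le_sum fun a _ => ?_
    rw [sum_div]
    refine sum_le_sum fun b _ => ?_
    have := Q.nn a; have := P.nn b
    by_cases c1 : (T a, W b) = (T z.1, W z.2)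
    · obtain ⟨c2, c3⟩ := Prod.mk.inj c1
      have c4 := hT _ _ c2
      rw [if_pos c1, if_pos c2]
      change gw Q U P V (a, b) ≤ _
      unfold gw
      by_cases c5 : V b = U a
      · rw [if_pos c5, if_pos (Prod.ext (c5.trans (c4.trans e1.symm)) c3), c4, e1]
        exact le_rfl
      · rw [if_neg c5]
        refine div_nonneg (mul_nonneg ‹_› ?_) p3.le
        split_ifs <;> simp [*]
    · rw [if_neg c1]
      refine div_nonneg (mul_nonneg ?_ ?_) p3.le <;> split_ifs <;> simp [*]
  have k2 := Real.log_le_log p4 key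
  rw [Real.log_div (mul_pos p1 p2).ne' p3.ne', Real.log_mul p1.ne' p2.ne'] at k2
  linarith

theorem chain : St_CHAIN := by
  intro Ω α _ P V N
  induction N with
  | zero =>
    refine ⟨Ω, inferInstance, P, V, fun _ => rfl, fun _ => rfl, fun j hj => absurd hj (by omega), ?_⟩
    rw [range_zero, sum_empty, add_zero]
    exact E1.H_mono P _ _ fun a b _ _ e => congrFun e 0
  | succ N ih =>
    obtain ⟨Ω', _, Q, p, h0, h1, h2, h3⟩ := ih
    refine ⟨Ω' × Ω, inferInstance, glue h1, fun j z => if j ≤ N then p j z.1 else V (N + 1) z.2,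
      fun φ => ?_, fun φ => ?_, fun j hj φ => ?_, ?_⟩
    · simp only [if_pos (Nat.zero_le N)]
      rw [E_fst h1 fun a => φ (p 0 a)]
      exact h0 φ
    · simp only [if_neg (Nat.not_succ_le_self N)]
      exact E_snd h1 fun a => φ (V (N + 1) a)
    · rcases (Nat.lt_succ_iff.1 hj).eq_or_lt with rfl | e
      · simp only [if_neg (Nat.not_succ_le_self j), if_pos (le_refl j)]
        rw [← E_snd h1 fun a => φ (V j a, V (j + 1) a)]
        exact E2.E_congr _ _ _ fun z hz => by rw [(supp h1 hz).1]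
      · simp only [if_pos e.le, if_pos (Nat.succ_le_of_lt e)]
        rw [E_fst h1 fun a => φ (p j a, p (j + 1) a)]
        exact h2 j e φ
    · rw [sum_range_succ, ← add_assoc]
      refine le_trans (add_le_add h3 le_rfl) ((H_glue h1 (tup p N) (V (N + 1))
        fun a a' e => congrFun e (Fin.last N)).trans (E1.H_mono _ _ _ fun a b _ _ e => ?_))
      refine Prod.ext (funext fun j => ?_) ?_
      · have := congrFun e j.castSucc
        simpa only [tup, Fin.val_castSucc, if_pos (Nat.lt_succ_iff.1 j.2)] using this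
      · have := congrFun e (Fin.last (N + 1))
        simpa only [tup, Fin.val_last, if_neg (Nat.not_succ_le_self N)] using this

end Pool.Agent.Lib.SD.CHb
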