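import Pool.Agent.Lib.SD.Blue

/-! Block CN: the midpoint inequality. -/

noncomputable section

open Finset

namespace Pool.Agent.Lib.SD

namespace CN

variable {K : Type} [NontriviallyNormedField K] {n : ℕ}

/-- Permuting coordinates. -/
def pv (σ : Equiv.Perm (Fin n)) (x : EuclideanSpace ℝ (Fin n)) : EuclideanSpace ℝ (Fin n) :=
  WithLp.toLp 2 fun i => x (σ i)

@[simp] lemma pv_apply (σ : Equiv.Perm (Fin n)) (x : EuclideanSpace ℝ (Fin n)) (i : Fin n) :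
    pv σ x i = x (σ i) := rfl

lemma norm_pv (σ : Equiv.Perm (Fin n)) (x : EuclideanSpace ℝ (Fin n)) : ‖pv σ x‖ = ‖x‖ := by
  rw [EuclideanSpace.norm_eq, EuclideanSpace.norm_eq]
  exact congrArg _ (Equiv.sum_comp σ fun i => ‖x i‖ ^ 2)

lemma diag_ne {L : GL (Fin n) K} (hL : ∀ i j, i < j → L.val i j = 0) (i : Fin n) :
    L.val i i ≠ 0 := by
  have h1 : L.val.det = ∏ i, L.val i i :=
    Matrix.det_of_isLowerTriangular L.val fun i j h => hL i j h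
  have h2 : L.val.det ≠ 0 := (Matrix.isUnits_det_units L).ne_zero
  rw [h1] at h2
  exact prod_ne_zero_iff.1 h2 i (mem_univ i)

lemma ent_conj {C : ℝ} (a : Fin n → K) (ha : ∀ i, a i ≠ 0) (hs : ∀ i j, i ≤ j → ‖a j‖ ≤ ‖a i‖)
    {W : GL (Fin n) K} (hW : ∀ i j, ‖W.val i j‖ ≤ C) (hU : ∀ i j, j < i → W.val i j = 0)
    (i j : Fin n) : ‖((dg a ha)⁻¹ * W * dg a ha).val i j‖ ≤ C := by
  rw [mul_dg_apply, dg_inv, dg_mul_apply]
  rcases lt_or_ge j i with h | h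
  · rw [hU i j h, mul_zero, zero_mul, norm_zero]
    exact (norm_nonneg _).trans (hW i j)
  · have h1 : 0 < ‖a i‖ := norm_pos_iff.2 (ha i)
    rw [norm_mul, norm_mul, norm_inv, mul_right_comm]
    have h2 : ‖a i‖⁻¹ * ‖a j‖ ≤ 1 := by
      rw [inv_mul_le_iff₀ h1, mul_one]
      exact hs i j h
    exact (mul_le_of_le_one_left (norm_nonneg _) h2).trans (hW i j)

lemma kc_conj {C : ℝ} (a : Fin n → K) (ha : ∀ i, a i ≠ 0) (hs : ∀ i j, i ≤ j → ‖a j‖ ≤ ‖a i‖)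
    {W : GL (Fin n) K} (hW : Kc C W) (hU : ∀ i j, j < i → W.val i j = 0)
    (hU' : ∀ i j, j < i → (W⁻¹).val i j = 0) : Kc C ((dg a ha)⁻¹ * W * dg a ha) := by
  refine ⟨ent_conj a ha hs hW.1 hU, fun i j => ?_⟩
  have h : ((dg a ha)⁻¹ * W * dg a ha)⁻¹ = (dg a ha)⁻¹ * W⁻¹ * dg a ha := by group
  rw [h]
  exact ent_conj a ha hs hW.2 hU' i j

lemma pm_mul_dg (σ : Equiv.Perm (Fin n)) (b : Fin n → K) (hb : ∀ i, b i ≠ 0) :
    pm σ * dg b hb = dg (fun i => b (σ i)) (fun i => hb (σ i)) * pm σ := by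
  refine Units.ext (Matrix.ext fun i j => ?_)
  rw [mul_dg_apply, dg_mul_apply]
  change (if σ i = j then (1 : K) else 0) * b j = b (σ i) * if σ i = j then (1 : K) else 0
  split_ifs with h
  · rw [h, one_mul, mul_one]
  · rw [zero_mul, mul_zero]

lemma dv_inv {b : GL (Fin n) K} (hb : b.val.IsDiag) : dv b⁻¹ = -dv b := by
  obtain ⟨d, hd, rfl⟩ := exists_dg hb
  ext i
  rw [dg_inv, PiLp.neg_apply, dv_apply, dv_apply, dg_apply, dg_apply, norm_inv, Real.log_inv]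

lemma isDiag_inv {b : GL (Fin n) K} (hb : b.val.IsDiag) : (b⁻¹).val.IsDiag := by
  obtain ⟨d, hd, rfl⟩ := exists_dg hb
  rw [dg_inv]
  exact dg_isDiag _ _

lemma isDiag_sq {b : GL (Fin n) K} (hb : b.val.IsDiag) : (b * b).val.IsDiag := by
  obtain ⟨d, hd, rfl⟩ := exists_dg hb
  rw [dg_mul]
  exact dg_isDiag _ _

lemma dv_sq {b : GL (Fin n) K} (hb : b.val.IsDiag) : dv (b * b) = dv b + dv b := by
  obtain ⟨d, hd, rfl⟩ := exists_dg hb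
  ext i
  rw [dg_mul, PiLp.add_apply, dv_apply, dv_apply, dg_apply, dg_apply, norm_mul,
    Real.log_mul (norm_ne_zero_iff.2 (hd i)) (norm_ne_zero_iff.2 (hd i))]

lemma dv_one : dv (1 : GL (Fin n) K) = 0 := by
  ext i
  simp

lemma mat (hC : St_CAR) (hP : St_PLU) (K : Type) [NontriviallyNormedField K] (n : ℕ)
    (dd : GL (Fin n) K → ℝ) (hd : IsDD dd) :
    ∃ c : ℝ, 0 ≤ c ∧ ∀ g : GL (Fin n) K, ∃ v : EuclideanSpace ℝ (Fin n),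
      dd g ≤ ‖v‖ + c ∧ ∀ b : GL (Fin n) K, b.val.IsDiag → ‖v + dv b‖ ≤ dd (b * g) + c := by
  obtain ⟨C, hC⟩ := hC K n
  obtain ⟨C', hP⟩ := hP K n C
  obtain ⟨c₁, p₁, h₁⟩ := hd.val (max (max C 1) (n * (1 * (n * (C * C')))))
  obtain ⟨c₂, p₂, h₂⟩ := hd.inv (max 1 (n * (C' * C)))
  obtain ⟨c₃, p₃, h₃⟩ := hd.low
  refine ⟨c₁ + c₂ + 2 * c₃, by positivity, fun g => ?_⟩
  obtain ⟨k₁, a, k₂, hk₁, hk₂, ha, hs, rfl⟩ := hC g
  obtain ⟨σ, U, hU, u1, u2, u3⟩ := hP k₁ hk₁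
  obtain ⟨a, ha0, rfl⟩ := exists_dg ha
  simp only [dg_apply] at hs
  have e1 := h₁ k₁ (dg a ha0) k₂ (hk₁.mono (by simp)) (hk₂.mono (by simp)) ha
  refine ⟨pv σ⁻¹ (dv (dg a ha0)), ?_, fun b hb => ?_⟩
  · rw [norm_pv]
    linarith [(abs_le.1 e1).2]
  obtain ⟨b, hb0, rfl⟩ := exists_dg hb
  set L : GL (Fin n) K := pm σ * (k₁ * U) with hL
  have l1 : ∀ i j, i < j → L.val i j = 0 := fun i j h => by
    rw [hL, pm_mul_apply]
    exact u3 i j h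
  have l2 : Kc (n * (1 * (n * (C * C')))) L := (kc_pm σ).mul (hk₁.mul hU)
  have l3 : ‖dv L‖ ≤ c₁ + c₃ := by
    have e2 := h₁ L 1 1 (l2.mono (le_max_right _ _)) (kc_one.mono (by simp)) Matrix.isDiag_one
    rw [mul_one, mul_one, dv_one, norm_zero, sub_zero] at e2
    linarith [(abs_le.1 e2).2, h₃ L l1]
  set h : GL (Fin n) K := dg (fun i => b (σ i)) (fun i => hb0 (σ i)) * L * dg a ha0 with hh
  have g1 : ∀ i j, h.val i j = b (σ i) * L.val i j * a j := fun i j => by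
    rw [hh, mul_dg_apply, dg_mul_apply]
  have g2 : ‖dv h‖ ≤ dd h + c₃ := h₃ h fun i j hij => by
    rw [g1, l1 i j hij, mul_zero, zero_mul]
  have g3 : pv σ (pv σ⁻¹ (dv (dg a ha0)) + dv (dg b hb0)) = dv h - dv L := by
    ext i
    have n1 := norm_ne_zero_iff.2 (hb0 (σ i))
    have n2 := norm_ne_zero_iff.2 (diag_ne l1 i)
    have n3 := norm_ne_zero_iff.2 (ha0 i)
    rw [pv_apply, PiLp.add_apply, pv_apply, PiLp.sub_apply, dv_apply, dv_apply, dv_apply,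
      dv_apply, g1, dg_apply, dg_apply, norm_mul, norm_mul, Real.log_mul (mul_ne_zero n1 n2) n3,
      Real.log_mul n1 n2, Equiv.Perm.inv_def, Equiv.symm_apply_apply]
    ring
  have g4 : dg b hb0 * (k₁ * dg a ha0 * k₂) =
      (pm σ)⁻¹ * h * ((dg a ha0)⁻¹ * U⁻¹ * dg a ha0 * k₂) := by
    have e3 : dg (fun i => b (σ i)) (fun i => hb0 (σ i)) = pm σ * dg b hb0 * (pm σ)⁻¹ := by
      rw [pm_mul_dg, mul_inv_cancel_right]
    rw [hh, e3, hL]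
    group
  have g5 := h₂ (pm σ)⁻¹ h ((dg a ha0)⁻¹ * U⁻¹ * dg a ha0 * k₂)
    ((kc_pm σ).inv.mono (le_max_left _ _))
    (((kc_conj a ha0 hs hU.inv u2 (by rw [inv_inv]; exact u1)).mul hk₂).mono (le_max_right _ _))
  rw [← norm_pv σ, g3, g4]
  linarith [norm_sub_le (dv h) (dv L), (abs_le.1 g5).1]

lemma arith {x y V B e D G P Q : ℝ} (he : 0 ≤ e) (hD0 : 0 ≤ D) (hG0 : 0 ≤ G) (hx : 0 ≤ x)
    (hy : 0 ≤ y) (h1 : x ^ 2 + y ^ 2 = 2 * (V ^ 2 + B ^ 2)) (h2 : V + B ≤ x + y)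
    (hD : D ≤ V + e) (hG : G ≤ 2 * (B + e)) (hP : x ≤ P + e) (hQ : y ≤ Q + e) :
    2 * D ^ 2 + G ^ 2 / 4 ≤ (P + 3 * e) ^ 2 + (Q + 3 * e) ^ 2 := by
  have a1 : D ^ 2 ≤ (V + e) ^ 2 := pow_le_pow_left₀ hD0 hD 2
  have a2 : G ^ 2 ≤ (2 * (B + e)) ^ 2 := pow_le_pow_left₀ hG0 hG 2
  have a3 : (x + 2 * e) ^ 2 ≤ (P + 3 * e) ^ 2 := pow_le_pow_left₀ (by positivity) (by linarith) 2
  have a4 : (y + 2 * e) ^ 2 ≤ (Q + 3 * e) ^ 2 := pow_le_pow_left₀ (by positivity) (by linarith) 2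
  have a5 : e * (V + B) ≤ e * (x + y) := mul_le_mul_of_nonneg_left h2 he
  nlinarith [sq_nonneg (B + e), sq_nonneg e]

end CN

open CN in
/-- Block CN. -/
theorem stCN (hC : St_CAR) (hP : St_PLU) : St_CN := by
  have hm : ∀ (K : Type) [NontriviallyNormedField K] (n : ℕ) (dd : GL (Fin n) K → ℝ), IsDD dd →
      ∃ c : ℝ, 0 ≤ c ∧ ∀ g b : GL (Fin n) K, b.val.IsDiag → ∃ v : EuclideanSpace ℝ (Fin n),
        dd g ≤ ‖v‖ + c ∧ ‖v + dv b‖ ≤ dd (b * g) + c ∧ ‖v - dv b‖ ≤ dd (b⁻¹ * g) + c := by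
    intro K _ n dd hd
    obtain ⟨c, h0, h1⟩ := mat hC hP K n dd hd
    refine ⟨c, h0, fun g b hb => ?_⟩
    obtain ⟨v, h2, h3⟩ := h1 g
    refine ⟨v, h2, h3 b hb, ?_⟩
    rw [sub_eq_add_neg, ← dv_inv hb]
    exact h3 _ (isDiag_inv hb)
  refine ⟨hm, fun K _ n dd hd Γ _ ρ hρ => ?_⟩
  obtain ⟨C, hρ⟩ := hρ
  obtain ⟨c, p₀, h₀⟩ := hm K n dd hd
  obtain ⟨c₁, p₁, h₁⟩ := hd.val C
  obtain ⟨c₂, p₂, h₂⟩ := hd.inv (max C 1)
  refine ⟨3 * (c + c₁ + c₂), by positivity, fun γ => ?_⟩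
  obtain ⟨k₁, b, k₂, m, hk₁, hk₂, hb, e, hm'⟩ := hρ γ
  refine ⟨m, fun p => ?_⟩
  obtain ⟨g, rfl⟩ : ∃ g, p = k₁ * b * g := ⟨(k₁ * b)⁻¹ * p, by group⟩
  obtain ⟨v, v1, v2, v3⟩ := h₀ g b hb
  have o : Kc (max C 1) (1 : GL (Fin n) K) := kc_one.mono (le_max_right _ _)
  have e1 := h₂ k₁ (b * g) 1 (hk₁.mono (le_max_left _ _)) o
  have e2 := h₂ k₂⁻¹ (b⁻¹ * g) 1 (hk₂.inv.mono (le_max_left _ _)) o
  have e3 := h₂ _ g 1 (hm'.mono (le_max_left _ _)) o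
  have e4 := h₁ k₁ (b * b) k₂ hk₁ hk₂ (isDiag_sq hb)
  have f1 : k₁ * (b * g) * 1 = k₁ * b * g := by group
  have f2 : k₂⁻¹ * (b⁻¹ * g) * 1 = (ρ γ)⁻¹ * (k₁ * b * g) := by
    rw [e]
    group
  have f3 : (ρ m)⁻¹ * (k₁ * b) * g * 1 = (ρ m)⁻¹ * (k₁ * b * g) := by group
  have f4 : k₁ * (b * b) * k₂ = ρ γ := by
    rw [e]
    group
  rw [f1] at e1
  rw [f2] at e2
  rw [f3] at e3
  rw [f4, dv_sq hb] at e4
  have t1 : 2 * ‖v‖ ≤ ‖v + dv b‖ + ‖v - dv b‖ := by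
    have h := norm_add_le (v + dv b) (v - dv b)
    rwa [add_add_sub_cancel, ← two_smul ℝ v, norm_smul, Real.norm_two] at h
  have t2 : 2 * ‖dv b‖ ≤ ‖v + dv b‖ + ‖v - dv b‖ := by
    have h := norm_sub_le (v + dv b) (v - dv b)
    rwa [add_sub_sub_cancel, ← two_smul ℝ (dv b), norm_smul, Real.norm_two] at h
  refine arith (x := ‖v + dv b‖) (y := ‖v - dv b‖) (V := ‖v‖) (B := ‖dv b‖) (by positivity)
    (hd.nn _) (hd.nn _) (norm_nonneg _) (norm_nonneg _) (parallelogram_law_with_norm ℝ v (dv b))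
    (by linarith) ?_ ?_ ?_ ?_
  · linarith [(abs_le.1 e3).2]
  · linarith [(abs_le.1 e4).2, norm_add_le (dv b) (dv b)]
  · linarith [(abs_le.1 e1).1]
  · linarith [(abs_le.1 e2).1]

end Pool.Agent.Lib.SD
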