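import Pool.Agent.Lib.SD.Blue

/-! The coarse distance on the general linear group. -/

noncomputable section

open Finset

namespace Pool.Agent.Lib.SD

namespace DD

variable {K : Type} [NontriviallyNormedField K] {n : ℕ}

lemma low_of_diag {a : GL (Fin n) K} (ha : a.val.IsDiag) (i j : Fin n) (h : i < j) :
    a.val i j = 0 := ha h.ne

lemma abs_log_le {a : GL (Fin n) K} (ha : a.val.IsDiag) {s : ℝ} (h : Kc (Real.exp s) a)
    (i : Fin n) : |dv a i| ≤ s := by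
  obtain ⟨d, hd, rfl⟩ := exists_dg ha
  have h1 := h.1 i i
  have h2 := h.2 i i
  rw [dg_inv, dg_apply, norm_inv] at h2
  rw [dg_apply] at h1
  have h3 := norm_pos_iff.2 (hd i)
  rw [dv_apply, dg_apply, abs_le, Real.log_le_iff_le_exp h3, neg_le, ← Real.log_inv,
    Real.log_le_iff_le_exp (inv_pos.2 h3)]
  exact ⟨h2, h1⟩

lemma kc_of_diag {a : GL (Fin n) K} (ha : a.val.IsDiag) : Kc (Real.exp ‖dv a‖) a := by
  have h := fun i => abs_le.1 ((Real.norm_eq_abs _).symm.trans_le (PiLp.norm_apply_le (dv a) i))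
  obtain ⟨d, hd, rfl⟩ := exists_dg ha
  simp only [dv_apply, dg_apply] at h
  refine kc_dg d hd (fun i => ?_) fun i => ?_
  · exact (Real.log_le_iff_le_exp (norm_pos_iff.2 (hd i))).1 (h i).2
  · refine (Real.log_le_iff_le_exp (inv_pos.2 (norm_pos_iff.2 (hd i)))).1 ?_
    rw [Real.log_inv, neg_le]
    exact (h i).1

lemma norm_le {v : EuclideanSpace ℝ (Fin n)} {s : ℝ} (hs : 0 ≤ s) (h : ∀ i, |v i| ≤ s) :
    ‖v‖ ≤ (n + 1) * s := by
  rw [EuclideanSpace.norm_eq, Real.sqrt_le_iff]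
  refine ⟨by positivity, (sum_le_card_nsmul _ _ (s ^ 2) fun i _ => ?_).trans ?_⟩
  · exact pow_le_pow_left₀ (norm_nonneg _) (h i) 2
  · rw [card_univ, Fintype.card_fin, nsmul_eq_mul, mul_pow]
    have : (0 : ℝ) ≤ n := Nat.cast_nonneg n
    exact mul_le_mul_of_nonneg_right (by nlinarith) (sq_nonneg s)

/-- A product of three factors, the outer ones bounded. -/
lemma kc3 (n : ℕ) (A : ℝ) : ∃ c : ℝ, 0 ≤ c ∧ ∀ (k₁ g k₂ : GL (Fin n) K) (t : ℝ), Kc A k₁ →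
    Kc A k₂ → Kc (Real.exp t) g → Kc (Real.exp (t + c)) (k₁ * g * k₂) := by
  refine ⟨n * n * (A * A), mul_nonneg (by positivity) (mul_self_nonneg A),
    fun k₁ g k₂ t h1 h2 h => ((h1.mul h).mul h2).mono ?_⟩
  rw [Real.exp_add, show n * (n * (A * Real.exp t) * A) = Real.exp t * (n * n * (A * A)) by ring]
  exact mul_le_mul_of_nonneg_left ((le_add_of_nonneg_right zero_le_one).trans
    (Real.add_one_le_exp _)) (Real.exp_pos t).le

lemma comp (hT : St_TRI) (n : ℕ) (A B : ℝ) : ∃ c : ℝ, 0 ≤ c ∧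
    ∀ k₁ a k₂ l₁ h l₂ : GL (Fin n) K, Kc A k₁ → Kc A k₂ → Kc B l₁ → Kc B l₂ → a.val.IsDiag →
      (∀ i j, i < j → h.val i j = 0) → k₁ * a * k₂ = l₁ * h * l₂ → ‖dv h‖ ≤ ‖dv a‖ + c := by
  obtain ⟨c, h0, hc⟩ := hT K n (n * (A * B))
  refine ⟨c, h0, fun k₁ a k₂ l₁ h l₂ h1 h2 h3 h4 ha hh e => ?_⟩
  have e' : l₁⁻¹ * k₁ * a * (k₂ * l₂⁻¹) = h := by
    rw [← mul_assoc, mul_assoc l₁⁻¹, mul_assoc l₁⁻¹, e]
    group
  have := hc (l₁⁻¹ * k₁) a (k₂ * l₂⁻¹) (mul_comm B A ▸ h3.inv.mul h1) (h2.mul h4.inv) ha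
    (e'.symm ▸ hh)
  rwa [e'] at this

end DD

open DD in
theorem stDD (hC : St_CAR) (hT : St_TRI) : St_DD := by
  intro K _ n
  obtain ⟨C₀, h₀⟩ := hC K n
  choose k₁ a k₂ h1 h2 ha _ e using h₀
  have val : ∀ C : ℝ, ∃ c : ℝ, 0 ≤ c ∧ ∀ l₁ b l₂ : GL (Fin n) K, Kc C l₁ → Kc C l₂ →
      b.val.IsDiag → |‖dv (a (l₁ * b * l₂))‖ - ‖dv b‖| ≤ c := by
    intro C
    obtain ⟨c, c0, hc⟩ := comp (K := K) hT n C C₀
    obtain ⟨c', c0', hc'⟩ := comp (K := K) hT n C₀ C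
    refine ⟨c + c', by positivity, fun l₁ b l₂ h3 h4 hb => abs_le.2 ⟨?_, ?_⟩⟩
    · linarith [hc' _ _ _ l₁ b l₂ (h1 _) (h2 _) h3 h4 (ha _) (low_of_diag hb) (e _).symm]
    · linarith [hc l₁ b l₂ _ _ _ h3 h4 (h1 _) (h2 _) hb (low_of_diag (ha _)) (e _)]
  obtain ⟨c₀, c0, hc₀⟩ := kc3 (K := K) n C₀
  refine ⟨fun g => ‖dv (a g)‖, fun g => norm_nonneg _, val, fun C => ?_, ?_, ?_, ?_⟩
  · obtain ⟨c, h3, hc⟩ := val (n * (C * C₀))
    refine ⟨c, h3, fun l₁ g l₂ h4 h5 => ?_⟩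
    have := hc (l₁ * k₁ g) (a g) (k₂ g * l₂) (h4.mul (h1 g)) (mul_comm C₀ C ▸ (h2 g).mul h5) (ha g)
    rwa [show l₁ * k₁ g * a g * (k₂ g * l₂) = l₁ * (k₁ g * a g * k₂ g) * l₂ by group, ← e g] at this
  · obtain ⟨c, h3, hc⟩ := comp (K := K) hT n C₀ 1
    exact ⟨c, h3, fun h hh => hc _ _ _ 1 h 1 (h1 h) (h2 h) kc_one kc_one (ha h) hh
      (by rw [← e h, one_mul, mul_one])⟩
  · refine ⟨(n + 1) * (c₀ + 1), by positivity, fun g t ht hg => ?_⟩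
    have h3 := hc₀ _ g _ t (h1 g).inv (h2 g).inv hg
    rw [show (k₁ g)⁻¹ * g * (k₂ g)⁻¹ = a g by
      conv_lhs => rw [show g = k₁ g * a g * k₂ g from e g]
      rw [← e g]
      nth_rewrite 2 [e g]
      group] at h3
    refine (norm_le (by positivity) (abs_log_le (ha g) h3)).trans ?_
    rw [mul_assoc]
    exact mul_le_mul_of_nonneg_left (by nlinarith) (by positivity)
  · refine ⟨c₀, c0, fun g => ?_⟩
    have h3 := hc₀ _ _ _ _ (h1 g) (h2 g) (kc_of_diag (ha g))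
    rwa [← e g] at h3

end Pool.Agent.Lib.SD
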