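import Pool.Agent.Lib.SD.Blue

/-! Block ENT: laws, the Gibbs inequality, chain submodularity. -/

noncomputable section

open Finset
open scoped Classical

namespace Pool.Agent.Lib.SD

open Pool.Agent.Lib.U4

namespace ENT

variable {Ω Ω' α β : Type} [Fintype Ω] [Fintype Ω']

lemma pr_eq (Q : FP Ω') (U : Ω' → α) (P : FP Ω) (V : Ω → α) (h : Law Q U P V) (ψ : α → β)
    (y : β) : Q.pr (fun a => ψ (U a)) y = P.pr (fun a => ψ (V a)) y := by
  rw [E2.pr_eq_E, E2.pr_eq_E]
  exact h fun x => if ψ x = y then 1 else 0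

lemma lawH (Q : FP Ω') (U : Ω' → α) (P : FP Ω) (V : Ω → α) (h : Law Q U P V) (ψ : α → β) :
    (Q.H fun a => ψ (U a)) = P.H fun a => ψ (V a) := by
  unfold FP.H
  simp only [pr_eq Q U P V h ψ]
  exact h fun x => -Real.log (P.pr (fun a => ψ (V a)) (ψ x))

lemma lawS (Q : FP Ω') (U : Ω' → α) (P : FP Ω) (V : Ω → α) (h : Law Q U P V) (R : α → Prop)
    (hR : ∀ a, 0 < P.w a → R (V a)) (a : Ω') (ha : 0 < Q.w a) : R (U a) := by
  by_contra hn
  have h1 := h fun x => if R x then 0 else 1
  have h2 : (P.E fun a => if R (V a) then (0 : ℝ) else 1) = 0 :=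
    (E2.E_congr P _ (fun _ => 0) fun b hb => if_pos (hR b hb)).trans (E2.E_const P 0)
  have h3 : Q.w a * (if R (U a) then (0 : ℝ) else 1) ≤ Q.E fun a => if R (U a) then 0 else 1 :=
    single_le_sum (f := fun a => Q.w a * (if R (U a) then (0 : ℝ) else 1))
      (fun b _ => mul_nonneg (Q.nn b) (by split_ifs <;> norm_num)) (mem_univ a)
  rw [if_neg hn, mul_one, h1, h2] at h3
  exact absurd ha (not_lt.2 h3)

lemma gib (P : FP Ω) (X : Ω → α) (q : α → ℝ) (h0 : ∀ x, 0 ≤ q x)
    (h1 : ∀ a, 0 < P.w a → 0 < q (X a)) (h2 : ∀ F : Finset α, ∑ x ∈ F, q x ≤ 1) :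
    P.H X ≤ P.E fun a => -Real.log (q (X a)) := by
  have h3 : (P.E fun a => q (X a) / P.pr X (X a)) ≤ 1 := by
    calc _ = ∑ a, ∑ x ∈ univ.image X, q x * (if X a = x then P.w a / P.pr X (X a) else 0) := by
          refine sum_congr rfl fun a _ => ?_
          rw [sum_eq_single (X a)]
          · rw [if_pos rfl]
            ring
          · intro x _ hx
            rw [if_neg (Ne.symm hx), mul_zero]
          · intro hx
            exact absurd (mem_image_of_mem X (mem_univ a)) hx
      _ = ∑ x ∈ univ.image X, q x * ∑ a, (if X a = x then P.w a / P.pr X (X a) else 0) := by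
          rw [sum_comm]
          simp only [mul_sum]
      _ ≤ ∑ x ∈ univ.image X, q x :=
          sum_le_sum fun x _ => mul_le_of_le_one_right (h0 x) (E1.fib_le P X x)
      _ ≤ 1 := h2 _
  have h4 := E1.gibbs P _ (fun a ha => div_pos (h1 a ha) (E1.pr_pos P X ha)) h3
  have h5 := E2.E_congr P (fun a => Real.log (q (X a) / P.pr X (X a)))
    (fun a => -Real.log (P.pr X (X a)) - -Real.log (q (X a))) fun a ha => by
    rw [Real.log_div (h1 a ha).ne' (E1.pr_pos P X ha).ne']
    ring
  rw [h5, E2.E_sub] at h4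
  unfold FP.H
  linarith

lemma sum_pr_le (P : FP Ω) (X : Ω → α) (F : Finset α) : ∑ x ∈ F, P.pr X x ≤ 1 := by
  unfold FP.pr
  rw [sum_comm, ← P.tot]
  refine sum_le_sum fun a _ => ?_
  rw [sum_ite_eq]
  split_ifs
  exacts [le_rfl, P.nn a]

lemma cond (P : FP Ω) (X : Ω → α) (U : Ω → β) (S : α → Finset β) (M : ℝ)
    (hS : ∀ x, ((S x).card : ℝ) ≤ Real.exp M) (hU : ∀ a, 0 < P.w a → U a ∈ S (X a)) :
    (P.H fun a => (X a, U a)) ≤ P.H X + M := by
  have hM := Real.exp_pos (-M)
  have h1 := gib P (fun a => (X a, U a))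
    (fun z => if z.2 ∈ S z.1 then P.pr X z.1 * Real.exp (-M) else 0)
    (fun z => by
      split_ifs
      exacts [mul_nonneg (P.pr_nonneg X _) hM.le, le_rfl])
    (fun a ha => by
      simp only [if_pos (hU a ha)]
      exact mul_pos (E1.pr_pos P X ha) hM)
    (fun F => by
      have e1 : F.filter (fun z => z.2 ∈ S z.1) ⊆
          (F.image Prod.fst).biUnion fun x => (S x).image fun u => (x, u) := fun z hz => by
        rw [mem_filter] at hz
        exact mem_biUnion.2 ⟨z.1, mem_image_of_mem _ hz.1, mem_image.2 ⟨z.2, hz.2, rfl⟩⟩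
      rw [← sum_filter]
      calc _ ≤ ∑ z ∈ (F.image Prod.fst).biUnion fun x => (S x).image fun u => (x, u),
            P.pr X z.1 * Real.exp (-M) :=
            sum_le_sum_of_subset_of_nonneg e1 fun z _ _ => mul_nonneg (P.pr_nonneg X _) hM.le
        _ = ∑ x ∈ F.image Prod.fst, ∑ z ∈ (S x).image fun u => (x, u),
            P.pr X z.1 * Real.exp (-M) := by
            refine sum_biUnion fun x _ y _ hxy => ?_
            refine disjoint_left.2 fun z h1 h2 => hxy ?_
            obtain ⟨u, -, rfl⟩ := mem_image.1 h1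
            obtain ⟨v, -, hv⟩ := mem_image.1 h2
            exact (congrArg Prod.fst hv).symm
        _ ≤ ∑ x ∈ F.image Prod.fst, P.pr X x := by
            refine sum_le_sum fun x _ => ?_
            rw [sum_image fun u _ v _ h => congrArg Prod.snd h]
            simp only [sum_const, nsmul_eq_mul]
            have e2 : ((S x).card : ℝ) * Real.exp (-M) ≤ 1 := by
              rw [Real.exp_neg, ← div_eq_mul_inv]
              exact (div_le_one (Real.exp_pos M)).2 (hS x)
            have e3 := P.pr_nonneg X x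
            nlinarith
        _ ≤ 1 := sum_pr_le P X _)
  refine h1.trans (le_of_eq ?_)
  have h2 := E2.E_congr P (fun a => -Real.log
      (if U a ∈ S (X a) then P.pr X (X a) * Real.exp (-M) else 0))
    (fun a => -Real.log (P.pr X (X a)) - -M) fun a ha => by
    rw [if_pos (hU a ha), Real.log_mul (E1.pr_pos P X ha).ne' hM.ne', Real.log_exp]
    ring
  rw [h2, E2.E_sub, E2.E_const]
  unfold FP.H
  ring

lemma sub (P : FP Ω) (q : ℕ → Ω → α) (N : ℕ) : P.H (tup q N) ≤ P.H (q 0) +
    ∑ j ∈ range N, ((P.H fun a => (q j a, q (j + 1) a)) - P.H (q j)) := by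
  induction N with
  | zero =>
    rw [sum_range_zero, add_zero]
    refine E1.H_mono P _ _ fun a b _ _ h => funext fun j => ?_
    have hj : (j : ℕ) = 0 := by omega
    simp only [tup, hj, h]
  | succ N ih =>
    rw [sum_range_succ]
    have h := E1.H_sub P (tup q N) (fun a => (q N a, q (N + 1) a)) (q N) (tup q (N + 1))
      (fun a b _ _ h => congrFun h (Fin.last N)) (fun a b _ _ h => congrArg Prod.fst h)
      fun a b _ _ h1 h2 => funext fun j => by
        rcases Nat.lt_succ_iff_lt_or_eq.1 j.2 with hj | hj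
        · exact congrFun h1 ⟨j, hj⟩
        · have h3 : q (N + 1) a = q (N + 1) b := congrArg Prod.snd h2
          simp only [tup, hj, h3]
    linarith

lemma cs (P : FP Ω) (f : Ω → ℝ) : P.E f ^ 2 ≤ P.E fun a => f a ^ 2 := by
  have h1 : 0 ≤ P.E fun a => (f a - P.E f) ^ 2 :=
    sum_nonneg fun a _ => mul_nonneg (P.nn a) (sq_nonneg _)
  have h2 : (P.E fun a => (f a - P.E f) ^ 2) =
      (P.E fun a => f a ^ 2) - 2 * P.E f * P.E f + P.E f ^ 2 * ∑ a, P.w a := by
    generalize hc : P.E f = c
    rw [show 2 * c * c = 2 * c * P.E f by rw [hc]]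
    unfold FP.E
    rw [mul_sum, mul_sum, ← sum_sub_distrib, ← sum_add_distrib]
    exact sum_congr rfl fun a _ => by ring
  rw [P.tot] at h2
  nlinarith

end ENT

theorem stENT : St_ENT where
  lawH := ENT.lawH
  lawS := ENT.lawS
  gib := ENT.gib
  cond := ENT.cond
  sub := ENT.sub
  cs := ENT.cs

end Pool.Agent.Lib.SD
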