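import Pool.Agent.Lib.SD.Blue

/-! Exponential growth of discrete groups with coarse midpoints. -/

noncomputable section

open Finset

namespace Pool.Agent.Lib.SD

namespace GROW

variable {K : Type} [NontriviallyNormedField K] {n : ℕ} {Γ : Type} [Group Γ]
  {ρ : Γ →* GL (Fin n) K}

lemma half (h : Mid ρ) : ∃ c : ℝ, 0 ≤ c ∧ ∀ (R : ℝ) (γ : Γ), Kc (Real.exp R) (ρ γ) → ∃ γ' : Γ,
    Kc (Real.exp (R / 2 + c)) (ρ γ') ∧ Kc (Real.exp (R / 2 + c)) (ρ (γ'⁻¹ * γ)) := by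
  obtain ⟨C, hC⟩ := h
  refine ⟨|(n * C) ^ 3|, abs_nonneg _, fun R γ hγ => ?_⟩
  obtain ⟨k₁, b, k₂, γ', h1, h2, h3, h4, h5⟩ := hC γ
  obtain ⟨d, hd, rfl⟩ := exists_dg h3
  have h6 := (h1.inv.mul hγ).mul h2.inv
  rw [h4, show k₁⁻¹ * (k₁ * dg d hd * dg d hd * k₂) * k₂⁻¹ = dg d hd * dg d hd by group,
    dg_mul] at h6
  have e : n * (n * (C * Real.exp R) * C) = (n * C * Real.exp (R / 2)) ^ 2 := by
    rw [mul_pow, ← Real.exp_nat_mul]
    rw [show ((2 : ℕ) : ℝ) * (R / 2) = R by push_cast; ring]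
    ring
  have p : ∀ i : Fin n, 0 ≤ n * C * Real.exp (R / 2) := fun i => by
    have := (norm_nonneg _).trans (h1.1 i i)
    positivity
  have h7 : Kc (n * C * Real.exp (R / 2)) (dg d hd) := by
    refine kc_dg d hd (fun i => ?_) fun i => ?_
    · have := h6.1 i i
      rw [dg_apply, norm_mul, e, ← sq] at this
      exact (pow_le_pow_iff_left₀ (norm_nonneg _) (p i) two_ne_zero).1 this
    · have := h6.2 i i
      rw [dg_inv, dg_apply, norm_inv, norm_mul, e, ← sq, ← inv_pow] at this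
      exact (pow_le_pow_iff_left₀ (by positivity) (p i) two_ne_zero).1 this
  have b : n * (n * (C * (n * C * Real.exp (R / 2))) * C) ≤ Real.exp (R / 2 + |(n * C) ^ 3|) := by
    rw [Real.exp_add, show n * (n * (C * (n * C * Real.exp (R / 2))) * C) =
      Real.exp (R / 2) * (n * C) ^ 3 by ring]
    gcongr
    linarith [le_abs_self ((n * C) ^ 3), Real.add_one_le_exp |(n * C) ^ 3|]
  refine ⟨γ', ?_, ?_⟩
  · have := (h1.mul h7).mul h5.inv
    rw [show k₁ * dg d hd * ((ρ γ')⁻¹ * (k₁ * dg d hd))⁻¹ = ρ γ' by group] at this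
    exact this.mono b
  · have := (h5.mul h7).mul h2
    rw [map_mul, map_inv, h4]
    simp only [mul_assoc] at this b ⊢
    exact this.mono b

lemma card (h1 : Fn ρ) (h2 : Mid ρ) : ∃ C₁ : ℝ, 0 < C₁ ∧ ∀ R : ℝ, 0 ≤ R → ∃ F : Finset Γ,
    (F.card : ℝ) ≤ Real.exp (C₁ * (R + 1)) ∧ ∀ γ, Kc (Real.exp R) (ρ γ) → γ ∈ F := by
  classical
  obtain ⟨c, c0, hc⟩ := half h2
  set N : ℝ := ((h1 (Real.exp (2 * c + 1))).toFinset.card : ℝ)
  have N0 : 0 ≤ N := Nat.cast_nonneg _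
  have key : ∀ j : ℕ, ∃ F : Finset Γ, (F.card : ℝ) ≤ Real.exp (N * 2 ^ j) ∧
      ∀ γ, Kc (Real.exp (2 * c + 2 ^ j)) (ρ γ) → γ ∈ F := fun j => by
    induction j with
    | zero =>
      refine ⟨(h1 (Real.exp (2 * c + 1))).toFinset, ?_, fun γ h => by simpa using h⟩
      rw [pow_zero, mul_one]
      linarith [Real.add_one_le_exp N]
    | succ j ih =>
      obtain ⟨F, a, b⟩ := ih
      refine ⟨image₂ (· * ·) F F, ?_, fun γ h => ?_⟩
      · refine (Nat.cast_le.2 (card_image₂_le _ _ _)).trans ?_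
        rw [Nat.cast_mul, pow_succ, ← mul_assoc, mul_two, Real.exp_add]
        gcongr
      · obtain ⟨γ', h3, h4⟩ := hc _ γ h
        rw [show (2 * c + 2 ^ (j + 1)) / 2 + c = 2 * c + 2 ^ j by ring] at h3 h4
        exact mem_image₂.2 ⟨_, b _ h3, _, b _ h4, mul_inv_cancel_left _ _⟩
  refine ⟨2 * N + 1, by linarith, fun R hR => ?_⟩
  obtain ⟨m, h3, h4⟩ := exists_nat_pow_near (x := R + 1) (y := 2) (by linarith) one_lt_two
  obtain ⟨F, a, b⟩ := key (m + 1)
  refine ⟨F, a.trans (Real.exp_le_exp.2 ?_), fun γ h => b γ (h.mono (Real.exp_le_exp.2 ?_))⟩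
  · rw [pow_succ]
    nlinarith
  · linarith

lemma geo (T : Finset ℕ) : ∑ j ∈ T, Real.exp (-(j : ℝ)) ≤ 2 := by
  refine le_trans (sum_le_sum fun j _ => ?_)
    (sum_le_hasSum T (fun j _ => by positivity) hasSum_geometric_two)
  rw [← mul_neg_one, Real.exp_nat_mul, Real.exp_neg, one_div]
  gcongr
  linarith [Real.add_one_le_exp 1]

end GROW

theorem stGROW : St_GROW where
  card _ _ _ _ _ _ := GROW.card
  sum K _ n dd hd Γ _ ρ h1 h2 := by
    classical
    obtain ⟨C, C0, hC⟩ := GROW.card h1 h2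
    obtain ⟨c, c0, hc⟩ := hd.down
    choose S a b using fun j : ℕ => hC (j + 1 + c) (by positivity)
    refine ⟨C + 1, C * (2 + c) + 1, by linarith, by positivity, fun F => ?_⟩
    rw [← sum_fiberwise_of_maps_to (g := fun g => ⌊dd (ρ g)⌋₊) fun g hg =>
      mem_image_of_mem (fun g => ⌊dd (ρ g)⌋₊) hg]
    refine (sum_le_sum (g := fun j : ℕ => Real.exp (C * (2 + c)) * Real.exp (-(j : ℝ)))
      fun j _ => ?_).trans ?_
    · refine (sum_le_card_nsmul _ _ (Real.exp (-((C + 1) * j))) fun g hg => ?_).trans ?_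
      · rw [← (mem_filter.1 hg).2]
        gcongr
        exact Nat.floor_le (hd.nn _)
      · have h3 : (#{g ∈ F | ⌊dd (ρ g)⌋₊ = j} : ℝ) ≤ (S j).card :=
          Nat.cast_le.2 (card_le_card fun g hg => b j g ((hc _).mono (Real.exp_le_exp.2 (by
            rw [← (mem_filter.1 hg).2]
            linarith [Nat.lt_floor_add_one (dd (ρ g))]))))
        rw [nsmul_eq_mul]
        refine (mul_le_mul_of_nonneg_right (h3.trans (a j)) (Real.exp_nonneg _)).trans_eq ?_
        rw [← Real.exp_add, ← Real.exp_add]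
        congr 1
        ring
    · rw [← mul_sum, Real.exp_add]
      gcongr
      linarith [GROW.geo (F.image fun g => ⌊dd (ρ g)⌋₊), Real.add_one_le_exp 1]

end Pool.Agent.Lib.SD
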