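import Pool.Agent.Lib.SD.Blue

/-! Block N: from entropy to norms. -/

noncomputable section

open Finset

namespace Pool.Agent.Lib.SD

open Pool.Agent.Lib.U4

namespace N

variable {Γ : Type}

lemma sum_le_supp (F : Γ → ℝ) (A : Finset Γ) (hA : ∀ x, F x ≠ 0 → x ∈ A) (s : Finset Γ) :
    ∑ x ∈ s, F x ^ 2 ≤ ∑ x ∈ A, F x ^ 2 := by
  classical
  rw [← sum_subset (inter_subset_left (s₁ := s) (s₂ := A)) fun x hx h => ?_]
  · exact sum_le_sum_of_subset_of_nonneg inter_subset_right fun _ _ _ => sq_nonneg _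
  · by_contra h1
    exact h (mem_inter.2 ⟨hx, hA x fun h2 => h1 (by rw [h2]; ring)⟩)

lemma nrm_pos {F : Γ → ℝ} {A : Finset Γ} (hA : ∀ x, F x ≠ 0 → x ∈ A) {x : Γ} (hx : 0 < F x) :
    0 < ∑ x ∈ A, F x ^ 2 :=
  (pow_pos hx 2).trans_le (single_le_sum (f := fun x => F x ^ 2) (fun _ _ => sq_nonneg _)
    (hA x hx.ne'))

lemma gib' (hE : St_ENT) {Ω : Type} [Fintype Ω] (P : FP Ω) (X : Ω → Γ) (e : Γ → Γ)
    (he : Function.Injective e) (F : Γ → ℝ) (A : Finset Γ) (hA : ∀ x, F x ≠ 0 → x ∈ A)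
    (hn : 0 < ∑ x ∈ A, F x ^ 2) (hp : ∀ a, 0 < P.w a → 0 < F (e (X a))) :
    P.H X ≤ P.E fun a => Real.log (∑ x ∈ A, F x ^ 2) - 2 * Real.log (F (e (X a))) := by
  classical
  refine (hE.gib P X (fun x => F (e x) ^ 2 / ∑ x ∈ A, F x ^ 2)
    (fun x => div_nonneg (sq_nonneg _) hn.le) (fun a ha => div_pos (pow_pos (hp a ha) 2) hn)
    fun s => ?_).trans_eq (E2.E_congr P _ _ fun a ha => ?_)
  · rw [← sum_div, div_le_one hn, ← sum_image (f := fun x => F x ^ 2) (g := e)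
      fun x _ y _ h => he h]
    exact sum_le_supp F A hA _
  · rw [Real.log_div (pow_pos (hp a ha) 2).ne' hn.ne', Real.log_pow]
    push_cast
    ring

lemma H_inj {Ω α : Type} [Fintype Ω] (P : FP Ω) (X : Ω → α) (hX : Function.Injective X) :
    P.H X = P.E fun a => -Real.log (P.w a) := by
  unfold FP.H
  congr 1
  funext a
  congr 2
  unfold FP.pr
  rw [sum_eq_single a (fun b _ hb => if_neg fun h => hb (hX h)) (by simp), if_pos rfl]

lemma tri [Group Γ] (hE : St_ENT) {B : Set Γ} {Δ : ℝ} (hB : Exc B Δ) (A C T : Finset Γ)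
    (F G h : Γ → ℝ) (hF : ∀ x, 0 ≤ F x) (hG : ∀ x, 0 ≤ G x) (hh : ∀ x, 0 ≤ h x)
    (hA : ∀ x, F x ≠ 0 → x ∈ A) (hC : ∀ x, G x ≠ 0 → x ∈ C) (hT : ∀ x, h x ≠ 0 → x ∈ T)
    (hAB : ∀ x ∈ A, x ∈ B) :
    ∑ p ∈ A ×ˢ C, F p.1 * G p.2 * h (p.1 * p.2) ≤ Real.exp (Δ / 2) * √(∑ x ∈ A, F x ^ 2) *
      √(∑ x ∈ C, G x ^ 2) * √(∑ x ∈ T, h x ^ 2) := by
  classical
  set S := ∑ p ∈ A ×ˢ C, F p.1 * G p.2 * h (p.1 * p.2) with hS
  rcases le_or_gt S 0 with h0 | h0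
  · exact h0.trans (by positivity)
  have hnn : ∀ p : Γ × Γ, 0 ≤ F p.1 * G p.2 * h (p.1 * p.2) := fun p =>
    mul_nonneg (mul_nonneg (hF _) (hG _)) (hh _)
  have hpos : ∀ p : Γ × Γ, 0 < F p.1 * G p.2 * h (p.1 * p.2) →
      0 < F p.1 ∧ 0 < G p.2 ∧ 0 < h (p.1 * p.2) := fun p hp => by
    refine ⟨(hF _).lt_of_ne fun e => ?_, (hG _).lt_of_ne fun e => ?_, (hh _).lt_of_ne fun e => ?_⟩
    all_goals rw [← e] at hp; simp at hp
  obtain ⟨p₀, -, hp₀⟩ := exists_lt_of_sum_lt (s := A ×ˢ C) (f := fun _ => (0 : ℝ))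
    (g := fun p => F p.1 * G p.2 * h (p.1 * p.2)) (by simpa using h0)
  have nF := nrm_pos hA (hpos p₀ hp₀).1
  have nG := nrm_pos hC (hpos p₀ hp₀).2.1
  have nh := nrm_pos hT (hpos p₀ hp₀).2.2
  let P : FP (A ×ˢ C : Finset (Γ × Γ)) :=
    { w := fun a => F a.1.1 * G a.1.2 * h (a.1.1 * a.1.2) / S
      nn := fun a => div_nonneg (hnn _) h0.le
      tot := by
        rw [← sum_div, sum_coe_sort (A ×ˢ C) fun p => F p.1 * G p.2 * h (p.1 * p.2),
          div_self h0.ne'] }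
  have hP : ∀ a, 0 < P.w a → 0 < F a.1.1 ∧ 0 < G a.1.2 ∧ 0 < h (a.1.1 * a.1.2) := fun a ha =>
    hpos a.1 ((div_pos_iff_of_pos_right h0).1 ha)
  have h1 := hB _ P (fun a => (a.1.1 * a.1.2)⁻¹) (fun a => a.1.2⁻¹) fun a _ => by
    simpa using hAB _ (mem_product.1 a.2).1
  have h2 := gib' hE P (fun a => (a.1.1 * a.1.2)⁻¹) (·⁻¹) inv_injective h T hT nh fun a ha => by
    simpa using (hP a ha).2.2
  have h3 := gib' hE P (fun a => a.1.2⁻¹) (·⁻¹) inv_injective G C hC nG fun a ha => by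
    simpa using (hP a ha).2.1
  have h4 := gib' hE P (fun a => ((a.1.1 * a.1.2)⁻¹)⁻¹ * a.1.2⁻¹) id Function.injective_id F A hA
    nF fun a ha => by simpa using (hP a ha).1
  have h5 := H_inj P (fun a => ((a.1.1 * a.1.2)⁻¹, a.1.2⁻¹)) fun a b e => by
    obtain ⟨e1, e2⟩ := Prod.mk.inj e
    have e3 := inv_injective e2
    have e4 := inv_injective e1
    rw [e3] at e4
    exact Subtype.ext (Prod.ext (mul_right_cancel e4) e3)
  simp only [inv_inv, id, mul_inv_cancel_right] at h2 h3 h4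
  unfold Dx at h1
  simp only [inv_inv, mul_inv_cancel_right] at h1
  have h6 : ∀ u v₁ v₂ v₃ : (A ×ˢ C : Finset (Γ × Γ)) → ℝ,
      2 * P.E u - P.E v₁ - P.E v₂ - P.E v₃ = P.E fun a => 2 * u a - v₁ a - v₂ a - v₃ a := by
    intro u v₁ v₂ v₃
    simp only [FP.E, mul_sum, ← sum_sub_distrib]
    exact sum_congr rfl fun a _ => by ring
  have h7 := (h6 (fun a => -Real.log (P.w a))
    (fun a => Real.log (∑ x ∈ T, h x ^ 2) - 2 * Real.log (h (a.1.1 * a.1.2)))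
    (fun a => Real.log (∑ x ∈ C, G x ^ 2) - 2 * Real.log (G a.1.2))
    (fun a => Real.log (∑ x ∈ A, F x ^ 2) - 2 * Real.log (F a.1.1))).trans
    ((E2.E_congr P _ (fun _ => 2 * Real.log S - Real.log (∑ x ∈ T, h x ^ 2) -
    Real.log (∑ x ∈ C, G x ^ 2) - Real.log (∑ x ∈ A, F x ^ 2)) (fun a ha => by
      obtain ⟨a1, a2, a3⟩ := hP a ha
      have e : P.w a = F a.1.1 * G a.1.2 * h (a.1.1 * a.1.2) / S := rfl
      rw [e, Real.log_div (by positivity) h0.ne', Real.log_mul (by positivity) a3.ne',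
        Real.log_mul a1.ne' a2.ne']
      ring)).trans (E2.E_const P _))
  have sF := Real.sqrt_pos.2 nF
  have sG := Real.sqrt_pos.2 nG
  have sh := Real.sqrt_pos.2 nh
  refine (Real.log_le_log_iff h0 (by positivity)).1 ?_
  rw [Real.log_mul (by positivity) sh.ne', Real.log_mul (by positivity) sG.ne',
    Real.log_mul (by positivity) sF.ne', Real.log_exp, Real.log_sqrt nF.le, Real.log_sqrt nG.le,
    Real.log_sqrt nh.le]
  linarith

lemma l2_nonneg [Group Γ] (f : MonoidAlgebra ℂ Γ) : 0 ≤ l2 f := Real.sqrt_nonneg _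

lemma norm [Group Γ] (hE : St_ENT) (B : Set Γ) (Δ : ℝ) (hB : Exc B Δ) (f g : MonoidAlgebra ℂ Γ)
    (hf : ∀ x ∈ f.coeff.support, x ∈ B) : l2 (f * g) ≤ Real.exp (Δ / 2) * l2 f * l2 g := by
  classical
  have hs : ∀ (u : MonoidAlgebra ℂ Γ) x, ‖u.coeff x‖ ≠ 0 → x ∈ u.coeff.support := fun u x h =>
    Finsupp.mem_support_iff.2 (norm_ne_zero_iff.1 h)
  have h1 := tri hE hB f.coeff.support g.coeff.support (f * g).coeff.support
    (fun x => ‖f.coeff x‖) (fun x => ‖g.coeff x‖) (fun x => ‖(f * g).coeff x‖)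
    (fun _ => norm_nonneg _) (fun _ => norm_nonneg _) (fun _ => norm_nonneg _)
    (hs f) (hs g) (hs _) hf
  have h2 : ∀ t, ‖(f * g).coeff t‖ ≤ ∑ p ∈ f.coeff.support ×ˢ g.coeff.support,
      if p.1 * p.2 = t then ‖f.coeff p.1‖ * ‖g.coeff p.2‖ else 0 := fun t => by
    rw [MonoidAlgebra.coeff_mul, sum_product]
    refine (norm_sum_le _ _).trans (sum_le_sum fun a _ => ?_)
    refine (norm_sum_le _ _).trans (sum_le_sum fun b _ => ?_)
    dsimp only
    split_ifs <;> simp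
  have h3 : l2 (f * g) ^ 2 ≤ ∑ p ∈ f.coeff.support ×ˢ g.coeff.support,
      ‖f.coeff p.1‖ * ‖g.coeff p.2‖ * ‖(f * g).coeff (p.1 * p.2)‖ := by
    rw [l2, Real.sq_sqrt (sum_nonneg fun _ _ => sq_nonneg _)]
    refine (sum_le_sum fun t _ => (sq _).le.trans
      (mul_le_mul_of_nonneg_right (h2 t) (norm_nonneg _))).trans ?_
    simp only [sum_mul]
    rw [sum_comm]
    refine sum_le_sum fun p _ => ?_
    simp only [ite_mul, zero_mul]
    rw [sum_ite_eq]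
    split_ifs
    · exact le_rfl
    · positivity
  have h4 : l2 (f * g) * l2 (f * g) ≤ Real.exp (Δ / 2) * l2 f * l2 g * l2 (f * g) := by
    rw [← sq]
    exact h3.trans h1
  rcases (l2_nonneg (f * g)).eq_or_lt with h5 | h5
  · rw [← h5]
    exact mul_nonneg (mul_nonneg (Real.exp_pos _).le (l2_nonneg _)) (l2_nonneg _)
  · exact le_of_mul_le_mul_right h4 h5

end N

theorem stN (hE : St_ENT) : St_N := by
  refine ⟨fun B Δ hB f g hf => N.norm hE B Δ hB f g hf, fun B hm h ε hε => ?_⟩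
  obtain ⟨r₀, hr⟩ := h (2 * ε) (by positivity)
  refine ⟨Real.exp (ε * max r₀ 0), fun r h0 f g hf => ?_⟩
  have h1 := N.norm hE _ _ (hr (max r₀ r) (le_max_left _ _)) f g
    fun x hx => hm _ _ (le_max_right _ _) (hf x hx)
  refine h1.trans (mul_le_mul_of_nonneg_right (mul_le_mul_of_nonneg_right ?_ (N.l2_nonneg _))
    (N.l2_nonneg _))
  rw [← Real.exp_add]
  refine Real.exp_le_exp.2 ?_
  have h2 : max r₀ r ≤ max r₀ 0 + r :=
    max_le ((le_max_left _ _).trans (le_add_of_nonneg_right h0))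
      (le_add_of_nonneg_left (le_max_right _ _))
  nlinarith

end Pool.Agent.Lib.SD
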