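import Pool.Agent.Lib.SD.Blue

/-! Gaussian elimination with pivoting. -/

noncomputable section

open Finset

namespace Pool.Agent.Lib.SD

namespace PLU

variable {K : Type} [NontriviallyNormedField K] {n : ℕ}

/-- The matrix whose only non-zero row is the row `t`. -/
def rw1 (t : Fin n) (c : Fin n → K) : Matrix (Fin n) (Fin n) K :=
  Matrix.of fun i j => if i = t then c j else 0

lemma mul_rw1 (g : Matrix (Fin n) (Fin n) K) (t : Fin n) (c : Fin n → K) (i j : Fin n) :
    (g * rw1 t c) i j = g i t * c j := by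
  simp [rw1, Matrix.mul_apply]

lemma rw1_sq {t : Fin n} {c : Fin n → K} (h : c t = 0) : rw1 t c * rw1 t c = 0 := by
  ext i j
  rw [mul_rw1]
  simp [rw1, h]

/-- An elementary column operation. -/
def el (t : Fin n) (c : Fin n → K) (h : c t = 0) : GL (Fin n) K where
  val := 1 - rw1 t c
  inv := 1 + rw1 t c
  val_inv := by rw [sub_mul, one_mul, mul_add, mul_one, rw1_sq h, add_zero, add_sub_cancel_right]
  inv_val := by rw [add_mul, one_mul, mul_sub, mul_one, rw1_sq h, sub_zero, sub_add_cancel]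

lemma el_inv (t : Fin n) (c : Fin n → K) (h : c t = 0) :
    ((el t c h)⁻¹).val = 1 + rw1 t c := rfl

lemma mul_el (g : GL (Fin n) K) (t : Fin n) (c : Fin n → K) (h : c t = 0) (i j : Fin n) :
    (g * el t c h).val i j = g.val i j - g.val i t * c j := by
  have h1 : (g * el t c h).val = g.val * (1 - rw1 t c) := rfl
  rw [h1, mul_sub, mul_one, Matrix.sub_apply, mul_rw1]

lemma kc_el {M : ℝ} (hM : 0 ≤ M) (t : Fin n) (c : Fin n → K) (h : c t = 0)
    (hc : ∀ j, ‖c j‖ ≤ M) : Kc (1 + M) (el t c h) := by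
  have h1 : ∀ i j, ‖rw1 t c i j‖ ≤ M := fun i j => by
    rw [rw1, Matrix.of_apply]
    split_ifs
    exacts [hc j, by rwa [norm_zero]]
  refine ⟨fun i j => ?_, fun i j => ?_⟩
  · exact (norm_sub_le _ _).trans (add_le_add (kc_one.1 i j) (h1 i j))
  · exact (norm_add_le _ _).trans (add_le_add (kc_one.1 i j) (h1 i j))

lemma up_mul {g h : Matrix (Fin n) (Fin n) K} (hg : ∀ i j, j < i → g i j = 0)
    (hh : ∀ i j, j < i → h i j = 0) (i j : Fin n) (hij : j < i) : (g * h) i j = 0 := by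
  rw [Matrix.mul_apply]
  refine sum_eq_zero fun l _ => ?_
  rcases lt_or_ge l i with h1 | h1
  · rw [hg i l h1, zero_mul]
  · rw [hh l j (hij.trans_le h1), mul_zero]

lemma pivot {C : ℝ} {k : GL (Fin n) K} (hk : Kc C k) (t : Fin n) :
    ∃ r, 1 ≤ n * (C * ‖k.val r t‖) := by
  obtain ⟨r, -, hr⟩ := exists_max_image univ (fun r => ‖k.val r t‖) ⟨t, mem_univ t⟩
  refine ⟨r, ?_⟩
  have h1 : ((k⁻¹).val * k.val) t t = 1 := by
    rw [← Units.val_mul, inv_mul_cancel, Units.val_one, Matrix.one_apply_eq]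
  have h2 : ‖((k⁻¹).val * k.val) t t‖ ≤ n * (C * ‖k.val r t‖) := by
    rw [Matrix.mul_apply]
    refine (norm_sum_le _ _).trans
      ((sum_le_card_nsmul _ _ (C * ‖k.val r t‖) fun l _ => ?_).trans (by simp))
    rw [norm_mul]
    exact mul_le_mul (hk.2 t l) (hr l (mem_univ l)) (norm_nonneg _)
      ((norm_nonneg _).trans (hk.2 t l))
  rwa [h1, norm_one] at h2

lemma step (C : ℝ) (t : ℕ) (ht : t ≤ n) : ∃ C' : ℝ, ∀ k : GL (Fin n) K, Kc C k →
    ∃ (σ : Equiv.Perm (Fin n)) (U : GL (Fin n) K), Kc C' U ∧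
      (∀ i j, j < i → U.val i j = 0) ∧ (∀ i j, j < i → (U⁻¹).val i j = 0) ∧
      ∀ i j, i.1 < t → i < j → (k * U).val (σ i) j = 0 := by
  induction t with
  | zero =>
    refine ⟨1, fun k _ => ⟨1, 1, kc_one, fun i j h => ?_, fun i j h => ?_, fun i j h => ?_⟩⟩
    · exact Matrix.one_apply_ne h.ne'
    · rw [inv_one]
      exact Matrix.one_apply_ne h.ne'
    · exact absurd h (Nat.not_lt_zero _)
  | succ t ih =>
    obtain ⟨C', hC'⟩ := ih (Nat.le_of_succ_le ht)
    let D : ℝ := n * (C * C')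
    refine ⟨n * (C' * (1 + D * (n * D))), fun k hk => ?_⟩
    obtain ⟨σ, U, h1, h2, h3, h4⟩ := hC' k hk
    have hk' : Kc D (k * U) := hk.mul h1
    let T : Fin n := ⟨t, ht⟩
    obtain ⟨r, hr⟩ := pivot hk' T
    have hD : 0 ≤ D := (norm_nonneg _).trans (hk'.1 T T)
    have hr0 : (k * U).val r T ≠ 0 := fun h => by
      rw [h, norm_zero, mul_zero, mul_zero] at hr
      exact absurd hr (by norm_num)
    obtain ⟨i₀, rfl⟩ := σ.surjective r
    have hi₀ : t ≤ i₀.1 := by
      by_contra h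
      exact hr0 (h4 i₀ T (not_le.1 h) (not_le.1 h))
    let c : Fin n → K := fun j => if T < j then (k * U).val (σ i₀) j / (k * U).val (σ i₀) T else 0
    have hc0 : ∀ j, j ≤ T → c j = 0 := fun j hj => if_neg (not_lt.2 hj)
    have hc : ∀ j, ‖c j‖ ≤ D * (n * D) := fun j => by
      simp only [c]
      split_ifs
      · rw [norm_div, div_le_iff₀ (norm_pos_iff.2 hr0)]
        calc ‖(k * U).val (σ i₀) j‖ ≤ D * 1 := by rw [mul_one]; exact hk'.1 _ _
          _ ≤ D * (n * (D * ‖(k * U).val (σ i₀) T‖)) := mul_le_mul_of_nonneg_left hr hD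
          _ = _ := by ring
      · rw [norm_zero]
        positivity
    have hrw : ∀ i j, j < i → rw1 T c i j = 0 := fun i j h => by
      rw [rw1, Matrix.of_apply]
      split_ifs with h5
      exacts [hc0 j (h5 ▸ h.le), rfl]
    refine ⟨σ * Equiv.swap T i₀, U * el T c (hc0 T le_rfl),
      h1.mul (kc_el (by positivity) _ _ _ hc), up_mul h2 fun i j h => ?_, ?_, fun i j hi hij => ?_⟩
    · change (1 - rw1 T c) i j = 0
      rw [Matrix.sub_apply, hrw i j h, Matrix.one_apply_ne h.ne', sub_zero]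
    · rw [mul_inv_rev]
      refine up_mul (fun i j h => ?_) h3
      rw [el_inv, Matrix.add_apply, hrw i j h, Matrix.one_apply_ne h.ne', add_zero]
    · rw [← mul_assoc, mul_el, Equiv.Perm.mul_apply]
      rcases Nat.lt_succ_iff_lt_or_eq.1 hi with h5 | h5
      · rw [Equiv.swap_apply_of_ne_of_ne (fun h => by rw [h] at h5; exact lt_irrefl _ h5)
          (fun h => by rw [h] at h5; omega), h4 i j h5 hij, h4 i T h5 h5, zero_mul, sub_zero]
      · obtain rfl : i = T := Fin.ext h5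
        rw [Equiv.swap_apply_left]
        simp only [c, if_pos hij]
        rw [mul_div_cancel₀ _ hr0, sub_self]

end PLU

theorem stPLU : St_PLU := fun K _ n C => by
  obtain ⟨C', h⟩ := PLU.step (K := K) C n le_rfl
  refine ⟨C', fun k hk => ?_⟩
  obtain ⟨σ, U, h1, h2, h3, h4⟩ := h k hk
  exact ⟨σ, U, h1, h2, h3, fun i j hij => h4 i j i.2 hij⟩

end Pool.Agent.Lib.SD
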