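import Pool.Agent.Lib.SD.Blue

noncomputable section

open Finset Filter

namespace Pool.Agent.Lib.SD

namespace REDG

variable {K : Type} [NontriviallyNormedField K] {n : ℕ}

lemma kc_exp {a b : ℝ} {g h : GL (Fin n) K} (hg : Kc (Real.exp a) g) (hh : Kc (Real.exp b) h) :
    Kc (Real.exp (n + a + b)) (g * h) := by
  refine (hg.mul hh).mono ?_
  rw [add_assoc, Real.exp_add, Real.exp_add]
  exact mul_le_mul_of_nonneg_right (by linarith [Real.add_one_le_exp (n : ℝ)]) (by positivity)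

lemma ev_pow (n : ℕ) {M ε : ℝ} (hM : 0 < M) (hε : 0 < ε) :
    ∀ᶠ r : ℝ in atTop, (M * (r + 1)) ^ n ≤ Real.exp (ε * r) := by
  filter_upwards [(isLittleO_pow_exp_pos_mul_atTop n hε).bound
    (show 0 < ((2 * M) ^ n)⁻¹ by positivity), eventually_ge_atTop 1] with r h h1
  rw [Real.norm_of_nonneg (by positivity), Real.norm_of_nonneg (by positivity),
    le_inv_mul_iff₀ (by positivity), ← mul_pow] at h
  exact (pow_le_pow_left₀ (by positivity) (by nlinarith) n).trans h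

end REDG

open REDG

theorem stREDG (hC : St_CN) (hG : St_GROW) (hR : St_REDM) : St_REDG := by
  classical
  intro K _ n dd hd Γ _ ρ h1 h2
  obtain ⟨C, M, M0, hM⟩ := hR K n
  obtain ⟨c0, c00, hinv⟩ := hd.inv (max C 1)
  obtain ⟨κ, κ0, hcn⟩ := hC.grp K n dd hd Γ ρ h2
  obtain ⟨C1, C10, hgr⟩ := hG.card K n Γ ρ h1 h2
  obtain ⟨cu, cu0, hup⟩ := hd.up
  obtain ⟨cd, cd0, hdn⟩ := hd.down
  let I : GL (Fin n) K → ℝ := fun u => ⨅ γ, dd ((ρ γ)⁻¹ * u)
  have hI : ∀ u γ, I u ≤ dd ((ρ γ)⁻¹ * u) := fun u γ =>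
    ciInf_le ⟨0, by rintro _ ⟨γ, rfl⟩; exact hd.nn _⟩ γ
  have I0 : ∀ u, 0 ≤ I u := fun u => le_ciInf fun _ => hd.nn _
  have hg : ∀ u, ∃ γ, dd ((ρ γ)⁻¹ * u) < I u + 1 := fun u =>
    exists_lt_of_ciInf_lt (lt_add_one (I u))
  choose g0 hg0 using hg
  set c2 := 1 + 2 * c0 + κ with hc2
  have diam : ∀ u γ, dd ((ρ γ)⁻¹ * u) ≤ I u + 1 + 2 * c0 →
      dd (ρ ((g0 u)⁻¹ * γ)) ^ 2 ≤ 8 * (2 * I u * c2 + c2 ^ 2) := fun u γ hγ => by
    obtain ⟨m, hm⟩ := hcn ((g0 u)⁻¹ * γ)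
    have h3 := hm ((ρ (g0 u))⁻¹ * u)
    rw [show (ρ m)⁻¹ * ((ρ (g0 u))⁻¹ * u) = (ρ (g0 u * m))⁻¹ * u by rw [map_mul]; group,
      show (ρ ((g0 u)⁻¹ * γ))⁻¹ * ((ρ (g0 u))⁻¹ * u) = (ρ γ)⁻¹ * u by
        rw [map_mul, map_inv]; group] at h3
    have a1 := pow_le_pow_left₀ (I0 u) (hI u (g0 u * m)) 2
    have a2 : (dd ((ρ (g0 u))⁻¹ * u) + κ) ^ 2 ≤ (I u + c2) ^ 2 :=
      pow_le_pow_left₀ (add_nonneg (hd.nn _) κ0) (by linarith [hg0 u]) 2
    have a3 : (dd ((ρ γ)⁻¹ * u) + κ) ^ 2 ≤ (I u + c2) ^ 2 :=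
      pow_le_pow_left₀ (add_nonneg (hd.nn _) κ0) (by linarith) 2
    nlinarith
  have cmp : ∀ (u u' g : GL (Fin n) K), Kc C (u⁻¹ * u') → |dd (g * u') - dd (g * u)| ≤ c0 :=
    fun u u' g h => by
      have := hinv 1 (g * u) (u⁻¹ * u') (kc_one.mono (le_max_right _ _)) (h.mono (le_max_left _ _))
      rwa [show 1 * (g * u) * (u⁻¹ * u') = g * u' by group] at this
  set A0 := cu * (2 * M + 1) + c0 with hA0
  set A := n + (A0 + 1 + cd) + 2 * M with hA
  have c20 : 0 ≤ c2 := by positivity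
  have A00 : 0 ≤ A0 := by positivity
  refine ⟨cu * (n + A + 2), by positivity, fun ε hε => ?_⟩
  set e := ε / (4 * C1) with he
  have e0 : 0 < e := by positivity
  obtain ⟨r₀, hr₀⟩ := eventually_atTop.1 ((((eventually_ge_atTop (1 : ℝ)).and
    (eventually_ge_atTop (8 * (2 * A0 * c2 + c2 ^ 2) / e ^ 2))).and
    (eventually_ge_atTop (C1 * (cd + 1) / (ε / 4)))).and (ev_pow n M0 (half_pos hε)))
  refine ⟨r₀, fun r hr => ?_⟩
  obtain ⟨⟨⟨r1, r2⟩, r3⟩, r4⟩ := hr₀ r hr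
  rw [div_le_iff₀ (by positivity)] at r2 r3
  obtain ⟨S0, hS0, hS⟩ := hM r (by linarith)
  obtain ⟨F, hF, hFm⟩ := hgr (e * r + cd) (by positivity)
  have mem : ∀ u γ, I u ≤ A0 * r → dd ((ρ γ)⁻¹ * u) ≤ I u + 1 + 2 * c0 →
      γ ∈ F.image (g0 u * ·) := fun u γ hu hγ => by
    refine mem_image.2 ⟨(g0 u)⁻¹ * γ, hFm _ ((hdn _).mono (Real.exp_le_exp.2 ?_)), by group⟩
    have h3 := diam u γ hγ
    have h4 : dd (ρ ((g0 u)⁻¹ * γ)) ≤ e * r := by
      refine abs_le_of_sq_le_sq' (h3.trans ?_) (by positivity) |>.2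
      have a1 := mul_le_mul_of_nonneg_right hu c20
      have a2 := mul_le_mul_of_nonneg_right r2 (show 0 ≤ r by linarith)
      have a3 := mul_le_mul_of_nonneg_left r1 (sq_nonneg c2)
      nlinarith
    linarith
  refine ⟨fun x => (S0 (ρ x)).biUnion fun u => F.image (g0 u * ·), fun x => ?_, fun x y hxy => ?_⟩
  · have h3 : (((S0 (ρ x)).biUnion fun u => F.image (g0 u * ·)).card : ℝ) ≤
        (S0 (ρ x)).card * F.card := by
      exact_mod_cast card_biUnion_le_card_mul _ _ _ fun u _ => card_image_le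
    refine h3.trans ((mul_le_mul ((hS0 _).trans r4) hF (by positivity) (by positivity)).trans ?_)
    rw [← Real.exp_add, Real.exp_le_exp]
    have : C1 * e = ε / 4 := by rw [he]; field_simp
    nlinarith
  · obtain ⟨u, hu, u', hu', k1, k2⟩ := hS (ρ x) (ρ y) (by rwa [map_mul, map_inv] at hxy)
    have b1 : I u + c0 ≤ A0 * r := by
      have a1 := hup _ _ (by positivity) k2.inv
      rw [mul_inv_rev, inv_inv] at a1
      have a2 := hI u x
      have a3 := mul_le_mul_of_nonneg_left r1 c00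
      have a4 : M * (r + 1) + 1 ≤ (2 * M + 1) * r := by nlinarith
      have a5 := mul_le_mul_of_nonneg_left a4 cu0.le
      nlinarith
    have b2 := abs_le.1 (cmp u u' (ρ (g0 u))⁻¹ k1)
    have b3 := abs_le.1 (cmp u u' (ρ (g0 u'))⁻¹ k1)
    have b4 : I u' ≤ I u + c0 := by
      rw [← sub_le_iff_le_add]
      exact le_ciInf fun γ => by linarith [hI u' γ, (abs_le.1 (cmp u u' (ρ γ)⁻¹ k1)).2]
    have b5 : I u ≤ I u' + c0 := by
      rw [← sub_le_iff_le_add]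
      exact le_ciInf fun γ => by linarith [hI u γ, (abs_le.1 (cmp u u' (ρ γ)⁻¹ k1)).1]
    have k3 : Kc (Real.exp (A * r)) (ρ ((g0 u)⁻¹ * x)) := by
      have := kc_exp (hdn ((ρ (g0 u))⁻¹ * u)) k2
      rw [show (ρ (g0 u))⁻¹ * u * (u⁻¹ * ρ x) = ρ ((g0 u)⁻¹ * x) by
        rw [map_mul, map_inv]; group] at this
      refine this.mono (Real.exp_le_exp.2 ?_)
      have a1 := hg0 u
      have a2 := mul_le_mul_of_nonneg_left r1 (show (0 : ℝ) ≤ n + 1 + cd + M by positivity)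
      nlinarith
    have k4 := kc_exp k3 hxy
    rw [← map_mul, show (g0 u)⁻¹ * x * (x⁻¹ * y) = (g0 u)⁻¹ * y by group] at k4
    have A1 : 0 ≤ A := by positivity
    have a2 := mul_le_mul_of_nonneg_left r1 (show (0 : ℝ) ≤ n + 1 by positivity)
    refine ⟨g0 u, mem_biUnion.2 ⟨u, hu, mem u _ (by linarith) (by linarith [hg0 u])⟩,
      mem_biUnion.2 ⟨u', hu', mem u' _ (by linarith) (by linarith [hg0 u])⟩,
      (hup _ _ (by positivity) k3).trans ?_, (hup _ _ (by positivity) k4).trans ?_⟩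
    · rw [mul_assoc]
      exact mul_le_mul_of_nonneg_left (by nlinarith) cu0.le
    · rw [mul_assoc]
      exact mul_le_mul_of_nonneg_left (by nlinarith) cu0.le

end Pool.Agent.Lib.SD
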