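import Pool.Agent.Lib.SD.Blue

/-! Reduction of long triangles in the general linear group. -/

noncomputable section

open Finset
open scoped Classical

namespace Pool.Agent.Lib.SD.RMb

variable {K : Type} [NontriviallyNormedField K] {n : ℕ}

lemma shrink (N : Fin n → ℤ) (R : ℤ) (hR : 0 ≤ R) : ∃ E : Fin n → ℤ,
    (∀ i, N i - n * R ≤ E i ∧ E i ≤ N i) ∧ ∀ i j, E j ≤ E i ∨ E j - E i ≤ N j - N i - R := by
  set c : Fin n → ℕ := fun i => (univ.filter fun l => N l < N i).card with hc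
  have h1 : ∀ i, ∃ l, N l ≤ N i ∧ ∀ l', N l' ≤ N i → N l' - c l' * R ≤ N l - c l * R := fun i => by
    obtain ⟨l, a1, a2⟩ := exists_max_image (univ.filter fun l => N l ≤ N i)
      (fun l => N l - c l * R) ⟨i, by simp⟩
    exact ⟨l, by simpa using a1, fun l' h => a2 l' (by simpa using h)⟩
  choose l h2 h3 using h1
  refine ⟨fun i => N (l i) - c (l i) * R, fun i => ⟨?_, ?_⟩, fun i j => ?_⟩
  · have a1 : (c i : ℤ) ≤ n := by
      exact_mod_cast (card_filter_le _ _).trans (by simp)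
    nlinarith [h3 i i le_rfl]
  · nlinarith [h2 i, mul_nonneg (Int.natCast_nonneg (c (l i))) hR]
  · by_cases h : N (l j) ≤ N i
    · exact Or.inl (h3 i _ h)
    · have a1 : c i < c (l j) := card_lt_card ⟨fun x hx => by
        simp only [mem_filter, mem_univ, true_and] at hx ⊢; omega, fun hx => by
        have := hx (show i ∈ _ by simp only [mem_filter, mem_univ, true_and]; omega)
        simp at this⟩
      have a2 : (c i : ℤ) + 1 ≤ c (l j) := by exact_mod_cast a1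
      right
      nlinarith [h3 i i le_rfl, h2 j]

lemma pig (σ : Equiv.Perm (Fin n)) (i : Fin n) : ∃ j, j ≤ i ∧ i ≤ σ j := by
  by_contra h
  push Not at h
  have h1 := card_le_card_of_injOn (s := Iic i) (t := Iio i) σ
    (fun j hj => by simpa using h j (by simpa using hj)) σ.injective.injOn
  simp at h1

lemma det_le {g : Matrix (Fin n) (Fin n) K} {c η : ℝ} (hc : 1 ≤ c) (hη : 0 ≤ η)
    (h : ∀ i j, ‖g i j‖ ≤ c) (i : Fin n) (h2 : ∀ l j, j ≤ i → i ≤ l → ‖g l j‖ ≤ η) :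
    ‖g.det‖ ≤ n.factorial * (η * c ^ n) := by
  rw [Matrix.det_apply']
  refine (norm_sum_le _ _).trans ((sum_le_card_nsmul _ _ (η * c ^ n)
    fun σ _ => ?_).trans (by simp [Fintype.card_perm]))
  have h1 : ‖((Equiv.Perm.sign σ : ℤ) : K)‖ = 1 := by
    rcases Int.units_eq_one_or (Equiv.Perm.sign σ) with h | h <;> simp [h]
  obtain ⟨j, a1, a2⟩ := pig σ i
  rw [norm_mul, h1, one_mul, norm_prod, ← mul_prod_erase _ _ (mem_univ j)]
  refine mul_le_mul (h2 _ _ a1 a2) ?_ (prod_nonneg fun _ _ => norm_nonneg _) hη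
  refine (prod_le_prod (g := fun _ => c) (fun _ _ => norm_nonneg _) fun x _ => h _ _).trans ?_
  rw [prod_const]
  exact pow_le_pow_right₀ hc ((card_le_univ _).trans (by simp))

variable {w : K}

/-- The diagonal matrix of powers of `w`. -/
def dw (hw : 1 < ‖w‖) (N : Fin n → ℤ) : GL (Fin n) K :=
  dg (fun i => w ^ N i) fun _ => zpow_ne_zero _ (norm_pos_iff.1 (one_pos.trans hw))

lemma conj (hw : 1 < ‖w‖) (N M : Fin n → ℤ) (g : GL (Fin n) K) (i j : Fin n) :
    ‖((dw hw N)⁻¹ * g * dw hw M).val i j‖ = ‖g.val i j‖ * ‖w‖ ^ (M j - N i) := by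
  unfold dw
  rw [mul_dg_apply, dg_inv, dg_mul_apply, norm_mul, norm_mul, norm_inv, norm_zpow, norm_zpow,
    zpow_sub₀ (one_pos.trans hw).ne']
  ring

lemma weyl (hw : 1 < ‖w‖) {c B : ℝ} (hc : 1 ≤ c) {g : GL (Fin n) K} (hg : Kc c g)
    {N M : Fin n → ℤ} (hN : Antitone N) (hM : Antitone M) {ρ : ℤ}
    (h : ∀ i j, ‖g.val i j‖ * ‖w‖ ^ (M j - N i) ≤ B)
    (hρ : n.factorial * c ^ n * (n.factorial * c ^ n) * B < ‖w‖ ^ ρ) (i : Fin n) :
    M i - N i ≤ ρ := by
  by_contra h1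
  have hp : 0 < ‖w‖ ^ ρ := zpow_pos (one_pos.trans hw) _
  have hB : 0 ≤ B := le_trans (by positivity) (h i i)
  have a1 := det_le hc (div_nonneg hB hp.le) hg.1 i fun l j h2 h3 => by
    rw [le_div_iff₀ hp]
    refine le_trans (mul_le_mul_of_nonneg_left (zpow_le_zpow_right₀ hw.le ?_) (norm_nonneg _))
      (h l j)
    have := hN h3; have := hM h2
    omega
  have a2 : ‖(g⁻¹).val.det‖ ≤ n.factorial * c ^ n := by
    have h1 := Matrix.det_le (abv := NormedField.toAbsoluteValue K) (A := (g⁻¹).val) (x := c) hg.2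
    rw [Fintype.card_fin, nsmul_eq_mul] at h1
    exact h1
  have a3 : ‖(g⁻¹).val.det‖ * ‖g.val.det‖ = 1 := by
    rw [← norm_mul, ← Matrix.det_mul, Units.inv_mul, Matrix.det_one, norm_one]
  have a4 := mul_le_mul a2 a1 (norm_nonneg _) ((norm_nonneg _).trans a2)
  rw [a3, show (n.factorial : ℝ) * c ^ n * (n.factorial * (B / ‖w‖ ^ ρ * c ^ n)) =
    n.factorial * c ^ n * (n.factorial * c ^ n) * B / ‖w‖ ^ ρ by ring, one_le_div hp] at a4
  linarith

lemma car (hC : St_CAR) (hw : 1 < ‖w‖) : ∃ C : ℝ, 1 ≤ C ∧ ∀ g : GL (Fin n) K,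
    ∃ (k : GL (Fin n) K) (N : Fin n → ℤ) (k' : GL (Fin n) K), Kc C k ∧ Kc C k' ∧ Antitone N ∧
      g = k * dw hw N * k' := by
  obtain ⟨C, h⟩ := hC K n
  have h0 := one_pos.trans hw
  refine ⟨max 1 (max C (n * (‖w‖ * C))), le_max_left _ _, fun g => ?_⟩
  obtain ⟨k₁, a, k₂, h1, h2, h3, h4, rfl⟩ := h g
  obtain ⟨d, hd, rfl⟩ := exists_dg h3
  choose N a1 a2 using fun i => exists_mem_Ico_zpow (norm_pos_iff.2 (hd i)) hw
  have hz : ∀ i, w ^ N i ≠ 0 := fun _ => zpow_ne_zero _ (norm_pos_iff.1 h0)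
  have hp : ∀ i, 0 < ‖w‖ ^ N i := fun _ => zpow_pos h0 _
  refine ⟨k₁, N, dg (fun i => d i / w ^ N i) (fun i => div_ne_zero (hd i) (hz i)) * k₂,
    h1.mono (le_max_of_le_right (le_max_left _ _)),
    ((kc_dg _ _ (fun i => ?_) fun i => ?_).mul h2).mono (le_max_of_le_right (le_max_right _ _)),
    fun i j hij => ?_, ?_⟩
  · rw [norm_div, norm_zpow, div_le_iff₀ (hp i), mul_comm, ← zpow_add_one₀ h0.ne']
    exact (a2 i).le
  · rw [norm_div, norm_zpow, inv_div]
    exact ((div_le_one (norm_pos_iff.2 (hd i))).2 (a1 i)).trans hw.le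
  · have := h4 i j hij
    rw [dg_apply, dg_apply] at this
    have b := (zpow_lt_zpow_iff_right₀ hw).1 (((a1 j).trans this).trans_lt (a2 i))
    omega
  · rw [mul_assoc, mul_assoc, ← mul_assoc (dw hw N), dw, dg_mul]
    congr 3
    funext i
    rw [mul_div_cancel₀ _ (hz i)]

lemma half (hw : 1 < ‖w‖) {x c : ℝ} (hc : 1 ≤ c) (hx : 0 ≤ x) (h1 : x ≤ c) {s t ρ : ℤ}
    (h2 : x * ‖w‖ ^ s ≤ ‖w‖ ^ ρ) (h3 : t ≤ 0 ∨ t ≤ s - ρ) : x * ‖w‖ ^ t ≤ c := by
  have h0 := one_pos.trans hw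
  rcases h3 with h | h
  · exact (mul_le_of_le_one_right hx (zpow_le_one_of_nonpos₀ hw.le h)).trans h1
  · refine (mul_le_mul_of_nonneg_left (zpow_le_zpow_right₀ hw.le h) hx).trans (le_trans ?_ hc)
    rw [zpow_sub₀ h0.ne', ← mul_div_assoc, div_le_one (zpow_pos h0 _)]
    exact h2

theorem redm (hC : St_CAR) : St_REDM := by
  intro K _ n
  obtain ⟨w, hw⟩ := NormedField.exists_one_lt_norm K
  have h0 := one_pos.trans hw
  obtain ⟨C, hC1, h⟩ := car (n := n) hC hw
  choose k N k' a1 a2 a3 a4 using h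
  set c : ℝ := max 1 (n * (C * C)) with hc
  have c1 : 1 ≤ c := le_max_left _ _
  set D : ℝ := n.factorial * c ^ n * (n.factorial * c ^ n) with hD
  have D1 : 1 ≤ D := by
    have : (1 : ℝ) ≤ n.factorial * c ^ n := one_le_mul_of_one_le_of_one_le
      (by exact_mod_cast n.factorial_pos) (one_le_pow₀ c1)
    nlinarith
  set A : ℝ := n * (n * C * C) + 1 with hA
  have A1 : 1 ≤ A := le_add_of_nonneg_left (by positivity)
  have l0 : 0 < Real.log ‖w‖ := Real.log_pos hw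
  have lD : 0 ≤ Real.log (D * A) := Real.log_nonneg (by nlinarith)
  have lC : 0 ≤ Real.log (n * C + 1) := Real.log_nonneg (le_add_of_nonneg_left (by positivity))
  set a : ℝ := (1 + Real.log (D * A)) / Real.log ‖w‖ + 1 with ha
  have a0 : 0 < a := by positivity
  refine ⟨c, (4 * n + 2) * a + 1 + (2 * n * a * Real.log ‖w‖ + Real.log (n * C + 1)),
    by positivity, fun r hr => ?_⟩
  obtain ⟨ρ, r1, r2⟩ : ∃ ρ : ℕ, D * A * Real.exp r ≤ ‖w‖ ^ (ρ : ℤ) ∧ (ρ : ℝ) ≤ a * (r + 1) := by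
    refine ⟨⌈(r + Real.log (D * A)) / Real.log ‖w‖⌉₊, ?_, ?_⟩
    · have := Nat.le_ceil ((r + Real.log (D * A)) / Real.log ‖w‖)
      rw [div_le_iff₀ l0] at this
      rw [zpow_natCast, ← Real.exp_log (pow_pos h0 _), Real.log_pow,
        ← Real.exp_log (show 0 < D * A by positivity), ← Real.exp_add, Real.exp_log (by positivity)]
      exact Real.exp_le_exp.2 (by linarith)
    · refine (Nat.ceil_lt_add_one (by positivity)).le.trans ?_
      rw [ha, add_mul, div_mul_eq_mul_div]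
      gcongr <;> nlinarith
  set T : ℤ := (2 * n + 1) * ρ with hT
  have T0 : 0 ≤ T := by positivity
  refine ⟨fun x => (Fintype.piFinset fun _ => Icc (-T) T).image fun t => k x * dw hw (N x + t),
    fun x => ?_, fun x y hxy => ?_⟩
  · have e : ((Icc (-T) T).card : ℝ) = (4 * n + 2) * ρ + 1 := by
      have : ((Icc (-T) T).card : ℤ) = (4 * n + 2) * ρ + 1 := by
        rw [Int.card_Icc, Int.toNat_of_nonneg (by omega)]
        ring
      exact_mod_cast this
    refine (Nat.cast_le.2 card_image_le).trans ?_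
    rw [Fintype.card_piFinset, prod_const, card_univ, Fintype.card_fin, Nat.cast_pow, e]
    refine pow_le_pow_left₀ (by positivity) ?_ _
    have : 0 ≤ (2 * n * a * Real.log ‖w‖ + Real.log (n * C + 1)) * (r + 1) := by positivity
    nlinarith [mul_le_mul_of_nonneg_left r2 (show (0 : ℝ) ≤ 4 * n + 2 by positivity)]
  set g := (k x)⁻¹ * k y with hg
  have g1 : Kc c g := ((a1 x).inv.mul (a1 y)).mono (le_max_right _ _)
  set B : ℝ := n * (n * (C * Real.exp r) * C) with hB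
  have B1 : D * B < ‖w‖ ^ (ρ : ℤ) := by
    refine lt_of_lt_of_le ?_ r1
    rw [mul_assoc D]
    exact mul_lt_mul_of_pos_left (by nlinarith [Real.exp_pos r]) (one_pos.trans_le D1)
  have B2 : B ≤ ‖w‖ ^ (ρ : ℤ) := (le_mul_of_one_le_left (by positivity) D1).trans B1.le
  have q1 : Kc B ((dw hw (N x))⁻¹ * g * dw hw (N y)) := by
    have e : (dw hw (N x))⁻¹ * g * dw hw (N y) = k' x * (x⁻¹ * y) * (k' y)⁻¹ := by
      have e1 : (k x * dw hw (N x) * k' x)⁻¹ * (k y * dw hw (N y) * k' y) = x⁻¹ * y := by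
        rw [← a4, ← a4]
      rw [← e1, hg]
      group
    rw [e]
    exact ((a2 x).mul hxy).mul (a2 y).inv
  have q2 : ∀ i j, ‖g.val i j‖ * ‖w‖ ^ (N y j - N x i) ≤ B := fun i j => by
    rw [← conj]; exact q1.1 i j
  have q3 : ∀ i j, ‖(g⁻¹).val i j‖ * ‖w‖ ^ (N x j - N y i) ≤ B := fun i j => by
    have := q1.2 i j
    rwa [mul_inv_rev, mul_inv_rev, inv_inv, ← mul_assoc, conj] at this
  have w1 := weyl hw c1 g1 (a3 x) (a3 y) q2 B1
  have w2 := weyl hw c1 g1.inv (a3 y) (a3 x) q3 B1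
  obtain ⟨E, E1, E2⟩ := shrink (N x) (2 * ρ) (by positivity)
  have n0 : (0 : ℤ) ≤ n * (2 * ρ) := by positivity
  have hT' : T = n * (2 * ρ) + ρ := by rw [hT]; ring
  refine ⟨k x * dw hw E, mem_image.2 ⟨E - N x, Fintype.mem_piFinset.2 fun i => ?_, by simp⟩,
    k y * dw hw E, mem_image.2 ⟨E - N y, Fintype.mem_piFinset.2 fun i => ?_, by simp⟩, ?_, ?_⟩
  · have := E1 i
    rw [mem_Icc, Pi.sub_apply]
    omega
  · have := E1 i; have := w1 i; have := w2 i
    rw [mem_Icc, Pi.sub_apply]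
    omega
  · have e : (k x * dw hw E)⁻¹ * (k y * dw hw E) = (dw hw E)⁻¹ * g * dw hw E := by
      rw [hg]; group
    rw [e]
    refine ⟨fun i j => ?_, fun i j => ?_⟩
    · rw [conj]
      refine half hw c1 (norm_nonneg _) (g1.1 i j) ((q2 i j).trans B2) ?_
      have := E2 i j; have := w2 j
      omega
    · rw [mul_inv_rev, mul_inv_rev, inv_inv, ← mul_assoc, conj]
      refine half hw c1 (norm_nonneg _) (g1.2 i j) ((q3 i j).trans B2) ?_
      have := E2 i j; have := w1 i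
      omega
  · have e : (k x * dw hw E)⁻¹ * x = (dw hw E)⁻¹ * dw hw (N x) * k' x := by
      conv_lhs => enter [2]; rw [a4 x]
      group
    have z0 := norm_pos_iff.1 h0
    have e2 : Kc (‖w‖ ^ ((n : ℤ) * (2 * ρ))) ((dw hw E)⁻¹ * dw hw (N x)) := by
      rw [dw, dw, dg_inv, dg_mul]
      refine kc_dg _ _ (fun i => ?_) fun i => ?_ <;>
        rw [← zpow_neg, ← zpow_add₀ z0, norm_zpow] <;> have := E1 i
      · exact zpow_le_zpow_right₀ hw.le (by omega)
      · rw [← zpow_neg]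
        exact zpow_le_zpow_right₀ hw.le (by omega)
    rw [e]
    refine (e2.mul (a2 x)).mono ?_
    have e3 : ‖w‖ ^ ((n : ℤ) * (2 * ρ)) = Real.exp (n * (2 * ρ) * Real.log ‖w‖) := by
      rw [← Real.exp_log (zpow_pos h0 _), Real.log_zpow]
      push_cast
      rfl
    have e4 : (n : ℝ) * C ≤ Real.exp (Real.log (n * C + 1)) := by
      rw [Real.exp_log (by positivity)]; linarith
    rw [e3, mul_left_comm]
    refine (mul_le_mul_of_nonneg_left e4 (Real.exp_pos _).le).trans ?_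
    rw [← Real.exp_add]
    refine Real.exp_le_exp.2 ?_
    have b1 := mul_le_mul_of_nonneg_left r2 (show 0 ≤ 2 * n * Real.log ‖w‖ by positivity)
    have b2 : 0 ≤ ((4 * n + 2) * a + 1) * (r + 1) := by positivity
    nlinarith [mul_nonneg lC hr]

end Pool.Agent.Lib.SD.RMb
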