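import Pool.Agent.Lib.SD.Blue

/-! Cocompact lattices of the special linear group have coarse midpoints. -/

noncomputable section

open Finset

namespace Pool.Agent.Lib.SD

namespace SL

variable {K : Type} [NontriviallyNormedField K] {n : ℕ}

lemma det_le {C : ℝ} {g : Matrix (Fin n) (Fin n) K} (h : ∀ i j, ‖g i j‖ ≤ C) :
    ‖g.det‖ ≤ n.factorial * C ^ n := by
  have h1 := Matrix.det_le (abv := NormedField.toAbsoluteValue K) (A := g) (x := C) h
  rw [Fintype.card_fin, nsmul_eq_mul] at h1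
  exact h1

lemma half (K : Type) [NontriviallyNormedField K] : ∃ y : ℝ, ∀ a : K, a ≠ 0 → ∃ b d : K,
    b ≠ 0 ∧ d ≠ 0 ∧ a = b * b * d ∧ ‖d‖ ≤ y ∧ ‖d‖⁻¹ ≤ y := by
  obtain ⟨w, hw⟩ := NormedField.exists_one_lt_norm K
  have h0 : w ≠ 0 := norm_pos_iff.1 (one_pos.trans hw)
  have hy : 1 < ‖w‖ * ‖w‖ := by nlinarith
  refine ⟨‖w‖ * ‖w‖, fun a ha => ?_⟩
  obtain ⟨N, h1, h2⟩ := exists_mem_Ico_zpow (norm_pos_iff.2 ha) hy
  have hb : w ^ N ≠ 0 := zpow_ne_zero N h0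
  have hp : 0 < (‖w‖ * ‖w‖) ^ N := zpow_pos (one_pos.trans hy) N
  have hn : ‖a / (w ^ N * w ^ N)‖ = ‖a‖ / (‖w‖ * ‖w‖) ^ N := by
    rw [norm_div, norm_mul, norm_zpow, mul_zpow]
  refine ⟨w ^ N, a / (w ^ N * w ^ N), hb, div_ne_zero ha (mul_ne_zero hb hb), by field_simp,
    ?_, ?_⟩
  · rw [hn, div_le_iff₀ hp]
    rw [zpow_add_one₀ (one_pos.trans hy).ne'] at h2
    rw [mul_comm]
    exact h2.le
  · rw [hn]
    refine (inv_le_one_of_one_le₀ ?_).trans hy.le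
    rw [le_div_iff₀ hp, one_mul]
    exact h1

lemma le_of_sq {x D : ℝ} (hD : 0 ≤ D) (h : x * x ≤ D * D) : x ≤ D := by
  by_contra h1
  push Not at h1
  nlinarith

lemma det_inv (g : GL (Fin n) K) : (g⁻¹).val.det * g.val.det = 1 := by
  rw [← Matrix.det_mul, Units.inv_mul, Matrix.det_one]

lemma det_bound {C : ℝ} {k₁ b k₂ : GL (Fin n) K} (h1 : Kc C k₁) (h2 : Kc C k₂)
    (h : (k₁ * b * b * k₂).val.det = 1) :
    ‖(k₁ * b).val.det‖ ≤ n.factorial * C ^ n ∧ ‖(k₁ * b).val.det‖⁻¹ ≤ n.factorial * C ^ n := by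
  have a1 := det_le h1.1
  have a2 := det_le h1.2
  have a3 := det_le h2.1
  have a4 := det_le h2.2
  have hD := (norm_nonneg _).trans a1
  have e1 := det_inv k₁
  have e2 := det_inv k₂
  simp only [Units.val_mul, Matrix.det_mul] at h ⊢
  set x := k₁.val.det
  set x' := (k₁⁻¹).val.det
  set z := k₂.val.det
  set z' := (k₂⁻¹).val.det
  set u := b.val.det
  have e3 : x * u * (x * u) = x * z' := by linear_combination (x * z') * h - (x * x * u * u) * e2
  have e4 : (x * u)⁻¹ * (x * u)⁻¹ = x' * z := by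
    rw [← mul_inv]
    exact inv_eq_of_mul_eq_one_right (by linear_combination (x * u * u * z) * e1 + h)
  refine ⟨le_of_sq hD ?_, le_of_sq hD ?_⟩
  · rw [← norm_mul, e3, norm_mul]
    exact mul_le_mul a1 a4 (norm_nonneg _) hD
  · rw [← norm_inv, ← norm_mul, e4, norm_mul]
    exact mul_le_mul a2 a3 (norm_nonneg _) hD

lemma fix_det {D : ℝ} (h : GL (Fin (n + 1)) K) (h1 : ‖h.val.det‖ ≤ D) (h2 : ‖h.val.det‖⁻¹ ≤ D) :
    ∃ e : GL (Fin (n + 1)) K, Kc (max 1 D) e ∧ (h * e).val.det = 1 := by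
  have h0 : h.val.det ≠ 0 := right_ne_zero_of_mul_eq_one (det_inv h)
  have hd : ∀ i : Fin (n + 1), Function.update (fun _ => (1 : K)) 0 (h.val.det)⁻¹ i ≠ 0 := by
    intro i
    rw [Function.update_apply]
    split_ifs
    exacts [inv_ne_zero h0, one_ne_zero]
  refine ⟨dg _ hd, kc_dg _ hd (fun i => ?_) fun i => ?_, ?_⟩
  · rw [Function.update_apply]
    split_ifs
    · rw [norm_inv]
      exact h2.trans (le_max_right _ _)
    · rw [norm_one]
      exact le_max_left _ _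
  · rw [Function.update_apply]
    split_ifs
    · rw [norm_inv, inv_inv]
      exact h1.trans (le_max_right _ _)
    · rw [norm_one, inv_one]
      exact le_max_left _ _
  · rw [Units.val_mul, Matrix.det_mul]
    change _ * (Matrix.diagonal _).det = 1
    rw [Matrix.det_diagonal, prod_update_of_mem (mem_univ _), prod_const_one, mul_one,
      mul_inv_cancel₀ h0]

end SL

open SL Matrix.SpecialLinearGroup in
theorem stSL (hC : St_CAR) (hT : St_TOP) : St_SL := by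
  intro K _ _ n Γ h1 h2
  obtain ⟨h3, C₂, h4⟩ := hT.lat K n _ toGL isEmbedding_toGL Γ h1 h2
  refine ⟨h3, ?_⟩
  rcases n with _ | n
  · exact ⟨0, fun γ => ⟨1, 1, 1, γ, ⟨fun i => i.elim0, fun i => i.elim0⟩,
      ⟨fun i => i.elim0, fun i => i.elim0⟩, fun i => i.elim0, Units.ext (Subsingleton.elim _ _),
      ⟨fun i => i.elim0, fun i => i.elim0⟩⟩⟩
  obtain ⟨C, h5⟩ := hC K (n + 1)
  obtain ⟨y, h6⟩ := half K
  set C₃ : ℝ := max C (((n + 1 : ℕ) : ℝ) * (y * C)) with hC₃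
  set D : ℝ := max 1 ((n + 1).factorial * C₃ ^ (n + 1)) with hD
  refine ⟨max C₃ (((n + 1 : ℕ) : ℝ) * (C₂ * D)), fun γ => ?_⟩
  obtain ⟨k₁, a, k₂, a1, a2, a3, -, a4⟩ := h5 (toGL γ.1)
  obtain ⟨a, ha, rfl⟩ := exists_dg a3
  choose b d hb hd e1 e2 e3 using fun i => h6 (a i) (ha i)
  have b1 : Kc C₃ k₁ := a1.mono (le_max_left _ _)
  have b2 : Kc C₃ (dg d hd * k₂) := ((kc_dg d hd e2 e3).mul a2).mono (le_max_right _ _)
  have b3 : toGL γ.1 = k₁ * dg b hb * dg b hb * (dg d hd * k₂) := by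
    have b4 : dg a ha = dg b hb * dg b hb * dg d hd := by
      rw [dg_mul, dg_mul]
      congr 1
      exact funext e1
    rw [a4, b4]
    simp only [mul_assoc]
  obtain ⟨c1, c2⟩ := det_bound b1 b2 (b := dg b hb) (by rw [← b3]; exact γ.1.2)
  obtain ⟨e, c3, c4⟩ := fix_det _ c1 c2
  obtain ⟨γ', c5⟩ := h4 ⟨_, c4⟩
  have c6 : toGL (⟨_, c4⟩ : Matrix.SpecialLinearGroup (Fin (n + 1)) K) = k₁ * dg b hb * e :=
    Units.ext rfl
  rw [c6] at c5
  refine ⟨k₁, dg b hb, dg d hd * k₂, γ', b1.mono (le_max_left _ _), b2.mono (le_max_left _ _),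
    dg_isDiag b hb, b3, ?_⟩
  have c7 := (c5.mul c3.inv).mono (le_max_right C₃ _)
  rw [mul_assoc, mul_inv_cancel_right] at c7
  exact c7

end Pool.Agent.Lib.SD
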