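import Pool.Agent.Lib.SD.SL
import Pool.Agent.Lib.SD.CAR

/-! The special linear group has a Cartan decomposition. -/

noncomputable section

open Finset

namespace Pool.Agent.Lib.SD

variable {K : Type} [NontriviallyNormedField K] {n : ℕ}

lemma fix_dg {D : ℝ} (x : K) (h0 : x ≠ 0) (h1 : ‖x‖ ≤ D) (h2 : ‖x‖⁻¹ ≤ D) :
    ∃ (e : Fin (n + 1) → K) (he : ∀ i, e i ≠ 0), Kc (max 1 D) (dg e he) ∧
      x * (dg e he).val.det = 1 := by
  have hd : ∀ i : Fin (n + 1), Function.update (fun _ => (1 : K)) 0 x⁻¹ i ≠ 0 := by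
    intro i
    rw [Function.update_apply]
    split_ifs
    exacts [inv_ne_zero h0, one_ne_zero]
  refine ⟨_, hd, kc_dg _ hd (fun i => ?_) fun i => ?_, ?_⟩
  · rw [Function.update_apply]
    split_ifs
    · rw [norm_inv]
      exact h2.trans (le_max_right _ _)
    · rw [norm_one]
      exact le_max_left _ _
  · rw [Function.update_apply]
    split_ifs
    · rw [norm_inv, inv_inv]
      exact h1.trans (le_max_right _ _)
    · rw [norm_one, inv_one]
      exact le_max_left _ _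
  · change _ * (Matrix.diagonal _).det = 1
    rw [Matrix.det_diagonal, prod_update_of_mem (mem_univ _), prod_const_one, mul_one,
      mul_inv_cancel₀ h0]

open SL in
/-- The group of matrices of determinant one has a Cartan decomposition. -/
theorem hasCartan_SL (K : Type) [NontriviallyNormedField K] (n : ℕ) :
    HasCartan (Matrix.SpecialLinearGroup.toGL (n := Fin n) (R := K)).range := by
  have hm : ∀ g : GL (Fin n) K,
      g ∈ (Matrix.SpecialLinearGroup.toGL (n := Fin n) (R := K)).range ↔ g.val.det = 1 := fun g =>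
    ⟨by rintro ⟨s, rfl⟩; exact s.2, fun h => ⟨⟨g.val, h⟩, Units.ext rfl⟩⟩
  rcases n with _ | n
  · exact ⟨1, fun g _ => ⟨1, one_mem _, 1, one_mem _, 1, one_mem _, kc_one, kc_one,
      fun i => i.elim0, Units.ext (Subsingleton.elim _ _)⟩⟩
  obtain ⟨C, h5⟩ := stCAR K (n + 1)
  obtain ⟨y, h6⟩ := half K
  set N : ℝ := ((n + 1 : ℕ) : ℝ)
  set C₃ : ℝ := max C (N * (y * C))
  set D : ℝ := (n + 1).factorial * C₃ ^ (n + 1)
  set E₁ : ℝ := max 1 D
  set E₂ : ℝ := max 1 (D * D)
  refine ⟨max (N * (C₃ * E₁)) (N * (E₂ * (N * (E₂ * (N * (E₁ * C₃)))))), fun g hg => ?_⟩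
  obtain ⟨k₁, a, k₂, a1, a2, a3, -, a4⟩ := h5 g
  obtain ⟨a, ha, rfl⟩ := exists_dg a3
  choose b d hb hd e1 e2 e3 using fun i => h6 (a i) (ha i)
  have b1 : Kc C₃ k₁ := a1.mono (le_max_left _ _)
  have b2 : Kc C₃ (dg d hd * k₂) := ((kc_dg d hd e2 e3).mul a2).mono (le_max_right _ _)
  have b3 : g = k₁ * dg b hb * dg b hb * (dg d hd * k₂) := by
    have b4 : dg a ha = dg b hb * dg b hb * dg d hd := by
      rw [dg_mul, dg_mul]
      congr 1
      exact funext e1
    rw [a4, b4]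
    simp only [mul_assoc]
  obtain ⟨c1, c2⟩ := det_bound b1 b2 (b := dg b hb) (by rw [← b3]; exact (hm g).1 hg)
  have d0 := det_inv k₁
  have d1 : ‖k₁.val.det‖ ≤ D := det_le b1.1
  have d2 : ‖k₁.val.det‖⁻¹ ≤ D := by
    rw [← norm_inv, inv_eq_of_mul_eq_one_left d0]
    exact det_le b1.2
  have d3 : k₁.val.det ≠ 0 := right_ne_zero_of_mul_eq_one d0
  have d4 : ‖(dg b hb).val.det‖ = ‖k₁.val.det‖⁻¹ * ‖(k₁ * dg b hb).val.det‖ := by
    rw [Units.val_mul, Matrix.det_mul, norm_mul, inv_mul_cancel_left₀ (norm_ne_zero_iff.2 d3)]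
  have hD : 0 ≤ D := (norm_nonneg _).trans d1
  obtain ⟨e, he, f1, f2⟩ := fix_dg (n := n) _ d3 d1 d2
  obtain ⟨e', he', f3, f4⟩ := fix_dg (n := n) (D := D * D) (dg b hb).val.det
    (right_ne_zero_of_mul_eq_one (det_inv _))
    (by rw [d4]; exact mul_le_mul d2 c1 (norm_nonneg _) hD)
    (by rw [d4, mul_inv, inv_inv]; exact mul_le_mul d1 c2 (by positivity) hD)
  have g1 : k₁ * dg e he ∈ _ := (hm _).2 (by rw [Units.val_mul, Matrix.det_mul, f2])
  have g2 : dg b hb * dg e' he' ∈ _ := (hm _).2 (by rw [Units.val_mul, Matrix.det_mul, f4])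
  have g3 : g = k₁ * dg e he * (dg b hb * dg e' he') * (dg b hb * dg e' he') *
      ((dg e' he')⁻¹ * ((dg e' he')⁻¹ * ((dg e he)⁻¹ * (dg d hd * k₂)))) := by
    have i3 : dg e he * (dg b hb * dg e' he') * (dg b hb * dg e' he') =
        dg b hb * dg b hb * (dg e he * dg e' he' * dg e' he') := by
      simp only [dg_mul]
      congr 1
      exact funext fun i => by ring
    rw [b3, mul_assoc k₁ (dg e he), mul_assoc k₁ (dg e he * _), i3]
    group
  refine ⟨_, g1, _, g2, _, ?_, (b1.mul f1).mono (le_max_left _ _),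
    (f3.inv.mul (f3.inv.mul (f1.inv.mul b2))).mono (le_max_right _ _), ?_, g3⟩
  · have := mul_mem (inv_mem (mul_mem (mul_mem g1 g2) g2)) hg
    rwa [g3, inv_mul_cancel_left] at this
  · rw [dg_mul]
    exact dg_isDiag _ _

end Pool.Agent.Lib.SD
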