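import Pool.Agent.Lib.SD.A
import Pool.Agent.Lib.SD.CAR
import Pool.Agent.Lib.SD.CHAINb
import Pool.Agent.Lib.SD.CN
import Pool.Agent.Lib.SD.DD
import Pool.Agent.Lib.SD.ENT
import Pool.Agent.Lib.SD.GROW
import Pool.Agent.Lib.SD.MAJ
import Pool.Agent.Lib.SD.N
import Pool.Agent.Lib.SD.PLU
import Pool.Agent.Lib.SD.REDG
import Pool.Agent.Lib.SD.REDMb
import Pool.Agent.Lib.SD.SL
import Pool.Agent.Lib.SD.SLc
import Pool.Agent.Lib.SD.TOP
import Pool.Agent.Lib.SD.TRI

/-! Assembly. -/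

namespace Pool.Agent.Lib.SD

theorem chain : St_CHAIN := CHb.chain
theorem thmA : St_A := stA stENT chain
theorem thmN : St_N := stN stENT
theorem thmCN : St_CN := stCN stCAR stPLU

theorem main {K : Type} [NontriviallyNormedField K] {n : ℕ} {Γ : Type} [Group Γ]
    (ρ : Γ →* GL (Fin n) K) (h1 : Fn ρ) (h2 : Mid ρ) :
    SubexpDecay fun r => {γ | Kc (Real.exp r) (ρ γ)} :=
  main_of thmA thmN (stDD stCAR (stTRI stMAJ)) thmCN stGROW (stREDG thmCN stGROW (RMb.redm stCAR))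
    ρ h1 h2

/-- Cocompact lattices of groups with a Cartan decomposition. -/
theorem decay_gen (K : Type) [NontriviallyNormedField K] [LocallyCompactSpace K] (n : ℕ)
    (G Γ : Subgroup (GL (Fin n) K)) (hG : HasCartan G) (hle : Γ ≤ G) [DiscreteTopology Γ]
    [CompactSpace (G ⧸ Γ.subgroupOf G)] (S : Finset Γ) : SubexpDecay (wordBall S) :=
  have h := stTOP.gen K n G Γ hG hle ‹_› ‹_›
  stTOP.word K n Γ _ (main _ h.1 h.2) S

/-- Cocompact lattices of the special linear group. -/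
theorem decay_SL (K : Type) [NontriviallyNormedField K] [LocallyCompactSpace K] (n : ℕ)
    (Γ : Subgroup (Matrix.SpecialLinearGroup (Fin n) K)) [DiscreteTopology Γ]
    [CompactSpace (Matrix.SpecialLinearGroup (Fin n) K ⧸ Γ)] (S : Finset Γ) :
    SubexpDecay (wordBall S) :=
  have h := stSL stCAR stTOP K n Γ ‹_› ‹_›
  stTOP.word K n Γ _ (main _ h.1 h.2) S

end Pool.Agent.Lib.SD
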