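import Pool.Agent.Lib.SD.Blue
import Pool.Agent.Lib.SD.CATDefs

/-! The geometric input for proper cobounded actions on spaces with midpoints. -/

noncomputable section

open Finset
open scoped Classical Pointwise

namespace Pool.Agent.Lib.SD.CAT

variable {Γ X : Type} [Group Γ] [MetricSpace X] [MulAction Γ X] [IsIsometricSMul Γ X]

lemma d_eq (o : X) (u x : Γ) : dist o ((u⁻¹ * x) • o) = dist (u • o) (x • o) := by
  rw [← dist_smul u, mul_smul, smul_inv_smul]

lemma half {a b m : X} (h : ∀ p : X,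
    dist p m ^ 2 ≤ (dist p a ^ 2 + dist p b ^ 2) / 2 - dist a b ^ 2 / 4) :
    dist a m ≤ dist a b / 2 ∧ dist m b ≤ dist a b / 2 := by
  have h1 := h a
  have h2 := h b
  rw [dist_self] at h1
  rw [dist_self, dist_comm b a, dist_comm b m] at h2
  have := dist_nonneg (x := a) (y := b)
  constructor <;> refine (le_abs_self _).trans (abs_le_of_sq_le_sq ?_ ?_) <;> nlinarith

lemma dyad (hC : HasCNMidpoints X) (o : X) (hp : ∀ R : ℝ, {g : Γ | dist o (g • o) ≤ R}.Finite)
    {D : ℝ} (hD : ∀ x : X, ∃ g : Γ, dist x (g • o) ≤ D) : ∃ N : ℕ, 1 ≤ N ∧ ∀ j : ℕ,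
    ∃ F : Finset Γ, F.card ≤ N ^ 2 ^ j ∧ ∀ g : Γ, dist o (g • o) ≤ 2 * D + 2 ^ j → g ∈ F := by
  refine ⟨(hp (2 * D + 1)).toFinset.card + 1, by omega, fun j => ?_⟩
  induction j with
  | zero => exact ⟨(hp (2 * D + 1)).toFinset, by simp, fun g hg => by simpa using hg⟩
  | succ j ih =>
    obtain ⟨F, h1, h2⟩ := ih
    refine ⟨F * F, card_mul_le.trans ?_, fun g hg => ?_⟩
    · rw [pow_succ, pow_mul, sq]; exact Nat.mul_le_mul h1 h1
    · obtain ⟨m, hm⟩ := hC o (g • o)
      obtain ⟨a1, a2⟩ := half hm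
      obtain ⟨h, hh⟩ := hD m
      rw [pow_succ] at hg
      rw [← mul_inv_cancel_left h g]
      refine mul_mem_mul (h2 _ ?_) (h2 _ ?_)
      · linarith [dist_triangle o m (h • o)]
      · rw [d_eq]; linarith [dist_triangle (h • o) m (g • o), dist_comm m (h • o)]

lemma grow (hC : HasCNMidpoints X) (o : X) (hp : ∀ R : ℝ, {g : Γ | dist o (g • o) ≤ R}.Finite)
    {D : ℝ} (hD : ∀ x : X, ∃ g : Γ, dist x (g • o) ≤ D) : ∃ C₁ C₂ : ℝ, 0 < C₁ ∧ 0 ≤ C₂ ∧
    ∀ F : Finset Γ, ∑ g ∈ F, Real.exp (-(C₁ * dist o (g • o))) ≤ Real.exp C₂ := by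
  obtain ⟨N, hN, h⟩ := dyad hC o hp hD
  have D0 : 0 ≤ D := by obtain ⟨g, hg⟩ := hD o; exact dist_nonneg.trans hg
  set c := 2 * Real.log N with hc
  have c0 : 0 ≤ c := by have := Real.log_natCast_nonneg N; positivity
  have card : ∀ k : ℕ, ∃ F : Finset Γ, (F.card : ℝ) ≤ Real.exp (c * (k + 1)) ∧
      ∀ g : Γ, dist o (g • o) ≤ k → g ∈ F := fun k => by
    obtain ⟨F, h1, h2⟩ := h (Nat.log 2 k + 1)
    have a1 : k < 2 ^ (Nat.log 2 k + 1) := Nat.lt_pow_succ_log_self (by norm_num) k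
    have a2 : 2 ^ (Nat.log 2 k + 1) ≤ 2 * (k + 1) := by
      rcases Nat.eq_zero_or_pos k with rfl | hk
      · simp
      · have := Nat.pow_log_le_self 2 hk.ne'
        rw [pow_succ]; omega
    refine ⟨F, ?_, fun g hg => h2 g ?_⟩
    · have : (F.card : ℝ) ≤ (N : ℝ) ^ (2 * (k + 1)) := by
        exact_mod_cast h1.trans (Nat.pow_le_pow_right hN a2)
      refine this.trans (le_of_eq ?_)
      rw [show c * (k + 1) = ((2 * (k + 1) : ℕ) : ℝ) * Real.log N by push_cast; ring,
        Real.exp_nat_mul, Real.exp_log (by exact_mod_cast hN)]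
    · have : (k : ℝ) ≤ 2 ^ (Nat.log 2 k + 1) := by exact_mod_cast a1.le
      linarith
  choose T hT1 hT2 using card
  refine ⟨c + 1, 2 * c + 2, by positivity, by positivity, fun F => ?_⟩
  set k : Γ → ℕ := fun g => ⌈dist o (g • o)⌉₊ with hk
  rw [← sum_fiberwise_of_maps_to (t := range (F.sup k + 1)) (g := k)
    fun g hg => mem_range.2 (Nat.lt_succ_of_le (le_sup hg))]
  have e1 : (2 : ℝ) ≤ Real.exp 1 := by linarith [Real.add_one_le_exp (1 : ℝ)]
  calc _ ≤ ∑ j ∈ range (F.sup k + 1), Real.exp (2 * c + 1) * (1 / 2) ^ j :=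
        sum_le_sum fun j _ => ?_
    _ ≤ Real.exp (2 * c + 1) * 2 := by
        rw [← mul_sum]; gcongr; exact sum_geometric_two_le _
    _ ≤ _ := by
        rw [show 2 * c + 2 = 2 * c + 1 + 1 by ring, Real.exp_add (2 * c + 1)]; gcongr
  calc _ ≤ ((F.filter fun g => k g = j).card : ℝ) * Real.exp (-((c + 1) * (j - 1))) := by
        rw [← nsmul_eq_mul]
        refine sum_le_card_nsmul _ _ _ fun g hg => Real.exp_le_exp.2 ?_
        have h1 := Nat.ceil_lt_add_one (dist_nonneg (x := o) (y := g • o))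
        have h2 : k g = j := (mem_filter.1 hg).2
        simp only [hk] at h2
        rw [h2] at h1
        nlinarith
    _ ≤ Real.exp (c * (j + 1)) * Real.exp (-((c + 1) * (j - 1))) := by
        gcongr
        refine le_trans ?_ (hT1 j)
        have : (F.filter fun g => k g = j) ⊆ T j := fun g hg =>
          hT2 j g ((mem_filter.1 hg).2 ▸ Nat.le_ceil _)
        exact_mod_cast card_le_card this
    _ = Real.exp (2 * c + 1) * Real.exp (-1) ^ j := by
        rw [← Real.exp_add, ← Real.exp_nat_mul, ← Real.exp_add]; congr 1; ring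
    _ ≤ _ := by
        gcongr
        rw [Real.exp_neg, one_div]
        exact inv_anti₀ two_pos e1

theorem geo (hC : HasCNMidpoints X) (hT : HasThinCovers X) (o : X)
    (hp : ∀ R : ℝ, {g : Γ | dist o (g • o) ≤ R}.Finite)
    (hD : ∃ D : ℝ, ∀ x : X, ∃ g : Γ, dist x (g • o) ≤ D) :
    Geo (fun g : Γ => dist o (g • o)) fun r => {g : Γ | dist o (g • o) ≤ r} := by
  obtain ⟨D, hD⟩ := hD
  have D0 : 0 ≤ D := by obtain ⟨g, hg⟩ := hD o; exact dist_nonneg.trans hg
  refine ⟨fun _ => dist_nonneg, fun r g hg => ?_, grow hC o hp hD, ⟨2 * D, by positivity,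
    fun g => ?_⟩, ?_⟩
  · change dist o (g⁻¹ • o) ≤ r
    rw [← dist_smul g, smul_inv_smul, dist_comm]
    exact hg
  · obtain ⟨m, hm⟩ := hC o (g • o)
    obtain ⟨h, hh⟩ := hD m
    refine ⟨h, fun p => ?_⟩
    have h1 := hm (p • o)
    have h2 := dist_triangle (p • o) m (h • o)
    simp only [d_eq]
    rw [dist_comm (h • o), dist_comm o (p • o), dist_comm (g • o) (p • o)]
    have a1 := dist_nonneg (x := p • o) (y := m)
    have a2 := dist_nonneg (x := p • o) (y := o)
    have a3 := dist_nonneg (x := p • o) (y := g • o)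
    have a4 := dist_nonneg (x := p • o) (y := h • o)
    generalize dist (p • o) m = d at *
    generalize dist (p • o) o = A at *
    generalize dist (p • o) (g • o) = B at *
    generalize dist (p • o) (h • o) = e at *
    have a5 := sq_nonneg (dist o (g • o))
    generalize dist o (g • o) ^ 2 = G at *
    have a6 : d ≤ A + B := by nlinarith
    have a7 : e ^ 2 ≤ (d + D) ^ 2 := by gcongr; linarith
    nlinarith
  · obtain ⟨C, hT⟩ := hT
    refine ⟨|C| + 1, by positivity, fun ε hε => ?_⟩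
    obtain ⟨r₀, hT⟩ := hT ε hε
    refine ⟨max r₀ 0, fun r hr => ?_⟩
    have r0 : 0 ≤ r := (le_max_right _ _).trans hr
    obtain ⟨𝒰, h1, h2, h3⟩ := hT r ((le_max_left _ _).trans hr)
    have pick : ∀ U : Set X, ∃ u : Γ, (∃ x : Γ, x • o ∈ U) → u • o ∈ U := fun U => by
      by_cases h : ∃ x : Γ, x • o ∈ U
      · obtain ⟨x, hx⟩ := h; exact ⟨x, fun _ => hx⟩
      · exact ⟨1, fun h' => absurd h' h⟩
    choose γ hγ using pick
    refine ⟨fun x => (h3 (x • o)).1.toFinset.image γ, fun x => ?_, fun x y hxy => ?_⟩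
    · refine le_trans ?_ (h3 (x • o)).2
      rw [Set.ncard_eq_toFinset_card _ (h3 (x • o)).1]
      exact_mod_cast card_image_le
    · obtain ⟨U, hU, hx⟩ := h1 (x • o)
      have e1 : dist (x • o) (y • o) ≤ r := by rw [← d_eq]; exact hxy
      have e2 := (h2 U hU _ (hγ U ⟨x, hx⟩) _ hx).trans
        (mul_le_mul_of_nonneg_right (le_abs_self C) r0)
      refine ⟨γ U, mem_image_of_mem _ ?_, mem_image_of_mem _ ?_, ?_, ?_⟩
      · simpa using ⟨hU, _, hx, by simpa using r0⟩
      · simpa using ⟨hU, _, hx, by rwa [dist_comm]⟩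
      · simp only [d_eq]; linarith
      · simp only [d_eq]; linarith [dist_triangle (γ U • o) (x • o) (y • o)]

lemma word (o : X) (h : SubexpDecay fun r => {g : Γ | dist o (g • o) ≤ r}) (S : Finset Γ) :
    SubexpDecay (wordBall S) := by
  obtain ⟨c, c0, hc⟩ : ∃ c : ℝ, 0 < c ∧ ∀ s ∈ S, dist o (s • o) ≤ c :=
    ⟨∑ s ∈ S, dist o (s • o) + 1, by positivity, fun s hs => by
      linarith [single_le_sum (f := fun s : Γ => dist o (s • o)) (fun _ _ => dist_nonneg) hs]⟩
  have key : ∀ l : List Γ, (∀ s ∈ l, s ∈ S ∨ s⁻¹ ∈ S) → dist o (l.prod • o) ≤ c * l.length := by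
    intro l hl
    induction l with
    | nil => simp
    | cons s l ih =>
      have h1 := ih fun t ht => hl t (List.mem_cons_of_mem _ ht)
      have h2 : dist o (s • o) ≤ c := by
        rcases hl s List.mem_cons_self with h | h
        · exact hc s h
        · have := hc _ h
          rwa [← dist_smul s, smul_inv_smul, dist_comm] at this
      have h3 := dist_triangle o (s • o) (s • l.prod • o)
      rw [dist_smul] at h3
      rw [List.prod_cons, mul_smul, List.length_cons]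
      push_cast
      linarith
  intro ε hε
  obtain ⟨C, hC⟩ := h (ε / c) (by positivity)
  refine ⟨C, fun r hr f g hf => ?_⟩
  have := hC (c * r) (by positivity) f g fun x hx => by
    obtain ⟨l, h1, h2, rfl⟩ := hf x hx
    exact (key l h2).trans (by gcongr)
  rwa [show ε / c * (c * r) = ε * r by field_simp] at this

theorem main (hA : St_A) (hN : St_N) (hC : HasCNMidpoints X) (hT : HasThinCovers X) (o : X)
    (hp : ∀ R : ℝ, {g : Γ | dist o (g • o) ≤ R}.Finite)
    (hD : ∃ D : ℝ, ∀ x : X, ∃ g : Γ, dist x (g • o) ≤ D) :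
    SubexpDecay (fun r => {g : Γ | dist o (g • o) ≤ r}) ∧
      ∀ S : Finset Γ, SubexpDecay (wordBall S) :=
  have h : SubexpDecay fun r => {g : Γ | dist o (g • o) ≤ r} :=
    hN.sd _ (fun _ _ h _ hg => le_trans hg h) (hA _ _ (geo hC hT o hp hD))
  ⟨h, word o h⟩

end Pool.Agent.Lib.SD.CAT
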