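import Pool.Agent.Lib.SD.Blue

/-! Theorem A: the entropy excess of triangles with a short side is sublinear. -/

noncomputable section

open Finset

namespace Pool.Agent.Lib.SD

open Pool.Agent.Lib.U4

namespace A

variable {Γ Ω : Type} [Group Γ] [Fintype Ω]

lemma Dx_symm (P : FP Ω) (X Y : Ω → Γ) : Dx P Y X = Dx P X Y := by
  have h1 : (P.H fun a => (Y a, X a)) = P.H fun a => (X a, Y a) :=
    stE1.H_congr P _ _ fun a b _ _ => by simp only [Prod.mk.injEq, and_comm]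
  have h2 : (P.H fun a => (Y a)⁻¹ * X a) = P.H fun a => (X a)⁻¹ * Y a :=
    stE1.H_congr P _ _ fun a b _ _ => by rw [← inv_inj]; simp only [mul_inv_rev, inv_inv]
  unfold Dx
  rw [h1, h2]
  ring

lemma H_mul_le (P : FP Ω) (X Y : Ω → Γ) : (P.H fun a => (X a)⁻¹ * Y a) ≤ P.H X + P.H Y :=
  (stE1.H_mono P (fun a => (X a, Y a)) _ fun a b _ _ h => by
    rw [(Prod.mk.inj h).1, (Prod.mk.inj h).2]).trans (stE1.H_pair_le P X Y)

lemma tel (P : FP Ω) (q : ℕ → Ω → Γ) (N : ℕ) :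
    2 * (P.H (q 0) + ∑ j ∈ range N, ((P.H fun a => (q j a, q (j + 1) a)) - P.H (q j))) =
      ∑ j ∈ range N, Dx P (q j) (q (j + 1)) +
        ∑ j ∈ range N, (P.H fun a => (q j a)⁻¹ * q (j + 1) a) + P.H (q 0) + P.H (q N) := by
  induction N with
  | zero => simp [two_mul]
  | succ N ih =>
    simp only [sum_range_succ]
    unfold Dx at ih ⊢
    linarith

omit [Group Γ] in
lemma H_le (hE : St_ENT) {ℓ : Γ → ℝ} {C₁ C₂ : ℝ}
    (hg : ∀ F : Finset Γ, ∑ g ∈ F, Real.exp (-(C₁ * ℓ g)) ≤ Real.exp C₂) (P : FP Ω) (X : Ω → Γ) :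
    P.H X ≤ C₁ * (P.E fun a => ℓ (X a)) + C₂ := by
  have h := hE.gib P X (fun x => Real.exp (-(C₁ * ℓ x)) / Real.exp C₂) (fun x => by positivity)
    (fun a _ => by positivity) fun F => by
      rw [← sum_div, div_le_one (Real.exp_pos _)]
      exact hg F
  rw [← stE2.E_smul, ← stE2.E_const P C₂, ← stE2.E_add]
  refine h.trans (stE2.E_mono P _ _ fun a _ => le_of_eq ?_)
  rw [← Real.exp_sub, Real.log_exp]
  ring

/-- The size of a random triangle. -/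
def sz (ℓ : Γ → ℝ) (P : FP Ω) (X Y : Ω → Γ) : ℝ := P.E fun a => ℓ (X a) ^ 2 + ℓ (Y a) ^ 2

omit [Group Γ] in
lemma sz_nonneg (ℓ : Γ → ℝ) (P : FP Ω) (X Y : Ω → Γ) : 0 ≤ sz ℓ P X Y :=
  sum_nonneg fun a _ => mul_nonneg (P.nn a) (by positivity)

/-- There is a random triangle with short side in `B`, excess at least `d`, size at most `s`. -/
def Tri (ℓ : Γ → ℝ) (B : Set Γ) (d s : ℝ) : Prop :=
  ∃ (Ω : Type) (_ : Fintype Ω) (P : FP Ω) (X Y : Ω → Γ),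
    (∀ a, 0 < P.w a → (X a)⁻¹ * Y a ∈ B) ∧ d ≤ Dx P X Y ∧ sz ℓ P X Y ≤ s

/-- Moving the apex. -/
lemma red (hE : St_ENT) (P : FP Ω) (X Y U : Ω → Γ) (S : Γ → Finset Γ) (M : ℝ)
    (hS : ∀ x, ((S x).card : ℝ) ≤ Real.exp M) (h1 : ∀ a, 0 < P.w a → U a ∈ S (X a))
    (h2 : ∀ a, 0 < P.w a → U a ∈ S (Y a)) :
    Dx P X Y ≤ Dx P (fun a => (U a)⁻¹ * X a) (fun a => (U a)⁻¹ * Y a) + 2 * M := by
  have h3 := hE.cond P X U S M hS h1
  have h4 := hE.cond P Y U S M hS h2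
  have h5 := stE1.H_sub P (fun a => ((U a)⁻¹ * X a, (U a)⁻¹ * Y a)) (fun a => (X a, U a))
    (fun a => (U a)⁻¹ * X a) (fun a => (X a, Y a)) (fun a b _ _ h => (Prod.mk.inj h).1)
    (fun a b _ _ h => by rw [(Prod.mk.inj h).1, (Prod.mk.inj h).2]) fun a b _ _ h h' => by
      have e := (Prod.mk.inj h).2
      rw [(Prod.mk.inj h').2, mul_right_inj] at e
      rw [e, (Prod.mk.inj h').1]
  have h6 := stE1.H_sub P (fun a => ((U a)⁻¹ * X a, (U a)⁻¹ * Y a)) (fun a => (Y a, U a))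
    (fun a => (U a)⁻¹ * Y a) (fun a => (X a, Y a)) (fun a b _ _ h => (Prod.mk.inj h).2)
    (fun a b _ _ h => by rw [(Prod.mk.inj h).1, (Prod.mk.inj h).2]) fun a b _ _ h h' => by
      have e := (Prod.mk.inj h).1
      rw [(Prod.mk.inj h').2, mul_right_inj] at e
      rw [e, (Prod.mk.inj h').1]
  have h7 : (P.H fun a => ((U a)⁻¹ * X a)⁻¹ * ((U a)⁻¹ * Y a)) = P.H fun a => (X a)⁻¹ * Y a := by
    congr 1
    funext a
    group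
  unfold Dx
  rw [h7]
  linarith

/-- The potential of an apex `u` for a chain `p`. -/
def Phi (ℓ : Γ → ℝ) (N : ℕ) (p : ℕ → Γ) (u : Γ) : ℝ :=
  ∑ j ∈ range N, (ℓ (u⁻¹ * p j) ^ 2 + ℓ (u⁻¹ * p (j + 1)) ^ 2)

lemma exists_min (ℓ : Γ → ℝ) (N : ℕ) (p : ℕ → Γ) : ∃ u, ∀ v, Phi ℓ N p u ≤ Phi ℓ N p v + 1 := by
  have hb : BddBelow (Set.range (Phi ℓ N p)) :=
    ⟨0, by rintro _ ⟨v, rfl⟩; exact sum_nonneg fun _ _ => by positivity⟩
  obtain ⟨_, ⟨u, rfl⟩, hu⟩ := exists_lt_of_csInf_lt (Set.range_nonempty (Phi ℓ N p))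
    (lt_add_one (sInf (Set.range (Phi ℓ N p))))
  exact ⟨u, fun v => by linarith [csInf_le hb ⟨v, rfl⟩]⟩

lemma sq_le {a κ τ : ℝ} (hτ : 0 < τ) : (a + κ) ^ 2 ≤ (1 + τ) * a ^ 2 + (1 + 1 / τ) * κ ^ 2 := by
  have h : 0 ≤ (τ * a - κ) ^ 2 / τ := by positivity
  have e : (τ * a - κ) ^ 2 / τ = τ * a ^ 2 - 2 * a * κ + 1 / τ * κ ^ 2 := by
    field_simp
    ring
  nlinarith

lemma drop {ℓ : Γ → ℝ} {κ τ : ℝ} (hτ : 0 < τ) (hc : ∀ g, ∃ m, ∀ p,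
    2 * ℓ (m⁻¹ * p) ^ 2 + ℓ g ^ 2 / 4 ≤ (ℓ p + κ) ^ 2 + (ℓ (g⁻¹ * p) + κ) ^ 2) {N : ℕ}
    (hN : 1 ≤ N) (p : ℕ → Γ) (u : Γ) (hu : ∀ v, Phi ℓ N p u ≤ Phi ℓ N p v + 1) :
    Phi ℓ N p u + N / 2 * ℓ u ^ 2 ≤
      (1 + 2 * τ) * Phi ℓ N p 1 + N * (2 + τ + 4 * ((1 + 1 / τ) * κ ^ 2)) := by
  obtain ⟨m, hm⟩ := hc u
  have h1 : 2 * Phi ℓ N p m + N / 2 * ℓ u ^ 2 ≤
      (1 + τ) * (Phi ℓ N p 1 + Phi ℓ N p u) + N * (4 * ((1 + 1 / τ) * κ ^ 2)) := by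
    have h2 : ∑ j ∈ range N, (2 * (ℓ (m⁻¹ * p j) ^ 2 + ℓ (m⁻¹ * p (j + 1)) ^ 2) + 1 / 2 * ℓ u ^ 2) ≤
        ∑ j ∈ range N, ((1 + τ) * ((ℓ (1⁻¹ * p j) ^ 2 + ℓ (1⁻¹ * p (j + 1)) ^ 2) +
          (ℓ (u⁻¹ * p j) ^ 2 + ℓ (u⁻¹ * p (j + 1)) ^ 2)) + 4 * ((1 + 1 / τ) * κ ^ 2)) :=
      sum_le_sum fun j _ => by
        rw [inv_one, one_mul (p j), one_mul (p (j + 1))]
        linarith [hm (p j), hm (p (j + 1)), sq_le (a := ℓ (p j)) (κ := κ) hτ,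
          sq_le (a := ℓ (p (j + 1))) (κ := κ) hτ, sq_le (a := ℓ (u⁻¹ * p j)) (κ := κ) hτ,
          sq_le (a := ℓ (u⁻¹ * p (j + 1))) (κ := κ) hτ]
    have h6 : ∑ j ∈ range N, (2 * (ℓ (m⁻¹ * p j) ^ 2 + ℓ (m⁻¹ * p (j + 1)) ^ 2) + 1 / 2 * ℓ u ^ 2) =
        2 * Phi ℓ N p m + N * (1 / 2 * ℓ u ^ 2) := by
      rw [sum_add_distrib, ← mul_sum, sum_const, card_range, nsmul_eq_mul, Phi]
    have h7 : ∑ j ∈ range N, ((1 + τ) * ((ℓ (1⁻¹ * p j) ^ 2 + ℓ (1⁻¹ * p (j + 1)) ^ 2) +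
          (ℓ (u⁻¹ * p j) ^ 2 + ℓ (u⁻¹ * p (j + 1)) ^ 2)) + 4 * ((1 + 1 / τ) * κ ^ 2)) =
        (1 + τ) * (Phi ℓ N p 1 + Phi ℓ N p u) + N * (4 * ((1 + 1 / τ) * κ ^ 2)) := by
      rw [sum_add_distrib, ← mul_sum, sum_add_distrib, sum_const, card_range, nsmul_eq_mul, Phi, Phi]
    linarith
  have h3 : (1 : ℝ) ≤ N := by exact_mod_cast hN
  have h4 := mul_le_mul_of_nonneg_left (hu 1) hτ.le
  have h5 := mul_le_mul_of_nonneg_right h3 (show 0 ≤ 2 + τ by positivity)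
  linarith [hu m]

/-- One round, in averaged form. -/
lemma round (hE : St_ENT) (hC : St_CHAIN) {ℓ : Γ → ℝ} {B : Set Γ} (hB : ∀ g ∈ B, g⁻¹ ∈ B)
    {κ τ D : ℝ} (hτ : 0 < τ) (hc : ∀ g, ∃ m, ∀ p,
      2 * ℓ (m⁻¹ * p) ^ 2 + ℓ g ^ 2 / 4 ≤ (ℓ p + κ) ^ 2 + (ℓ (g⁻¹ * p) + κ) ^ 2)
    (hD : Exc B D) (P : FP Ω) (X Y : Ω → Γ) (hXY : ∀ a, 0 < P.w a → (X a)⁻¹ * Y a ∈ B) (M : ℕ) :
    ∃ (Ω' : Type) (_ : Fintype Ω') (Q : FP Ω') (q : ℕ → Ω' → Γ) (u : Ω' → Γ),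
      (∀ j < M + 1, ∀ a, 0 < Q.w a → (q j a)⁻¹ * q (j + 1) a ∈ B) ∧
      (M + 1 : ℕ) * Dx P X Y - M * D ≤ 2 * Q.H u ∧
      (M + 1 : ℕ) * Dx P X Y - 4 * Q.H u ≤ ∑ j ∈ range (M + 1), Dx Q (q j) (q (j + 1)) ∧
      ∑ j ∈ range (M + 1), sz ℓ Q (q j) (q (j + 1)) + (M + 1 : ℕ) / 2 * (Q.E fun a => ℓ (u a) ^ 2) ≤
        (1 + 2 * τ) * ((M + 1 : ℕ) * sz ℓ P X Y) +
          (M + 1 : ℕ) * (2 + τ + 4 * ((1 + 1 / τ) * κ ^ 2)) := by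
  set N := M + 1 with hN
  let V : ℕ → Ω → Γ := fun j => if Even j then X else Y
  have hV : ∀ j, (V j = X ∧ V (j + 1) = Y) ∨ (V j = Y ∧ V (j + 1) = X) := fun j => by
    by_cases h : Even j
    · exact Or.inl ⟨if_pos h, if_neg (by simpa [Nat.even_add_one] using h)⟩
    · exact Or.inr ⟨if_neg h, if_pos (by simpa [Nat.even_add_one] using h)⟩
  obtain ⟨Ω', _, Q, p, l0, -, l1, l2⟩ := hC P V N
  have e0 : Q.H (p 0) = P.H (V 0) := hE.lawH _ _ _ _ l0 id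
  have e1 : ∀ j < N, (Q.H fun a => (p j a, p (j + 1) a)) = P.H fun a => (V j a, V (j + 1) a) :=
    fun j hj => hE.lawH _ _ _ _ (l1 j hj) id
  have e2 : ∀ j < N, Q.H (p j) = P.H (V j) := fun j hj => hE.lawH _ _ _ _ (l1 j hj) Prod.fst
  have e3 : ∀ j < N, Dx Q (p j) (p (j + 1)) = Dx P X Y := fun j hj => by
    have h1 : Dx Q (p j) (p (j + 1)) = Dx P (V j) (V (j + 1)) := by
      unfold Dx
      rw [e1 j hj, e2 j hj, show Q.H (p (j + 1)) = P.H (V (j + 1)) from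
        hE.lawH _ _ _ _ (l1 j hj) Prod.snd, show (Q.H fun a => (p j a)⁻¹ * p (j + 1) a) = _ from
        hE.lawH _ _ _ _ (l1 j hj) fun z => z.1⁻¹ * z.2]
    rcases hV j with ⟨h2, h3⟩ | ⟨h2, h3⟩ <;> rw [h1, h2, h3]
    exact Dx_symm P X Y
  have e4 : ∀ j < N, sz ℓ Q (p j) (p (j + 1)) = sz ℓ P X Y := fun j hj => by
    have h1 : sz ℓ Q (p j) (p (j + 1)) = sz ℓ P (V j) (V (j + 1)) :=
      l1 j hj fun z => ℓ z.1 ^ 2 + ℓ z.2 ^ 2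
    rcases hV j with ⟨h2, h3⟩ | ⟨h2, h3⟩ <;> rw [h1, h2, h3]
    exact stE2.E_congr P _ _ fun a _ => add_comm _ _
  have e5 : ∀ j < N, ∀ a, 0 < Q.w a → (p j a)⁻¹ * p (j + 1) a ∈ B := fun j hj =>
    hE.lawS _ _ _ _ (l1 j hj) (fun z => z.1⁻¹ * z.2 ∈ B) fun a ha => by
      rcases hV j with ⟨h2, h3⟩ | ⟨h2, h3⟩ <;> simp only [h2, h3]
      · exact hXY a ha
      · simpa using hB _ (hXY a ha)
  have c1 : N * Dx P X Y + ∑ j ∈ range N, (Q.H fun a => (p j a)⁻¹ * p (j + 1) a) + Q.H (p 0) +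
      Q.H (p N) ≤ 2 * Q.H (tup p N) := by
    have h1 := tel Q p N
    rw [sum_congr rfl fun j hj => e3 j (mem_range.1 hj), sum_const, card_range, nsmul_eq_mul,
      sum_congr rfl fun j hj => show (Q.H fun a => (p j a, p (j + 1) a)) - Q.H (p j) = _ by
        rw [e1 j (mem_range.1 hj), e2 j (mem_range.1 hj)]] at h1
    rw [← e0] at l2
    linarith
  let W : Ω' → Fin (N + 1) → Γ := tup (fun j a => (p 0 a)⁻¹ * p j a) N
  have fan : ∀ v : Ω' → Γ, 2 * Q.H W ≤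
      ∑ j ∈ range N, Dx Q (fun a => (v a)⁻¹ * p j a) (fun a => (v a)⁻¹ * p (j + 1) a) +
        ∑ j ∈ range N, (Q.H fun a => (p j a)⁻¹ * p (j + 1) a) +
          (Q.H fun a => (v a)⁻¹ * p 0 a) + Q.H fun a => (v a)⁻¹ * p N a := fun v => by
    have h1 := hE.sub Q (fun j a => (v a)⁻¹ * p j a) N
    have h2 := tel Q (fun j a => (v a)⁻¹ * p j a) N
    have h3 : Q.H W ≤ Q.H (tup (fun j a => (v a)⁻¹ * p j a) N) :=
      stE1.H_mono Q _ _ fun a b _ _ h => funext fun j => by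
        have h4 : (v a)⁻¹ * p 0 a = (v b)⁻¹ * p 0 b := congrFun h 0
        have h5 : (v a)⁻¹ * p j a = (v b)⁻¹ * p j b := congrFun h j
        calc (p 0 a)⁻¹ * p j a = ((v a)⁻¹ * p 0 a)⁻¹ * ((v a)⁻¹ * p j a) := by group
          _ = (p 0 b)⁻¹ * p j b := by rw [h4, h5]; group
    have h6 : ∀ j, (fun a => ((v a)⁻¹ * p j a)⁻¹ * ((v a)⁻¹ * p (j + 1) a)) =
        fun a => (p j a)⁻¹ * p (j + 1) a := fun j => funext fun a => by group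
    simp only [h6] at h2
    linarith
  choose φ hφ using fun t : Fin (N + 1) → Γ => exists_min ℓ N fun j => t (Fin.ofNat (N + 1) j)
  let u : Ω' → Γ := fun a => p 0 a * φ (W a)
  have hP : ∀ a v, Phi ℓ N (fun j => W a (Fin.ofNat (N + 1) j)) v =
      Phi ℓ N (fun j => p j a) (p 0 a * v) := fun a v => sum_congr rfl fun j hj => by
    have h1 : j % (N + 1) = j := Nat.mod_eq_of_lt (by have := mem_range.1 hj; omega)
    have h2 : (j + 1) % (N + 1) = j + 1 := Nat.mod_eq_of_lt (by have := mem_range.1 hj; omega)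
    simp only [W, tup, Fin.val_ofNat, h1, h2, mul_inv_rev, mul_assoc]
  have hu : ∀ a v, Phi ℓ N (fun j => p j a) (u a) ≤ Phi ℓ N (fun j => p j a) v + 1 := fun a v => by
    have := hφ (W a) ((p 0 a)⁻¹ * v)
    rwa [hP, hP, mul_inv_cancel_left] at this
  have c2 : Q.H (tup p N) ≤ Q.H W + Q.H u :=
    (stE1.H_mono Q (fun a => (W a, u a)) _ fun a b _ _ h => funext fun j => by
      have h1 := (Prod.mk.inj h).1
      have h2 : p 0 a * φ (W a) = p 0 b * φ (W b) := (Prod.mk.inj h).2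
      rw [h1, mul_left_inj] at h2
      have h3 : (p 0 a)⁻¹ * p j a = (p 0 b)⁻¹ * p j b := congrFun h1 j
      rwa [h2, mul_right_inj] at h3).trans (stE1.H_pair_le Q W u)
  refine ⟨Ω', _, Q, fun j a => (u a)⁻¹ * p j a, u, fun j hj a ha => ?_, ?_, ?_, ?_⟩
  · have := e5 j hj a ha
    rwa [show ((u a)⁻¹ * p j a)⁻¹ * ((u a)⁻¹ * p (j + 1) a) = (p j a)⁻¹ * p (j + 1) a by group]
  · have h1 := fan (p 0)
    have h2 : (Q.H fun a => (p 0 a)⁻¹ * p 0 a) = 0 := by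
      simp only [inv_mul_cancel]
      exact stE1.H_const Q 1
    have h3 : Dx Q (fun a => (p 0 a)⁻¹ * p 0 a) (fun a => (p 0 a)⁻¹ * p (0 + 1) a) ≤ 0 := by
      unfold Dx
      have h4 : (Q.H fun a => ((p 0 a)⁻¹ * p 0 a, (p 0 a)⁻¹ * p (0 + 1) a)) ≤
          Q.H fun a => (p 0 a)⁻¹ * p (0 + 1) a :=
        stE1.H_mono Q _ _ fun a b _ _ h => by rw [h, inv_mul_cancel, inv_mul_cancel]
      simp only [inv_mul_cancel, inv_one, one_mul] at h4 h2 ⊢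
      linarith
    have h5 : ∑ j ∈ range M, Dx Q (fun a => (p 0 a)⁻¹ * p (j + 1) a)
        (fun a => (p 0 a)⁻¹ * p (j + 1 + 1) a) ≤ M * D := by
      refine (sum_le_card_nsmul _ _ D fun j hj => hD _ Q _ _ fun a ha => ?_).trans (by simp)
      have := e5 (j + 1) (by have := mem_range.1 hj; omega) a ha
      rwa [show ((p 0 a)⁻¹ * p (j + 1) a)⁻¹ * ((p 0 a)⁻¹ * p (j + 1 + 1) a) =
        (p (j + 1) a)⁻¹ * p (j + 1 + 1) a by group]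
    have h6 := sum_range_succ' (fun j => Dx Q (fun a => (p 0 a)⁻¹ * p j a)
      fun a => (p 0 a)⁻¹ * p (j + 1) a) M
    linarith [H_mul_le Q (p 0) (p N)]
  · linarith [fan u, H_mul_le Q u (p 0), H_mul_le Q u (p N)]
  · have h1 := stE2.E_mono Q _ _ fun a _ => drop hτ hc (Nat.le_add_left 1 M) (fun j => p j a) (u a)
      (hu a)
    rw [stE2.E_add, stE2.E_add, stE2.E_smul, stE2.E_smul, stE2.E_const] at h1
    unfold Phi at h1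
    rw [stE2.E_sum, stE2.E_sum] at h1
    simp only [inv_one, one_mul] at h1
    have h2 : ∑ j ∈ range N, sz ℓ Q (p j) (p (j + 1)) = N * sz ℓ P X Y := by
      rw [sum_congr rfl fun j hj => e4 j (mem_range.1 hj), sum_const, card_range, nsmul_eq_mul]
    rw [← h2]
    exact h1

/-- One round: the size drops, the deficiency is multiplied by a constant. -/
lemma step (hE : St_ENT) (hC : St_CHAIN) {ℓ : Γ → ℝ} {B : Set Γ} (hB : ∀ g ∈ B, g⁻¹ ∈ B)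
    {κ τ D C₁ C₂ θ s₀ Δ R β : ℝ} (hτ : 0 < τ) (hc : ∀ g, ∃ m, ∀ p,
      2 * ℓ (m⁻¹ * p) ^ 2 + ℓ g ^ 2 / 4 ≤ (ℓ p + κ) ^ 2 + (ℓ (g⁻¹ * p) + κ) ^ 2)
    (hD : Exc B D) (h₁ : 0 < C₁)
    (hg : ∀ F : Finset Γ, ∑ g ∈ F, Real.exp (-(C₁ * ℓ g)) ≤ Real.exp C₂) (hθ : 0 < θ) (hθD : θ ≤ D)
    (h₂ : C₂ ≤ θ / 8) (hΔ : 0 < Δ) (a1 : 512 * C₁ ^ 2 * Δ ≤ θ ^ 2) (a2 : 2 * τ * s₀ ≤ Δ)
    (a3 : 2 + τ + 4 * ((1 + 1 / τ) * κ ^ 2) ≤ Δ) (hR : 0 ≤ R) (a4 : 2 * s₀ + 4 * Δ ≤ R ^ 2)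
    (a5 : (1 + 16 * (C₁ * R + θ / 8) / θ) * s₀ / Δ ≤ β) {e s : ℝ} (he : 0 < e) (he' : e ≤ θ / 4)
    (hs : s ≤ s₀) (h : Tri ℓ B (D - e) s) : Tri ℓ B (D - β * e) (s - Δ) := by
  obtain ⟨Ω, _, P, X, Y, hXY, hd, hsz⟩ := h
  have b1 : 2 ≤ θ / (2 * e) := by
    rw [le_div_iff₀ (by positivity)]
    linarith
  obtain ⟨M, hM⟩ : ∃ M, ⌊θ / (2 * e)⌋₊ = M + 1 :=
    Nat.exists_eq_succ_of_ne_zero (Nat.floor_pos.2 (by linarith)).ne'
  obtain ⟨Ω', _, Q, q, u, r1, r2, r3, r4⟩ := round hE hC hB hτ hc hD P X Y hXY M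
  have b2 : ((M + 1 : ℕ) : ℝ) * e ≤ θ / 2 := by
    have := Nat.floor_le (show 0 ≤ θ / (2 * e) by positivity)
    rw [hM, le_div_iff₀ (by positivity)] at this
    linarith
  have b3 : θ / 4 ≤ ((M + 1 : ℕ) : ℝ) * e := by
    have := Nat.lt_floor_add_one (θ / (2 * e))
    rw [hM, div_lt_iff₀ (by positivity)] at this
    linarith
  have hNM : (M : ℝ) = (M + 1 : ℕ) - 1 := by push_cast; ring
  rw [hNM] at r2
  set N : ℝ := ((M + 1 : ℕ) : ℝ) with hN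
  have hN0 : 0 < N := by rw [hN]; positivity
  have s0 := sz_nonneg ℓ P X Y
  have b4 := mul_le_mul_of_nonneg_left hd hN0.le
  have b5 : θ / 4 ≤ Q.H u := by linarith
  have b6 := H_le hE hg Q u
  have b7 := hE.cs Q fun a => ℓ (u a)
  set m := Q.E fun a => ℓ (u a)
  set w := Q.E fun a => ℓ (u a) ^ 2
  have b8 : 8 * Δ ≤ w := by
    have c1 : θ / 8 ≤ C₁ * m := by linarith
    have c2 := pow_le_pow_left₀ (by positivity) c1 2
    have c3 : C₁ ^ 2 * (8 * Δ) ≤ C₁ ^ 2 * m ^ 2 := by linarith [mul_pow C₁ m 2]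
    exact (le_of_mul_le_mul_left c3 (by positivity)).trans b7
  have b9 : ∑ j ∈ range (M + 1), sz ℓ Q (q j) (q (j + 1)) + N / 2 * w ≤ N * (s + 2 * Δ) := by
    have c1 := mul_le_mul_of_nonneg_left a3 hN0.le
    have c2 : (1 + 2 * τ) * sz ℓ P X Y ≤ s + Δ := by
      have := mul_le_mul_of_nonneg_left (hsz.trans hs) (show 0 ≤ 2 * τ by positivity)
      linarith
    have c3 := mul_le_mul_of_nonneg_left c2 hN0.le
    linarith
  have b10 : 0 ≤ ∑ j ∈ range (M + 1), sz ℓ Q (q j) (q (j + 1)) :=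
    sum_nonneg fun j _ => sz_nonneg ℓ Q _ _
  have b11 : m ≤ R := by
    have c1 : N * (w / 2) ≤ N * (s + 2 * Δ) := by linarith
    have c2 := le_of_mul_le_mul_left c1 hN0
    exact (abs_le_of_sq_le_sq' (by linarith) hR).2
  have b12 : Q.H u ≤ C₁ * R + θ / 8 := by linarith [mul_le_mul_of_nonneg_left b11 h₁.le]
  set A₁ := 1 + 16 * (C₁ * R + θ / 8) / θ with hA₁
  have hA : 0 < A₁ := by positivity
  have b13 : 4 * Q.H u ≤ N * e * (A₁ - 1) := by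
    have c1 : θ / 4 * (A₁ - 1) = 4 * (C₁ * R + θ / 8) := by
      rw [hA₁]
      field_simp
      ring
    have c2 : 0 ≤ A₁ - 1 := by rw [hA₁, add_sub_cancel_left]; positivity
    linarith [mul_le_mul_of_nonneg_right b3 c2]
  set l := e * A₁ / Δ with hl
  have hl0 : 0 < l := by positivity
  have hl1 : l * Δ = e * A₁ := div_mul_cancel₀ _ hΔ.ne'
  obtain ⟨j, hj, hj'⟩ : ∃ j ∈ range (M + 1),
      D - Dx Q (q j) (q (j + 1)) + l * sz ℓ Q (q j) (q (j + 1)) ≤ l * (s - Δ) := by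
    refine exists_le_of_sum_le nonempty_range_add_one ?_
    rw [sum_add_distrib, sum_sub_distrib, ← mul_sum, sum_const, sum_const, card_range,
      nsmul_eq_mul, nsmul_eq_mul, ← hN]
    have c1 : ∑ j ∈ range (M + 1), sz ℓ Q (q j) (q (j + 1)) ≤ N * (s - 2 * Δ) := by
      linarith [mul_le_mul_of_nonneg_left b8 hN0.le]
    have c2 := mul_le_mul_of_nonneg_left c1 hl0.le
    have c3 : N * (l * Δ) = N * (e * A₁) := by rw [hl1]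
    linarith
  have d1 := hD _ Q _ _ (r1 j (mem_range.1 hj))
  have d2 := mul_nonneg hl0.le (sz_nonneg ℓ Q (q j) (q (j + 1)))
  refine ⟨Ω', _, Q, q j, q (j + 1), r1 j (mem_range.1 hj), ?_,
    le_of_mul_le_mul_left (by linarith) hl0⟩
  have d3 : l * s₀ ≤ β * e := by
    have := mul_le_mul_of_nonneg_right a5 he.le
    rwa [show A₁ * s₀ / Δ * e = l * s₀ by rw [hl]; ring] at this
  linarith [mul_le_mul_of_nonneg_left (show s - Δ ≤ s₀ by linarith) hl0.le]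

lemma iter {T : ℝ → ℝ → Prop} {θ s₀ Δ β e₀ : ℝ} {K : ℕ} (hΔ : 0 < Δ) (hβ : 1 ≤ β) (he : 0 < e₀)
    (hK : β ^ K * e₀ ≤ θ / 4)
    (h : ∀ e s, 0 < e → e ≤ θ / 4 → s ≤ s₀ → T e s → T (β * e) (s - Δ)) (h0 : T e₀ s₀) :
    ∀ i ≤ K, T (β ^ i * e₀) (s₀ - i * Δ) := by
  intro i hi
  induction i with
  | zero => simpa using h0
  | succ i ih =>
    have h1 : β ^ i * e₀ ≤ θ / 4 :=
      (mul_le_mul_of_nonneg_right (pow_le_pow_right₀ hβ (by omega)) he.le).trans hK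
    have h2 := h _ _ (by positivity) h1 (sub_le_self _ (by positivity)) (ih (by omega))
    rw [← mul_assoc, ← pow_succ', sub_sub] at h2
    push_cast
    rwa [add_mul, one_mul]

end A

open A in
theorem stA (hE : St_ENT) (hC : St_CHAIN) : St_A := by
  intro Γ _ ℓ B hG δ hδ
  obtain ⟨C₁, C₂, h₁, h₂, hg⟩ := hG.grow
  obtain ⟨κ, -, hc⟩ := hG.cn
  obtain ⟨L, hL, hr⟩ := hG.red
  obtain ⟨c, hc0, hc1⟩ : ∃ c : ℝ, 0 < c ∧ 512 * C₁ ^ 2 * c = δ ^ 2 :=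
    ⟨δ ^ 2 / (512 * C₁ ^ 2), by positivity, by field_simp⟩
  obtain ⟨τ, hτ, hτ1⟩ : ∃ τ : ℝ, 0 < τ ∧ 4 * τ * L ^ 2 = c :=
    ⟨c / (4 * L ^ 2), by positivity, by field_simp⟩
  obtain ⟨R, hR, hR1⟩ : ∃ R : ℝ, 0 ≤ R ∧ R ^ 2 = 4 * L ^ 2 + 4 * c :=
    ⟨√(4 * L ^ 2 + 4 * c), Real.sqrt_nonneg _, Real.sq_sqrt (by positivity)⟩
  obtain ⟨β, hβ, hβ1⟩ : ∃ β : ℝ, 1 ≤ β ∧ (1 + 16 * (C₁ * R + δ / 8) / δ) * (2 * L ^ 2) / c ≤ β :=
    ⟨max 1 _, le_max_left _ _, le_max_right _ _⟩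
  obtain ⟨K, hK⟩ := exists_nat_gt (2 * L ^ 2 / c)
  rw [div_lt_iff₀ hc0] at hK
  have hβ0 : 0 < β ^ K := by positivity
  obtain ⟨r₀, hr₀⟩ := hr (δ / (16 * β ^ K)) (by positivity)
  refine ⟨max r₀ (max 1 (max (8 * C₂ / δ) ((2 + τ + 4 * ((1 + 1 / τ) * κ ^ 2)) / c))),
    fun r hr1 => ?_⟩
  simp only [max_le_iff] at hr1
  obtain ⟨q1, q2, q3, q4⟩ := hr1
  rw [div_le_iff₀ hδ] at q3
  rw [div_le_iff₀ hc0] at q4
  obtain ⟨S, hS, hS'⟩ := hr₀ r q1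
  have hr0 : 0 < r := by linarith
  have key : ∀ (Ω : Type) [Fintype Ω] (P : FP Ω) (X Y : Ω → Γ),
      (∀ a, 0 < P.w a → (X a)⁻¹ * Y a ∈ B r) →
        Tri ℓ (B r) (Dx P X Y - 2 * (δ / (16 * β ^ K) * r)) (2 * L ^ 2 * r ^ 2) ∧
        Dx P X Y ≤ 4 * (C₁ * (L * r) + C₂) + 2 * (δ / (16 * β ^ K) * r) := by
    intro Ω _ P X Y hXY
    have : ∀ a, ∃ u, 0 < P.w a → u ∈ S (X a) ∧ u ∈ S (Y a) ∧ ℓ (u⁻¹ * X a) ≤ L * r ∧
        ℓ (u⁻¹ * Y a) ≤ L * r := fun a => by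
      by_cases ha : 0 < P.w a
      · obtain ⟨u, hu⟩ := hS' _ _ (hXY a ha)
        exact ⟨u, fun _ => hu⟩
      · exact ⟨1, fun h => absurd h ha⟩
    choose U hU using this
    have k1 := red hE P X Y U S _ hS (fun a ha => (hU a ha).1) fun a ha => (hU a ha).2.1
    refine ⟨⟨Ω, _, P, _, _, fun a ha => ?_, sub_le_iff_le_add.2 k1, ?_⟩, k1.trans ?_⟩
    · rw [show ((U a)⁻¹ * X a)⁻¹ * ((U a)⁻¹ * Y a) = (X a)⁻¹ * Y a by group]
      exact hXY a ha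
    · rw [← stE2.E_const P (2 * L ^ 2 * r ^ 2)]
      refine stE2.E_mono P _ _ fun a ha => ?_
      have k2 := pow_le_pow_left₀ (hG.nn _) (hU a ha).2.2.1 2
      have k3 := pow_le_pow_left₀ (hG.nn _) (hU a ha).2.2.2 2
      rw [mul_pow] at k2 k3
      linarith
    · have k2 := H_le hE hg P fun a => (U a)⁻¹ * X a
      have k3 := H_le hE hg P fun a => (U a)⁻¹ * Y a
      have k4 := mul_le_mul_of_nonneg_left
        ((stE2.E_mono P _ _ fun a ha => (hU a ha).2.2.1).trans (stE2.E_const P _).le) h₁.le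
      have k5 := mul_le_mul_of_nonneg_left
        ((stE2.E_mono P _ _ fun a ha => (hU a ha).2.2.2).trans (stE2.E_const P _).le) h₁.le
      have k6 := stE1.H_pair_le P (fun a => (U a)⁻¹ * X a) fun a => (U a)⁻¹ * Y a
      have k7 := stE1.H_nonneg P fun a => ((U a)⁻¹ * X a)⁻¹ * ((U a)⁻¹ * Y a)
      have k8 : 0 ≤ C₁ * (L * r) := by positivity
      unfold Dx
      linarith
  intro Ω _ P X Y hXY
  by_contra hcon
  let Z : Set ℝ := {d | ∃ (Ω : Type) (_ : Fintype Ω) (P : FP Ω) (X Y : Ω → Γ),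
    (∀ a, 0 < P.w a → (X a)⁻¹ * Y a ∈ B r) ∧ Dx P X Y = d}
  have hZ : BddAbove Z := ⟨_, by
    rintro _ ⟨Ω, _, P, X, Y, h, rfl⟩
    exact (key Ω P X Y h).2⟩
  have hD : Exc (B r) (sSup Z) := fun Ω _ P X Y h => le_csSup hZ ⟨Ω, _, P, X, Y, h, rfl⟩
  have he : 0 < δ / (16 * β ^ K) * r := by positivity
  obtain ⟨_, ⟨Ω₁, _, P₁, X₁, Y₁, h₃, rfl⟩, h₄⟩ := exists_lt_of_lt_csSup
    (⟨_, Ω, _, P, X, Y, hXY, rfl⟩ : Z.Nonempty) (sub_lt_self (sSup Z) he)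
  have h0 : Tri ℓ (B r) (sSup Z - 4 * (δ / (16 * β ^ K) * r)) (2 * L ^ 2 * r ^ 2) := by
    obtain ⟨Ω₂, _, P₂, X₂, Y₂, k1, k2, k3⟩ := (key Ω₁ P₁ X₁ Y₁ h₃).1
    exact ⟨Ω₂, _, P₂, X₂, Y₂, k1, by linarith, k3⟩
  have hrr : r ≤ r ^ 2 := by nlinarith
  obtain ⟨Ω₃, _, P₃, X₃, Y₃, -, -, k⟩ := iter (T := fun e s => Tri ℓ (B r) (sSup Z - e) s)
    (θ := δ * r) (Δ := c * r ^ 2) (K := K) (by positivity) hβ (by positivity)
    (le_of_eq (by field_simp; norm_num)) (fun e s k1 k2 k3 k4 =>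
      step (R := R * r) hE hC (hG.symm r) hτ hc hD h₁ hg (by positivity)
        ((not_le.1 hcon).le.trans (hD Ω P X Y hXY)) (by linarith) (by positivity)
        (le_of_eq (by rw [mul_pow, ← hc1]; ring)) (le_of_eq (by rw [← hτ1]; ring))
        (q4.trans (by nlinarith)) (by positivity) (le_of_eq (by rw [mul_pow, hR1]; ring))
        (le_of_eq_of_le (by field_simp) hβ1) k1 k2 k3 k4) h0 K le_rfl
  have k1 := sz_nonneg ℓ P₃ X₃ Y₃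
  nlinarith [mul_lt_mul_of_pos_right hK (show 0 < r ^ 2 by positivity)]

end Pool.Agent.Lib.SD
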