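import Pool.Agent.Lib.SD.A
import Pool.Agent.Lib.SD.ENT

/-! The core theorem at a fixed scale, for an abstract system of centres. -/

noncomputable section

open Finset

namespace Pool.Agent.Lib.SD

open Pool.Agent.Lib.U4

namespace Core

open scoped Classical

variable {Γ 𝒳 Ω ζ : Type} [Group Γ] [MulAction Γ 𝒳] [Fintype Ω]

/-- The conditional Gibbs inequality. -/
lemma cgib {α β : Type} (P : FP Ω) (Z : Ω → α) (b : Ω → β) (E : α → β → ℝ) (σ : ℝ)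
    (h : ∀ z (F : Finset β), ∑ y ∈ F, Real.exp (-E z y) ≤ Real.exp σ) :
    (P.H fun a => (Z a, b a)) ≤ P.H Z + (P.E fun a => E (Z a) (b a)) + σ := by
  have h1 := ENT.gib P (fun a => (Z a, b a))
    (fun z => P.pr Z z.1 * (Real.exp (-E z.1 z.2) / Real.exp σ))
    (fun z => mul_nonneg (P.pr_nonneg Z _) (by positivity))
    (fun a ha => mul_pos (E1.pr_pos P Z ha) (by positivity)) fun F => by
      calc _ ≤ ∑ z ∈ F.image Prod.fst ×ˢ F.image Prod.snd,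
            P.pr Z z.1 * (Real.exp (-E z.1 z.2) / Real.exp σ) :=
            sum_le_sum_of_subset_of_nonneg subset_product fun z _ _ =>
              mul_nonneg (P.pr_nonneg Z _) (by positivity)
        _ ≤ ∑ x ∈ F.image Prod.fst, P.pr Z x := by
            rw [sum_product]
            refine sum_le_sum fun x _ => ?_
            simp only
            rw [← mul_sum, ← sum_div]
            exact mul_le_of_le_one_right (P.pr_nonneg Z x)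
              ((div_le_one (Real.exp_pos σ)).2 (h x _))
        _ ≤ 1 := ENT.sum_pr_le P Z _
  have h2 : (P.E fun a => -Real.log (P.pr Z (Z a)) + E (Z a) (b a) + σ) =
      P.H Z + (P.E fun a => E (Z a) (b a)) + σ := by
    rw [stE2.E_add, stE2.E_const, stE2.E_add, FP.H]
  refine h1.trans (le_of_eq (Eq.trans ?_ h2))
  refine stE2.E_congr P _ _ fun a ha => ?_
  rw [Real.log_mul (E1.pr_pos P Z ha).ne' (by positivity), ← Real.exp_sub, Real.log_exp]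
  ring

/-- The conditional entropy excess. -/
def Dc (P : FP Ω) (X Y : Ω → Γ) (Z : Ω → ζ) : ℝ :=
  2 * (P.H fun a => ((X a, Z a), (Y a, Z a))) - (P.H fun a => (X a, Z a)) -
    (P.H fun a => (Y a, Z a)) - (P.H fun a => ((X a)⁻¹ * Y a, Z a)) + P.H Z

lemma Dc_symm (P : FP Ω) (X Y : Ω → Γ) (Z : Ω → ζ) : Dc P Y X Z = Dc P X Y Z := by
  have h1 : (P.H fun a => ((Y a, Z a), (X a, Z a))) = P.H fun a => ((X a, Z a), (Y a, Z a)) :=
    stE1.H_congr P _ _ fun a b _ _ => by simp only [Prod.mk.injEq, and_comm]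
  have h2 : (P.H fun a => ((Y a)⁻¹ * X a, Z a)) = P.H fun a => ((X a)⁻¹ * Y a, Z a) :=
    stE1.H_congr P _ _ fun a b _ _ => by
      rw [Prod.mk.injEq, Prod.mk.injEq, ← inv_inj]
      simp only [mul_inv_rev, inv_inv]
  unfold Dc
  rw [h1, h2]
  ring

lemma Dc_unit (P : FP Ω) (X Y : Ω → Γ) : Dc P X Y (fun _ => ()) = Dx P X Y := by
  have h : ∀ {α : Type} (U : Ω → α), (P.H fun a => (U a, ())) = P.H U := fun U =>
    stE1.H_congr P _ _ fun a b _ _ => by simp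
  have h1 : (P.H fun a => ((X a, ()), (Y a, ()))) = P.H fun a => (X a, Y a) :=
    stE1.H_congr P _ _ fun a b _ _ => by simp
  unfold Dc Dx
  rw [h1, h X, h Y, h fun a => (X a)⁻¹ * Y a, stE1.H_const, add_zero]

lemma Dc_le (P : FP Ω) (X Y : Ω → Γ) (Z : Ω → ζ) :
    Dc P X Y Z ≤ (P.H fun a => ((X a)⁻¹ * Y a, Z a)) - P.H Z := by
  have h1 := stE1.H_sub P (fun a => (X a, Z a)) (fun a => ((X a)⁻¹ * Y a, Z a)) Z
    (fun a => ((X a, Z a), (Y a, Z a))) (fun a b _ _ h => (Prod.mk.inj h).2)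
    (fun a b _ _ h => (Prod.mk.inj h).2) fun a b _ _ h h' => by
      have e := (Prod.mk.inj h').1
      rw [(Prod.mk.inj h).1, mul_right_inj] at e
      rw [h, e, (Prod.mk.inj h).2]
  have h2 := stE1.H_sub P (fun a => (Y a, Z a)) (fun a => ((X a)⁻¹ * Y a, Z a)) Z
    (fun a => ((X a, Z a), (Y a, Z a))) (fun a b _ _ h => (Prod.mk.inj h).2)
    (fun a b _ _ h => (Prod.mk.inj h).2) fun a b _ _ h h' => by
      have e := (Prod.mk.inj h').1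
      rw [(Prod.mk.inj h).1, mul_left_inj, inv_inj] at e
      rw [h, e, (Prod.mk.inj h).2]
  unfold Dc
  linarith

/-- Conditioning lowers entropy. -/
lemma cond_le {α β : Type} (P : FP Ω) (U : Ω → α) (Z : Ω → ζ) (C : Ω → β) :
    (P.H fun a => (U a, Z a, C a)) - (P.H fun a => (Z a, C a)) ≤
      (P.H fun a => (U a, Z a)) - P.H Z := by
  have h := stE1.H_sub P (fun a => (U a, Z a)) (fun a => (Z a, C a)) Z (fun a => (U a, Z a, C a))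
    (fun a b _ _ h => (Prod.mk.inj h).2) (fun a b _ _ h => (Prod.mk.inj h).1)
    fun a b _ _ h h' => by rw [h', (Prod.mk.inj h).1]
  linarith

lemma tel (P : FP Ω) (q : ℕ → Ω → Γ) (Z : Ω → ζ) (N : ℕ) :
    2 * ((P.H fun a => (q 0 a, Z a)) + ∑ j ∈ range N,
      ((P.H fun a => ((q j a, Z a), (q (j + 1) a, Z a))) - P.H fun a => (q j a, Z a))) =
      ∑ j ∈ range N, Dc P (q j) (q (j + 1)) Z +
        ∑ j ∈ range N, ((P.H fun a => ((q j a)⁻¹ * q (j + 1) a, Z a)) - P.H Z) +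
          (P.H fun a => (q 0 a, Z a)) + P.H fun a => (q N a, Z a) := by
  induction N with
  | zero => simp [two_mul]
  | succ N ih =>
    simp only [sum_range_succ]
    unfold Dc at ih ⊢
    linarith

/-- A representative of the orbit. -/
def rp (Γ : Type) [Group Γ] [MulAction Γ 𝒳] (b : 𝒳) : 𝒳 :=
  (Quotient.mk (MulAction.orbitRel Γ 𝒳) b).out

lemma ex_up (b : 𝒳) : ∃ u : Γ, u • rp Γ b = b :=
  (MulAction.orbitRel Γ 𝒳).symm (Quotient.mk_out (s := MulAction.orbitRel Γ 𝒳) b)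

/-- An element moving the representative to the point. -/
def up (b : 𝒳) : Γ := (ex_up (Γ := Γ) b).choose

lemma up_smul (g : Γ) (b : 𝒳) : ((up b : Γ)⁻¹ * g)⁻¹ • rp Γ b = g⁻¹ • b := by
  rw [mul_inv_rev, inv_inv, mul_smul, up, (ex_up (Γ := Γ) b).choose_spec]

/-- Moving the apex. -/
lemma red (P : FP Ω) (X Y : Ω → Γ) (Z : Ω → ζ) (b : Ω → 𝒳) (S : Γ → Finset 𝒳) (M : ℝ)
    (hS : ∀ x, ((S x).card : ℝ) ≤ Real.exp M) (h1 : ∀ a, 0 < P.w a → b a ∈ S (X a))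
    (h2 : ∀ a, 0 < P.w a → b a ∈ S (Y a)) :
    Dc P X Y Z ≤ Dc P (fun a => (up (b a))⁻¹ * X a) (fun a => (up (b a))⁻¹ * Y a)
      (fun a => (Z a, rp Γ (b a))) + 2 * M := by
  have h3 := ENT.cond P (fun a => (X a, Z a)) b (fun x => S x.1) M (fun x => hS _) h1
  have h4 := ENT.cond P (fun a => (Y a, Z a)) b (fun x => S x.1) M (fun x => hS _) h2
  have h5 := stE1.H_sub P
    (fun a => (((up (b a) : Γ)⁻¹ * X a, Z a, rp Γ (b a)), ((up (b a) : Γ)⁻¹ * Y a, Z a, rp Γ (b a))))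
    (fun a => ((X a, Z a), b a)) (fun a => ((up (b a) : Γ)⁻¹ * X a, Z a, rp Γ (b a)))
    (fun a => ((X a, Z a), (Y a, Z a))) (fun a b _ _ h => (Prod.mk.inj h).1)
    (fun a b _ _ h => by
      simp only [Prod.mk.injEq] at h
      rw [h.1.1, h.1.2, h.2]) fun a b _ _ h h' => by
      simp only [Prod.mk.injEq] at h h'
      have e := h.2.1
      rw [h'.2, mul_right_inj] at e
      rw [e, h'.1.1, h'.1.2]
  have h6 := stE1.H_sub P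
    (fun a => (((up (b a) : Γ)⁻¹ * X a, Z a, rp Γ (b a)), ((up (b a) : Γ)⁻¹ * Y a, Z a, rp Γ (b a))))
    (fun a => ((Y a, Z a), b a)) (fun a => ((up (b a) : Γ)⁻¹ * Y a, Z a, rp Γ (b a)))
    (fun a => ((X a, Z a), (Y a, Z a))) (fun a b _ _ h => (Prod.mk.inj h).2)
    (fun a b _ _ h => by
      simp only [Prod.mk.injEq] at h
      rw [h.1.1, h.1.2, h.2]) fun a b _ _ h h' => by
      simp only [Prod.mk.injEq] at h h'
      have e := h.1.1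
      rw [h'.2, mul_right_inj] at e
      rw [e, h'.1.1, h'.1.2]
  have h7 := cond_le P (fun a => (X a)⁻¹ * Y a) Z fun a => rp Γ (b a)
  have h8 : ∀ a, ((up (b a) : Γ)⁻¹ * X a)⁻¹ * ((up (b a) : Γ)⁻¹ * Y a) = (X a)⁻¹ * Y a :=
    fun a => by group
  unfold Dc
  simp only [h8]
  linarith

/-- The potential of a centre for a chain. -/
def Phi (Φ : 𝒳 → ℝ) (N : ℕ) (p : ℕ → Γ) (c : 𝒳) : ℝ :=
  ∑ j ∈ range N, (Φ ((p j)⁻¹ • c) + Φ ((p (j + 1))⁻¹ • c))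

/-- Admissible centres for a chain. -/
def Adm (A : Set 𝒳) (N : ℕ) (p : ℕ → Γ) (c : 𝒳) : Prop := ∀ j ≤ N, (p j)⁻¹ • c ∈ A

lemma exists_min [Nonempty 𝒳] {A : Set 𝒳} {Φ : 𝒳 → ℝ} (hΦ : ∀ c ∈ A, 0 ≤ Φ c) {err : ℝ}
    (he : 0 < err) (N : ℕ) (p : ℕ → Γ) :
    ∃ b, ∀ v, Adm A N p v → Adm A N p b ∧ Phi Φ N p b ≤ Phi Φ N p v + err := by
  by_cases h : ∃ v, Adm A N p v
  · have hb : BddBelow (Phi Φ N p '' {v | Adm A N p v}) := ⟨0, by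
      rintro _ ⟨v, hv, rfl⟩
      exact sum_nonneg fun j hj => add_nonneg (hΦ _ (hv j (mem_range.1 hj).le))
        (hΦ _ (hv (j + 1) (mem_range.1 hj)))⟩
    obtain ⟨_, ⟨u, hu, rfl⟩, hu'⟩ := exists_lt_of_csInf_lt (Set.Nonempty.image (Phi Φ N p) h)
      (lt_add_of_pos_right (sInf (Phi Φ N p '' {v | Adm A N p v})) he)
    exact ⟨u, fun v hv => ⟨hu, by linarith [csInf_le hb ⟨v, hv, rfl⟩]⟩⟩
  · exact ⟨Classical.arbitrary 𝒳, fun v hv => absurd ⟨v, hv⟩ h⟩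

lemma drop {A : Set 𝒳} {Φ : 𝒳 → ℝ} {G : 𝒳 → 𝒳 → ℝ} {τ err : ℝ} (hτ : 0 ≤ τ) (hτ1 : τ ≤ 1)
    (he : 0 < err) (hmid : ∀ c b, ∃ m, ∀ g : Γ, g⁻¹ • c ∈ A → g⁻¹ • b ∈ A → g⁻¹ • m ∈ A ∧
      2 * Φ (g⁻¹ • m) + G c b ≤ (1 + τ) * (Φ (g⁻¹ • c) + Φ (g⁻¹ • b)) + err) {N : ℕ}
    (hN : 1 ≤ N) (p : ℕ → Γ) (c b : 𝒳) (hc : Adm A N p c)
    (hb : ∀ v, Adm A N p v → Adm A N p b ∧ Phi Φ N p b ≤ Phi Φ N p v + err) :
    Phi Φ N p b + 2 * N * G c b ≤ (1 + 2 * τ) * Phi Φ N p c + N * (5 * err) := by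
  obtain ⟨m, hm⟩ := hmid c b
  have h0 := fun j hj => hm (p j) (hc j hj) ((hb c hc).1 j hj)
  have h2 : ∑ j ∈ range N, (2 * (Φ ((p j)⁻¹ • m) + Φ ((p (j + 1))⁻¹ • m)) + 2 * G c b) ≤
      ∑ j ∈ range N, ((1 + τ) * ((Φ ((p j)⁻¹ • c) + Φ ((p (j + 1))⁻¹ • c)) +
        (Φ ((p j)⁻¹ • b) + Φ ((p (j + 1))⁻¹ • b))) + 2 * err) :=
    sum_le_sum fun j hj => by
      linarith [(h0 j (mem_range.1 hj).le).2, (h0 (j + 1) (mem_range.1 hj)).2]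
  have h6 : ∑ j ∈ range N, (2 * (Φ ((p j)⁻¹ • m) + Φ ((p (j + 1))⁻¹ • m)) + 2 * G c b) =
      2 * Phi Φ N p m + N * (2 * G c b) := by
    rw [sum_add_distrib, ← mul_sum, sum_const, card_range, nsmul_eq_mul, Phi]
  have h7 : ∑ j ∈ range N, ((1 + τ) * ((Φ ((p j)⁻¹ • c) + Φ ((p (j + 1))⁻¹ • c)) +
        (Φ ((p j)⁻¹ • b) + Φ ((p (j + 1))⁻¹ • b))) + 2 * err) =
      (1 + τ) * (Phi Φ N p c + Phi Φ N p b) + N * (2 * err) := by
    rw [sum_add_distrib, ← mul_sum, sum_add_distrib, sum_const, card_range, nsmul_eq_mul, Phi, Phi]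
  have h3 : (1 : ℝ) ≤ N := by exact_mod_cast hN
  have h4 := mul_le_mul_of_nonneg_left (hb c hc).2 hτ
  have h5 := mul_le_mul_of_nonneg_right h3 he.le
  have h8 := mul_le_mul_of_nonneg_right hτ1 he.le
  linarith [(hb m fun j hj => (h0 j hj).1).2]

/-- The size of a random triangle with apex `π Z`. -/
def sz (Φ : 𝒳 → ℝ) (P : FP Ω) (X Y : Ω → Γ) (C : Ω → 𝒳) : ℝ :=
  P.E fun a => Φ ((X a)⁻¹ • C a) + Φ ((Y a)⁻¹ • C a)

/-- The support condition. -/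
def Ok (B : Set Γ) (A : Set 𝒳) (x y : Γ) (c : 𝒳) : Prop := x⁻¹ * y ∈ B ∧ x⁻¹ • c ∈ A ∧ y⁻¹ • c ∈ A

/-- The bound for all conditional excesses. -/
def Exc' (B : Set Γ) (D : ℝ) : Prop :=
  ∀ (Ω ζ : Type) [Fintype Ω] (P : FP Ω) (X Y : Ω → Γ) (Z : Ω → ζ),
    (∀ a, 0 < P.w a → (X a)⁻¹ * Y a ∈ B) → Dc P X Y Z ≤ D

/-- One round, in averaged form. -/
lemma round (hC : St_CHAIN) {B : Set Γ} (hB : ∀ g ∈ B, g⁻¹ ∈ B) {A : Set 𝒳} {Φ : 𝒳 → ℝ}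
    {G : 𝒳 → 𝒳 → ℝ} {α σ μ τ err D : ℝ} (hτ : 0 ≤ τ) (hτ1 : τ ≤ 1) (he : 0 < err)
    (hΦ : ∀ c ∈ A, 0 ≤ Φ c)
    (hmid : ∀ c b, ∃ m, ∀ g : Γ, g⁻¹ • c ∈ A → g⁻¹ • b ∈ A → g⁻¹ • m ∈ A ∧
      2 * Φ (g⁻¹ • m) + G c b ≤ (1 + τ) * (Φ (g⁻¹ • c) + Φ (g⁻¹ • b)) + err)
    (hgr : ∀ c (F : Finset 𝒳), ∑ b ∈ F, Real.exp (-(α * G c b)) ≤ Real.exp σ)
    (hst : ∀ c : 𝒳, ∃ F : Finset Γ, (F.card : ℝ) ≤ Real.exp μ ∧ ∀ g, g • c = c → g ∈ F)
    (hD : Exc' B D) (P : FP Ω) (X Y : Ω → Γ) (Z : Ω → ζ) (π : ζ → 𝒳)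
    (hXY : ∀ a, 0 < P.w a → Ok B A (X a) (Y a) (π (Z a))) (M : ℕ) :
    ∃ (Ω' : Type) (_ : Fintype Ω') (Q : FP Ω') (q : ℕ → Ω' → Γ) (Z' : Ω' → ζ × 𝒳) (h w : ℝ),
      (∀ j < M + 1, ∀ a, 0 < Q.w a → Ok B A (q j a) (q (j + 1) a) (Z' a).2) ∧ h ≤ α * w + σ ∧
      (M + 1 : ℕ) * Dc P X Y Z - M * D ≤ 2 * (h + μ) ∧
      (M + 1 : ℕ) * Dc P X Y Z - (4 * h + 2 * μ) ≤
        ∑ j ∈ range (M + 1), Dc Q (q j) (q (j + 1)) Z' ∧
      ∑ j ∈ range (M + 1), sz Φ Q (q j) (q (j + 1)) (fun a => (Z' a).2) + 2 * (M + 1 : ℕ) * w ≤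
        (1 + 2 * τ) * ((M + 1 : ℕ) * sz Φ P X Y fun a => π (Z a)) + (M + 1 : ℕ) * (5 * err) := by
  set N := M + 1 with hN
  obtain ⟨a₀, -, -⟩ := stE2.exists_le_E P fun _ => 0
  have : Nonempty 𝒳 := ⟨π (Z a₀)⟩
  let V : ℕ → Ω → Γ := fun j => if Even j then X else Y
  have hV : ∀ j, (V j = X ∧ V (j + 1) = Y) ∨ (V j = Y ∧ V (j + 1) = X) := fun j => by
    by_cases h : Even j
    · exact Or.inl ⟨if_pos h, if_neg (by simpa [Nat.even_add_one] using h)⟩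
    · exact Or.inr ⟨if_neg h, if_pos (by simpa [Nat.even_add_one] using h)⟩
  obtain ⟨Ω', _, Q, p', l0, -, l1', l2⟩ := hC P (fun j a => (V j a, Z a)) N
  let p : ℕ → Ω' → Γ := fun j a => (p' j a).1
  let z : Ω' → ζ := fun a => (p' 0 a).2
  have hz : ∀ a, 0 < Q.w a → ∀ j ≤ N, p' j a = (p j a, z a) := fun a ha j hj => by
    refine Prod.ext rfl ?_
    induction j with
    | zero => rfl
    | succ j ih =>
      exact (ENT.lawS _ _ _ _ (l1' j hj) (fun y => y.2.2 = y.1.2) (fun _ _ => rfl) a ha).trans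
        (ih (by omega))
  have l1 : ∀ j < N, Law Q (fun a => ((p j a, z a), (p (j + 1) a, z a))) P
      fun a => ((V j a, Z a), (V (j + 1) a, Z a)) := fun j hj φ =>
    (stE2.E_congr Q _ _ fun a ha => by
      simp only [← hz a ha j hj.le, ← hz a ha (j + 1) hj]).trans (l1' j hj φ)
  have e0 : (Q.H fun a => (p 0 a, z a)) = P.H fun a => (V 0 a, Z a) := ENT.lawH _ _ _ _ l0 id
  have e1 : ∀ j < N, (Q.H fun a => ((p j a, z a), (p (j + 1) a, z a))) =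
      P.H fun a => ((V j a, Z a), (V (j + 1) a, Z a)) := fun j hj => ENT.lawH _ _ _ _ (l1 j hj) id
  have e2 : ∀ j < N, (Q.H fun a => (p j a, z a)) = P.H fun a => (V j a, Z a) :=
    fun j hj => ENT.lawH _ _ _ _ (l1 j hj) Prod.fst
  have e3 : ∀ j < N, Dc Q (p j) (p (j + 1)) z = Dc P X Y Z := fun j hj => by
    have h1 : Dc Q (p j) (p (j + 1)) z = Dc P (V j) (V (j + 1)) Z := by
      unfold Dc
      rw [e1 j hj, e2 j hj, show (Q.H fun a => (p (j + 1) a, z a)) = _ from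
        ENT.lawH _ _ _ _ (l1 j hj) Prod.snd,
        show (Q.H fun a => ((p j a)⁻¹ * p (j + 1) a, z a)) = _ from
        ENT.lawH _ _ _ _ (l1 j hj) fun y => (y.1.1⁻¹ * y.2.1, y.1.2),
        show Q.H z = _ from ENT.lawH _ _ _ _ (l1 j hj) fun y => y.1.2]
    rcases hV j with ⟨h2, h3⟩ | ⟨h2, h3⟩ <;> rw [h1, h2, h3]
    exact Dc_symm P X Y Z
  have e4 : ∀ j < N, sz Φ Q (p j) (p (j + 1)) (fun a => π (z a)) = sz Φ P X Y fun a => π (Z a) :=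
    fun j hj => by
    have h1 : sz Φ Q (p j) (p (j + 1)) (fun a => π (z a)) =
        sz Φ P (V j) (V (j + 1)) fun a => π (Z a) :=
      l1 j hj fun y => Φ (y.1.1⁻¹ • π y.1.2) + Φ (y.2.1⁻¹ • π y.1.2)
    rcases hV j with ⟨h2, h3⟩ | ⟨h2, h3⟩ <;> rw [h1, h2, h3]
    exact stE2.E_congr P _ _ fun a _ => add_comm _ _
  have e5 : ∀ j < N, ∀ a, 0 < Q.w a → Ok B A (p j a) (p (j + 1) a) (π (z a)) := fun j hj =>
    ENT.lawS _ _ _ _ (l1 j hj) (fun y => Ok B A y.1.1 y.2.1 (π y.1.2)) fun a ha => by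
      rcases hV j with ⟨h2, h3⟩ | ⟨h2, h3⟩ <;> simp only [h2, h3]
      · exact hXY a ha
      · exact ⟨by simpa using hB _ (hXY a ha).1, (hXY a ha).2.2, (hXY a ha).2.1⟩
  have e6 : ∀ a, 0 < Q.w a → Adm A N (fun j => p j a) (π (z a)) := fun a ha j hj => by
    rcases j with _ | j
    exacts [(e5 0 (by omega) a ha).2.1, (e5 j hj a ha).2.2]
  have c1 : N * Dc P X Y Z + ∑ j ∈ range N, ((Q.H fun a => ((p j a)⁻¹ * p (j + 1) a, z a)) - Q.H z) +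
      (Q.H fun a => (p 0 a, z a)) + (Q.H fun a => (p N a, z a)) ≤ 2 * Q.H (tup p' N) := by
    have h1 := tel Q p z N
    rw [sum_congr rfl fun j hj => e3 j (mem_range.1 hj), sum_const, card_range, nsmul_eq_mul,
      sum_congr rfl fun j hj => show (Q.H fun a => ((p j a, z a), (p (j + 1) a, z a))) -
        (Q.H fun a => (p j a, z a)) = _ by
        rw [e1 j (mem_range.1 hj), e2 j (mem_range.1 hj)]] at h1
    rw [← e0] at l2
    linarith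
  let W : Ω' → Fin (N + 1) → Γ := tup (fun j a => (p 0 a)⁻¹ * p j a) N
  have fan : ∀ (v : Ω' → Γ) (c : Ω' → 𝒳), 2 * (Q.H fun a => (W a, z a)) ≤
      ∑ j ∈ range N, Dc Q (fun a => (v a)⁻¹ * p j a) (fun a => (v a)⁻¹ * p (j + 1) a)
        (fun a => (z a, c a)) +
        ∑ j ∈ range N, ((Q.H fun a => ((p j a)⁻¹ * p (j + 1) a, z a)) - Q.H z) +
          (Q.H fun a => ((v a)⁻¹ * p 0 a, z a, c a)) +
            Q.H fun a => ((v a)⁻¹ * p N a, z a, c a) := fun v c => by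
    have h1 := ENT.sub Q (fun j a => ((v a)⁻¹ * p j a, z a, c a)) N
    have h2 := tel Q (fun j a => (v a)⁻¹ * p j a) (fun a => (z a, c a)) N
    have h3 : (Q.H fun a => (W a, z a)) ≤ Q.H (tup (fun j a => ((v a)⁻¹ * p j a, z a, c a)) N) :=
      stE1.H_mono Q _ _ fun a b _ _ h => by
        have h4 : ((v a)⁻¹ * p 0 a, z a, c a) = ((v b)⁻¹ * p 0 b, z b, c b) := congrFun h 0
        refine Prod.ext (funext fun j => ?_) (Prod.mk.inj (Prod.mk.inj h4).2).1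
        have h5 : ((v a)⁻¹ * p j a, z a, c a) = ((v b)⁻¹ * p j b, z b, c b) := congrFun h j
        calc (p 0 a)⁻¹ * p j a = ((v a)⁻¹ * p 0 a)⁻¹ * ((v a)⁻¹ * p j a) := by group
          _ = (p 0 b)⁻¹ * p j b := by rw [(Prod.mk.inj h4).1, (Prod.mk.inj h5).1]; group
    have h6 : ∀ j a, ((v a)⁻¹ * p j a)⁻¹ * ((v a)⁻¹ * p (j + 1) a) = (p j a)⁻¹ * p (j + 1) a :=
      fun j a => by group
    simp only [h6] at h2
    have h7 := sum_le_sum fun j (_ : j ∈ range N) =>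
      cond_le Q (fun a => (p j a)⁻¹ * p (j + 1) a) z c
    linarith
  choose φ hφ using fun t : Fin (N + 1) → Γ =>
    exists_min hΦ he N fun j => t (Fin.ofNat (N + 1) j)
  let b : Ω' → 𝒳 := fun a => p 0 a • φ (W a)
  have hW : ∀ a v, ∀ j ≤ N, (W a (Fin.ofNat (N + 1) j))⁻¹ • v = (p j a)⁻¹ • p 0 a • v :=
    fun a (v : 𝒳) j hj => by
    simp only [W, tup, Fin.val_ofNat, Nat.mod_eq_of_lt (Nat.lt_succ_of_le hj), mul_inv_rev,
      inv_inv, mul_smul]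
  have hP : ∀ a v, Phi Φ N (fun j => W a (Fin.ofNat (N + 1) j)) v =
      Phi Φ N (fun j => p j a) (p 0 a • v) := fun a v => sum_congr rfl fun j hj => by
    rw [hW a v j (mem_range.1 hj).le, hW a v (j + 1) (mem_range.1 hj)]
  have hA : ∀ a v, Adm A N (fun j => W a (Fin.ofNat (N + 1) j)) v ↔
      Adm A N (fun j => p j a) (p 0 a • v) := fun a v =>
    forall₂_congr fun j hj => by rw [hW a v j hj]
  have hb : ∀ a v, Adm A N (fun j => p j a) v → Adm A N (fun j => p j a) (b a) ∧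
      Phi Φ N (fun j => p j a) (b a) ≤ Phi Φ N (fun j => p j a) v + err := fun a v hv => by
    have := hφ (W a) ((p 0 a)⁻¹ • v) (by rwa [hA, smul_inv_smul])
    rwa [hA, hP, hP, smul_inv_smul] at this
  have c2 : Q.H (tup p' N) ≤
      (Q.H fun a => (W a, z a)) + ((Q.H fun a => (z a, b a)) - Q.H z + μ) := by
    choose F hF1 hF2 using hst
    have : ∀ y : ((Fin (N + 1) → Γ) × ζ) × 𝒳, ∃ g₀ : Γ, ∀ g : Γ, g • φ y.1.1 = y.2 →
        g ∈ (F (φ y.1.1)).image (g₀ * ·) := fun y => by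
      by_cases h : ∃ g₀ : Γ, g₀ • φ y.1.1 = y.2
      · obtain ⟨g₀, h⟩ := h
        exact ⟨g₀, fun g hg => mem_image.2 ⟨g₀⁻¹ * g, hF2 _ _ (by
          rw [mul_smul, hg, ← h, inv_smul_smul]), mul_inv_cancel_left _ _⟩⟩
      · exact ⟨1, fun g hg => absurd ⟨g, hg⟩ h⟩
    choose g₀ hg₀ using this
    have h1 := ENT.cond Q (fun a => ((W a, z a), b a)) (p 0)
      (fun y => (F (φ y.1.1)).image (g₀ y * ·)) μ
      (fun y => le_trans (by exact_mod_cast card_image_le) (hF1 _)) fun a _ => hg₀ _ _ rfl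
    have h2 := stE1.H_sub Q (fun a => (W a, z a)) (fun a => (z a, b a)) z
      (fun a => ((W a, z a), b a)) (fun a b _ _ h => (Prod.mk.inj h).2)
      (fun a b _ _ h => (Prod.mk.inj h).1) fun a b _ _ h h' => by rw [h, (Prod.mk.inj h').2]
    have h3 : Q.H (tup p' N) ≤ Q.H fun a => (((W a, z a), b a), p 0 a) :=
      stE1.H_mono Q _ _ fun a a' ha ha' h => funext fun j => by
        simp only [Prod.mk.injEq] at h
        have h3 : (p 0 a)⁻¹ * p j a = (p 0 a')⁻¹ * p j a' := congrFun h.1.1.1 j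
        rw [h.2, mul_right_inj] at h3
        change p' j a = p' j a'
        rw [hz a ha j (Nat.lt_succ_iff.1 j.2), hz a' ha' j (Nat.lt_succ_iff.1 j.2), h3, h.1.1.2]
    linarith
  have c3 : ∀ j, (Q.H fun a => ((up (b a) : Γ)⁻¹ * p j a, z a, rp Γ (b a))) + Q.H z ≤
      (Q.H fun a => (p j a, z a)) + Q.H fun a => (z a, b a) := fun j =>
    stE1.H_sub Q _ _ _ _ (fun a b _ _ h => (Prod.mk.inj h).2) (fun a b _ _ h => (Prod.mk.inj h).1)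
      fun a b _ _ h h' => by rw [(Prod.mk.inj h).1, (Prod.mk.inj h).2, (Prod.mk.inj h').2]
  refine ⟨Ω', _, Q, fun j a => (up (b a))⁻¹ * p j a, fun a => (z a, rp Γ (b a)),
    (Q.H fun a => (z a, b a)) - Q.H z, Q.E fun a => G (π (z a)) (b a),
    fun j hj a ha => ⟨?_, ?_, ?_⟩, ?_, ?_, ?_, ?_⟩
  · have := (e5 j hj a ha).1
    rwa [show ((up (b a) : Γ)⁻¹ * p j a)⁻¹ * ((up (b a) : Γ)⁻¹ * p (j + 1) a) =
      (p j a)⁻¹ * p (j + 1) a by group]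
  · rw [up_smul]
    exact (hb a _ (e6 a ha)).1 j hj.le
  · rw [up_smul]
    exact (hb a _ (e6 a ha)).1 (j + 1) hj
  · have := cgib Q z b (fun y c => α * G (π y) c) σ fun y => hgr (π y)
    rw [stE2.E_smul] at this
    linarith
  · have h1 := fan (p 0) fun a => π (z a)
    have h2 : (Q.H fun a => ((p 0 a)⁻¹ * p 0 a, z a, π (z a))) ≤ Q.H z :=
      stE1.H_mono Q _ _ fun a b _ _ h => by rw [h, inv_mul_cancel, inv_mul_cancel]
    have h3 : Dc Q (fun a => (p 0 a)⁻¹ * p 0 a) (fun a => (p 0 a)⁻¹ * p (0 + 1) a)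
        (fun a => (z a, π (z a))) ≤ 0 := by
      unfold Dc
      have h4 : (Q.H fun a => (((p 0 a)⁻¹ * p 0 a, z a, π (z a)),
          ((p 0 a)⁻¹ * p (0 + 1) a, z a, π (z a)))) ≤
          Q.H fun a => ((p 0 a)⁻¹ * p (0 + 1) a, z a, π (z a)) :=
        stE1.H_mono Q _ _ fun a b _ _ h => by
          rw [h, inv_mul_cancel, inv_mul_cancel, (Prod.mk.inj h).2]
      have h5 : (Q.H fun a => (z a, π (z a))) ≤ Q.H fun a => ((p 0 a)⁻¹ * p 0 a, z a, π (z a)) :=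
        stE1.H_mono Q _ _ fun a b _ _ h => (Prod.mk.inj h).2
      simp only [inv_mul_cancel, inv_one, one_mul] at h4 h5 ⊢
      linarith
    have h4 : (Q.H fun a => ((p 0 a)⁻¹ * p N a, z a, π (z a))) + Q.H z ≤
        (Q.H fun a => (p 0 a, z a)) + Q.H fun a => (p N a, z a) :=
      stE1.H_sub Q _ _ _ _ (fun a b _ _ h => (Prod.mk.inj h).2) (fun a b _ _ h => (Prod.mk.inj h).2)
        fun a b _ _ h h' => by rw [(Prod.mk.inj h).1, (Prod.mk.inj h).2, (Prod.mk.inj h').1]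
    have h5 : ∑ j ∈ range M, Dc Q (fun a => (p 0 a)⁻¹ * p (j + 1) a)
        (fun a => (p 0 a)⁻¹ * p (j + 1 + 1) a) (fun a => (z a, π (z a))) ≤ M * D := by
      refine (sum_le_card_nsmul _ _ D fun j hj => hD _ _ Q _ _ _ fun a ha => ?_).trans (by simp)
      have := (e5 (j + 1) (by have := mem_range.1 hj; omega) a ha).1
      rwa [show ((p 0 a)⁻¹ * p (j + 1) a)⁻¹ * ((p 0 a)⁻¹ * p (j + 1 + 1) a) =
        (p (j + 1) a)⁻¹ * p (j + 1 + 1) a by group]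
    have h6 := sum_range_succ' (fun j => Dc Q (fun a => (p 0 a)⁻¹ * p j a)
      (fun a => (p 0 a)⁻¹ * p (j + 1) a) fun a => (z a, π (z a))) M
    linarith
  · linarith [fan (fun a => up (b a)) fun a => rp Γ (b a), c3 0, c3 N]
  · have h1 := stE2.E_mono Q _ _ fun a ha => drop hτ hτ1 he hmid (Nat.le_add_left 1 M)
      (fun j => p j a) _ (b a) (e6 a ha) (hb a)
    rw [stE2.E_add, stE2.E_add, stE2.E_smul, stE2.E_smul, stE2.E_const] at h1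
    unfold Phi at h1
    rw [stE2.E_sum, stE2.E_sum] at h1
    have h2 : ∑ j ∈ range N, sz Φ Q (p j) (p (j + 1)) (fun a => π (z a)) =
        N * sz Φ P X Y fun a => π (Z a) := by
      rw [sum_congr rfl fun j hj => e4 j (mem_range.1 hj), sum_const, card_range, nsmul_eq_mul]
    rw [← h2]
    unfold sz
    simp only [up_smul]
    exact h1

/-- There is an admissible random triangle with excess at least `d` and size at most `s`. -/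
def Tri (B : Set Γ) (A : Set 𝒳) (Φ : 𝒳 → ℝ) (d s : ℝ) : Prop :=
  ∃ (Ω ζ : Type) (_ : Fintype Ω) (P : FP Ω) (X Y : Ω → Γ) (Z : Ω → ζ) (π : ζ → 𝒳),
    (∀ a, 0 < P.w a → Ok B A (X a) (Y a) (π (Z a))) ∧ d ≤ Dc P X Y Z ∧
      sz Φ P X Y (fun a => π (Z a)) ≤ s

lemma sz_nonneg {B : Set Γ} {A : Set 𝒳} {Φ : 𝒳 → ℝ} (hΦ : ∀ c ∈ A, 0 ≤ Φ c) {P : FP Ω}
    {X Y : Ω → Γ} {C : Ω → 𝒳} (h : ∀ a, 0 < P.w a → Ok B A (X a) (Y a) (C a)) :
    0 ≤ sz Φ P X Y C := by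
  rw [← stE2.E_const P 0]
  exact stE2.E_mono P _ _ fun a ha => add_nonneg (hΦ _ (h a ha).2.1) (hΦ _ (h a ha).2.2)

/-- One round: the size drops, the deficiency is multiplied by a constant. -/
lemma step (hC : St_CHAIN) {B : Set Γ} (hB : ∀ g ∈ B, g⁻¹ ∈ B) {A : Set 𝒳} {Φ : 𝒳 → ℝ}
    {G : 𝒳 → 𝒳 → ℝ} {α σ μ τ err D θ s₀ Δ β : ℝ} (hτ : 0 ≤ τ) (hτ1 : τ ≤ 1) (her : 0 < err)
    (hΦ : ∀ c ∈ A, 0 ≤ Φ c)
    (hmid : ∀ c b, ∃ m, ∀ g : Γ, g⁻¹ • c ∈ A → g⁻¹ • b ∈ A → g⁻¹ • m ∈ A ∧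
      2 * Φ (g⁻¹ • m) + G c b ≤ (1 + τ) * (Φ (g⁻¹ • c) + Φ (g⁻¹ • b)) + err)
    (hgr : ∀ c (F : Finset 𝒳), ∑ b ∈ F, Real.exp (-(α * G c b)) ≤ Real.exp σ)
    (hst : ∀ c : 𝒳, ∃ F : Finset Γ, (F.card : ℝ) ≤ Real.exp μ ∧ ∀ g, g • c = c → g ∈ F)
    (hD : Exc' B D) (hθ : 0 < θ) (hθD : θ ≤ D) (hΔ : 0 < Δ) (hα : 0 < α) (hμ : 0 ≤ μ)
    (a0 : μ + σ ≤ θ / 8) (a1 : 16 * α * Δ ≤ θ) (a2 : 2 * τ * s₀ ≤ Δ) (a3 : 5 * err ≤ Δ)
    (a5 : (5 + 8 * α * s₀ / θ) * s₀ / Δ ≤ β) {e s : ℝ} (he : 0 < e) (he' : e ≤ θ / 4)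
    (hs : s ≤ s₀) (h : Tri B A Φ (D - e) s) : Tri B A Φ (D - β * e) (s - Δ) := by
  obtain ⟨Ω, ζ, _, P, X, Y, Z, π, hXY, hd, hsz⟩ := h
  have b1 : 2 ≤ θ / (2 * e) := by
    rw [le_div_iff₀ (by positivity)]
    linarith
  obtain ⟨M, hM⟩ : ∃ M, ⌊θ / (2 * e)⌋₊ = M + 1 :=
    Nat.exists_eq_succ_of_ne_zero (Nat.floor_pos.2 (by linarith)).ne'
  obtain ⟨Ω', _, Q, q, Z', h, w, r1, b6, r2, r3, r4⟩ :=
    round hC hB hτ hτ1 her hΦ hmid hgr hst hD P X Y Z π hXY M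
  have b2 : ((M + 1 : ℕ) : ℝ) * e ≤ θ / 2 := by
    have := Nat.floor_le (show 0 ≤ θ / (2 * e) by positivity)
    rw [hM, le_div_iff₀ (by positivity)] at this
    linarith
  have b3 : θ / 4 ≤ ((M + 1 : ℕ) : ℝ) * e := by
    have := Nat.lt_floor_add_one (θ / (2 * e))
    rw [hM, div_lt_iff₀ (by positivity)] at this
    linarith
  have hNM : (M : ℝ) = (M + 1 : ℕ) - 1 := by push_cast; ring
  rw [hNM] at r2
  set N : ℝ := ((M + 1 : ℕ) : ℝ) with hN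
  have hN0 : 0 < N := by rw [hN]; positivity
  have s0 := sz_nonneg hΦ hXY
  have s1 : 0 ≤ s₀ := s0.trans (hsz.trans hs)
  have b4 := mul_le_mul_of_nonneg_left hd hN0.le
  have b8 : 2 * Δ ≤ w := le_of_mul_le_mul_left (show α * (2 * Δ) ≤ α * w by linarith) hα
  have b9 : ∑ j ∈ range (M + 1), sz Φ Q (q j) (q (j + 1)) (fun a => (Z' a).2) + 2 * N * w ≤
      N * (s + 2 * Δ) := by
    have c1 := mul_le_mul_of_nonneg_left a3 hN0.le
    have c2 : (1 + 2 * τ) * sz Φ P X Y (fun a => π (Z a)) ≤ s + Δ := by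
      have := mul_le_mul_of_nonneg_left (hsz.trans hs) (show 0 ≤ 2 * τ by positivity)
      linarith
    have c3 := mul_le_mul_of_nonneg_left c2 hN0.le
    linarith
  have b10 : 0 ≤ ∑ j ∈ range (M + 1), sz Φ Q (q j) (q (j + 1)) (fun a => (Z' a).2) :=
    sum_nonneg fun j hj => sz_nonneg hΦ (r1 j (mem_range.1 hj))
  have b11 : 2 * w ≤ s₀ + 2 * Δ := by
    have c1 : N * (2 * w) ≤ N * (s + 2 * Δ) := by linarith
    linarith [le_of_mul_le_mul_left c1 hN0]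
  have b12 : 4 * h + 2 * μ ≤ 2 * α * s₀ + θ := by
    linarith [mul_le_mul_of_nonneg_left b11 hα.le]
  set A₁ := 5 + 8 * α * s₀ / θ with hA₁
  have hA : 0 < A₁ := by positivity
  have b13 : 4 * h + 2 * μ ≤ N * e * (A₁ - 1) := by
    have c1 : θ / 4 * (A₁ - 1) = 2 * α * s₀ + θ := by
      rw [hA₁]
      field_simp
      ring
    have c2 : 0 ≤ A₁ - 1 := by
      have : 0 ≤ 8 * α * s₀ / θ := by positivity
      linarith
    linarith [mul_le_mul_of_nonneg_right b3 c2]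
  set l := e * A₁ / Δ with hl
  have hl0 : 0 < l := by positivity
  have hl1 : l * Δ = e * A₁ := div_mul_cancel₀ _ hΔ.ne'
  obtain ⟨j, hj, hj'⟩ : ∃ j ∈ range (M + 1), D - Dc Q (q j) (q (j + 1)) Z' +
      l * sz Φ Q (q j) (q (j + 1)) (fun a => (Z' a).2) ≤ l * (s - Δ) := by
    refine exists_le_of_sum_le nonempty_range_add_one ?_
    rw [sum_add_distrib, sum_sub_distrib, ← mul_sum, sum_const, sum_const, card_range,
      nsmul_eq_mul, nsmul_eq_mul, ← hN]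
    have c1 : ∑ j ∈ range (M + 1), sz Φ Q (q j) (q (j + 1)) (fun a => (Z' a).2) ≤
        N * (s - 2 * Δ) := by linarith [mul_le_mul_of_nonneg_left b8 hN0.le]
    have c2 := mul_le_mul_of_nonneg_left c1 hl0.le
    have c3 : N * (l * Δ) = N * (e * A₁) := by rw [hl1]
    linarith
  have d1 := hD _ _ Q _ _ Z' fun a ha => (r1 j (mem_range.1 hj) a ha).1
  have d2 := mul_nonneg hl0.le (sz_nonneg hΦ (r1 j (mem_range.1 hj)))
  refine ⟨Ω', _, _, Q, q j, q (j + 1), Z', Prod.snd, r1 j (mem_range.1 hj), ?_,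
    le_of_mul_le_mul_left (by linarith) hl0⟩
  have d3 : l * s₀ ≤ β * e := by
    have := mul_le_mul_of_nonneg_right a5 he.le
    rwa [show A₁ * s₀ / Δ * e = l * s₀ by rw [hl]; ring] at this
  linarith [mul_le_mul_of_nonneg_left (show s - Δ ≤ s₀ by linarith) hl0.le]

end Core

open SD.Core in
/-- The core theorem at a fixed scale. -/
theorem core (hC : St_CHAIN) {Γ 𝒳 : Type} [Group Γ] [MulAction Γ 𝒳] (B : Set Γ)
    (hB : ∀ g ∈ B, g⁻¹ ∈ B) (hfin : B.Finite) (A : Set 𝒳) (Φ : 𝒳 → ℝ) (G : 𝒳 → 𝒳 → ℝ)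
    {α σ μ lam τ err s₀ θ Δ β : ℝ} {K : ℕ} (hΦ : ∀ c ∈ A, 0 ≤ Φ c)
    (hmid : ∀ c b, ∃ m, ∀ g : Γ, g⁻¹ • c ∈ A → g⁻¹ • b ∈ A → g⁻¹ • m ∈ A ∧
      2 * Φ (g⁻¹ • m) + G c b ≤ (1 + τ) * (Φ (g⁻¹ • c) + Φ (g⁻¹ • b)) + err)
    (hgr : ∀ c (F : Finset 𝒳), ∑ b ∈ F, Real.exp (-(α * G c b)) ≤ Real.exp σ)
    (hst : ∀ c : 𝒳, ∃ F : Finset Γ, (F.card : ℝ) ≤ Real.exp μ ∧ ∀ g, g • c = c → g ∈ F)
    (hloc : ∃ S : Γ → Finset 𝒳, (∀ x, ((S x).card : ℝ) ≤ Real.exp lam) ∧ ∀ x y, x⁻¹ * y ∈ B →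
      ∃ b ∈ S x, b ∈ S y ∧ x⁻¹ • b ∈ A ∧ y⁻¹ • b ∈ A ∧ Φ (x⁻¹ • b) + Φ (y⁻¹ • b) ≤ s₀)
    (hθ : 0 < θ) (hΔ : 0 < Δ) (hα : 0 < α) (hτ : 0 ≤ τ) (hτ1 : τ ≤ 1) (her : 0 < err)
    (hμ : 0 ≤ μ) (hl : 0 < lam) (a0 : μ + σ ≤ θ / 8) (a1 : 16 * α * Δ ≤ θ)
    (a2 : 2 * τ * s₀ ≤ Δ) (a3 : 5 * err ≤ Δ) (a4 : s₀ < K * Δ) (hβ : 1 ≤ β)
    (a5 : (5 + 8 * α * s₀ / θ) * s₀ / Δ ≤ β) (a6 : β ^ K * (12 * lam) ≤ θ) : Exc B θ := by
  obtain ⟨S, hS, hS'⟩ := hloc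
  intro Ω _ P X Y hXY
  by_contra hcon
  let T : Set ℝ := {d | ∃ (Ω ζ : Type) (_ : Fintype Ω) (P : FP Ω) (X Y : Ω → Γ) (Z : Ω → ζ),
    (∀ a, 0 < P.w a → (X a)⁻¹ * Y a ∈ B) ∧ Dc P X Y Z = d}
  have hT : BddAbove T := ⟨Real.log hfin.toFinset.card, by
    rintro _ ⟨Ω, ζ, _, P, X, Y, Z, h, rfl⟩
    have h1 := stE1.H_le_card P (fun a => (X a)⁻¹ * Y a) hfin.toFinset fun a ha =>
      hfin.mem_toFinset.2 (h a ha)
    linarith [Dc_le P X Y Z, stE1.H_pair_le P (fun a => (X a)⁻¹ * Y a) Z]⟩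
  have hD : Exc' B (sSup T) := fun Ω ζ _ P X Y Z h => le_csSup hT ⟨Ω, ζ, _, P, X, Y, Z, h, rfl⟩
  obtain ⟨_, ⟨Ω₁, ζ₁, _, P₁, X₁, Y₁, Z₁, h₃, rfl⟩, h₄⟩ := exists_lt_of_lt_csSup
    (⟨_, Ω, Unit, _, P, X, Y, fun _ => (), hXY, rfl⟩ : T.Nonempty) (sub_lt_self (sSup T) hl)
  have h0 : Tri B A Φ (sSup T - 3 * lam) s₀ := by
    obtain ⟨a₀, ha₀, -⟩ := stE2.exists_le_E P₁ fun _ => 0
    obtain ⟨b₀, -⟩ := hS' _ _ (h₃ a₀ ha₀)
    have : ∀ a, ∃ b, 0 < P₁.w a → b ∈ S (X₁ a) ∧ b ∈ S (Y₁ a) ∧ (X₁ a)⁻¹ • b ∈ A ∧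
        (Y₁ a)⁻¹ • b ∈ A ∧ Φ ((X₁ a)⁻¹ • b) + Φ ((Y₁ a)⁻¹ • b) ≤ s₀ := fun a => by
      by_cases ha : 0 < P₁.w a
      · obtain ⟨b, hb⟩ := hS' _ _ (h₃ a ha)
        exact ⟨b, fun _ => hb⟩
      · exact ⟨b₀, fun h => absurd h ha⟩
    choose b hb using this
    have k1 := red P₁ X₁ Y₁ Z₁ b S _ hS (fun a ha => (hb a ha).1) fun a ha => (hb a ha).2.1
    refine ⟨Ω₁, _, _, P₁, _, _, fun a => (Z₁ a, rp Γ (b a)), Prod.snd, fun a ha => ⟨?_, ?_, ?_⟩,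
      le_trans (by linarith) (sub_le_iff_le_add.2 k1), ?_⟩
    · rw [show ((up (b a) : Γ)⁻¹ * X₁ a)⁻¹ * ((up (b a) : Γ)⁻¹ * Y₁ a) = (X₁ a)⁻¹ * Y₁ a by group]
      exact h₃ a ha
    · rw [up_smul]
      exact (hb a ha).2.2.1
    · rw [up_smul]
      exact (hb a ha).2.2.2.1
    · rw [← stE2.E_const P₁ s₀]
      refine stE2.E_mono P₁ _ _ fun a ha => ?_
      rw [up_smul, up_smul]
      exact (hb a ha).2.2.2.2
  have hθD : θ ≤ sSup T := by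
    have := hD Ω Unit P X Y (fun _ => ()) hXY
    rw [Dc_unit] at this
    exact (not_le.1 hcon).le.trans this
  obtain ⟨Ω₃, ζ₃, _, P₃, X₃, Y₃, Z₃, π, k0, -, k⟩ := SD.A.iter
    (T := fun e s => Tri B A Φ (sSup T - e) s) (θ := θ) (K := K) hΔ hβ (by positivity)
    (by linarith) (fun e s k1 k2 k3 k4 =>
      step hC hB hτ hτ1 her hΦ hmid hgr hst hD hθ hθD hΔ hα hμ a0 a1 a2 a3 a5 k1 k2 k3 k4)
    h0 K le_rfl
  linarith [sz_nonneg hΦ k0]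

end Pool.Agent.Lib.SD
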