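import Mathlib

/-! Subexponential decay for cocompact lattices: the definitions used in the statement. -/

noncomputable section

open Finset

namespace Pool.Agent.Lib.SD

/-- The `l²` norm of an element of the complex group algebra. -/
def l2 {Γ : Type} [Group Γ] (f : MonoidAlgebra ℂ Γ) : ℝ :=
  √(∑ g ∈ f.coeff.support, ‖f.coeff g‖ ^ 2)

/-- Subexponential decay with respect to the family of balls `B r`. -/
def SubexpDecay {Γ : Type} [Group Γ] (B : ℝ → Set Γ) : Prop :=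
  ∀ ε : ℝ, 0 < ε → ∃ C : ℝ, ∀ r : ℝ, 0 ≤ r → ∀ f g : MonoidAlgebra ℂ Γ,
    (∀ x ∈ f.coeff.support, x ∈ B r) → l2 (f * g) ≤ C * Real.exp (ε * r) * l2 f * l2 g

/-- The ball of radius `r` for the word length defined by `S`: products of at most `r` elements
that lie in `S` or have their inverse in `S`. -/
def wordBall {Γ : Type} [Group Γ] (S : Finset Γ) (r : ℝ) : Set Γ :=
  {g | ∃ l : List Γ, (l.length : ℝ) ≤ r ∧ (∀ s ∈ l, s ∈ S ∨ s⁻¹ ∈ S) ∧ l.prod = g}

variable {K : Type} [NontriviallyNormedField K] {n : ℕ}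

/-- All entries of `g` and of its inverse have norm at most `C`. -/
def Kc (C : ℝ) (g : GL (Fin n) K) : Prop :=
  (∀ i j, ‖g.val i j‖ ≤ C) ∧ ∀ i j, ‖(g⁻¹).val i j‖ ≤ C

/-- A Cartan decomposition `G = Ω A² Ω`: here `Ω` is a bounded subset of `G`, and `A` is the set
of diagonal matrices in `G`. -/
def HasCartan (G : Subgroup (GL (Fin n) K)) : Prop :=
  ∃ C : ℝ, ∀ g ∈ G, ∃ k₁ ∈ G, ∃ b ∈ G, ∃ k₂ ∈ G,
    Kc C k₁ ∧ Kc C k₂ ∧ b.val.IsDiag ∧ g = k₁ * b * b * k₂

end Pool.Agent.Lib.SD
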